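import Pool.Agent.Helper41.FB.Steps
open MeasureTheory Set Filter Topology
open scoped RealInnerProductSpace

namespace FB41

/-- cut volumes of `K` are real analytic at every interior level -/
def AnalyticCuts (K : Set E3) : Prop :=
  ∀ u : E3, ‖u‖ = 1 → ∀ t : ℝ, 0 < volume.real (below K u t) →
    volume.real (below K u t) < volume.real K →
    AnalyticAt ℝ (fun s : ℝ => volume.real (below K u s)) t

lemma tube_slab (p u : E3) (hu : ‖u‖ = 1) (ρ : ℝ) (hρ : 0 < ρ) :
    ∃ c : ℝ, 0 < c ∧ ∀ h ∈ Ioo (0:ℝ) (ρ/4), c * h ≤ volume.real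
      {x : E3 | x ∈ Metric.ball p ρ ∧ (⟪p, u⟫ < ⟪x, u⟫ ∧ ⟪x, u⟫ ≤ ⟪p, u⟫ + h)} := by
  set t : ℝ := ⟪p, u⟫ with ht
  have hcont : Continuous (fun x : E3 => (⟪x, u⟫ : ℝ)) := by fun_prop
  set W : Set E3 := Metric.ball p (ρ/2) ∩ ((fun x : E3 => (⟪x, u⟫ : ℝ)) ⁻¹' (Ioo t (t + ρ/4))) with hW
  have hWo : IsOpen W := Metric.isOpen_ball.inter (isOpen_Ioo.preimage hcont)
  have huu : (⟪u, u⟫ : ℝ) = 1 := by rw [real_inner_self_eq_norm_sq, hu]; norm_num
  have hWn : W.Nonempty := by
    refine ⟨p + (ρ/8) • u, ?_, ?_⟩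
    · rw [Metric.mem_ball, dist_eq_norm, add_sub_cancel_left, norm_smul, hu, Real.norm_eq_abs,
        abs_of_pos (by positivity)]
      linarith
    · show (⟪p + (ρ/8) • u, u⟫ : ℝ) ∈ Ioo t (t + ρ/4)
      rw [inner_add_left, real_inner_smul_left, huu, ← ht]
      constructor <;> linarith
  have hWfin : volume W ≠ ⊤ := ((measure_mono inter_subset_left).trans_lt measure_ball_lt_top).ne
  have hWpos : 0 < volume W := hWo.measure_pos volume hWn
  have hv0 : 0 < volume.real W := ENNReal.toReal_pos hWpos.ne' hWfin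
  refine ⟨2 * volume.real W / ρ, by positivity, ?_⟩
  rintro h ⟨hh0, hh1⟩
  set S : Set E3 := {x : E3 | x ∈ Metric.ball p ρ ∧ (t < ⟪x, u⟫ ∧ ⟪x, u⟫ ≤ t + h)} with hS
  have hSfin : volume S ≠ ⊤ :=
    ((measure_mono (fun x hx => hx.1)).trans_lt (measure_ball_lt_top (x := p) (r := ρ))).ne
  set N : ℕ := ⌈(ρ/4)/h⌉₊ with hN
  have hsub : W ⊆ ⋃ i ∈ Finset.range N, (fun x : E3 => x - ((i:ℝ) * h) • u) ⁻¹' S := by
    intro x hx
    obtain ⟨hx1, hx2, hx3⟩ := hx
    simp only at hx2 hx3
    have hpos : 0 < (⟪x, u⟫ - t) / h := div_pos (by linarith) hh0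
    have hc1 : 1 ≤ ⌈(⟪x, u⟫ - t) / h⌉₊ := Nat.one_le_iff_ne_zero.2 (Nat.ceil_pos.2 hpos).ne'
    obtain ⟨i, hi⟩ : ∃ i : ℕ, ⌈(⟪x, u⟫ - t) / h⌉₊ = i + 1 := ⟨_, (Nat.sub_add_cancel hc1).symm⟩
    have hle : (⟪x, u⟫ - t) / h ≤ (i:ℝ) + 1 := by
      have h1 := Nat.le_ceil ((⟪x, u⟫ - t) / h)
      rw [hi] at h1
      push_cast at h1
      exact h1
    have hlt : (i:ℝ) < (⟪x, u⟫ - t) / h := by
      have h1 := Nat.ceil_lt_add_one hpos.le
      rw [hi] at h1
      push_cast at h1
      linarith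
    have hiN : i < N := by
      have h1 : ⌈(⟪x, u⟫ - t) / h⌉₊ ≤ N := Nat.ceil_le_ceil (by gcongr; linarith)
      omega
    rw [div_le_iff₀ hh0] at hle
    rw [lt_div_iff₀ hh0] at hlt
    refine Set.mem_biUnion (Finset.mem_coe.2 (Finset.mem_range.2 hiN)) ?_
    have hf : (⟪x - ((i:ℝ) * h) • u, u⟫ : ℝ) = ⟪x, u⟫ - i * h := by
      rw [inner_sub_left, real_inner_smul_left, huu, mul_one]
    refine ⟨?_, ?_, ?_⟩
    · rw [Metric.mem_ball, dist_eq_norm] at hx1 ⊢
      have h2 : ‖x - ((i:ℝ) * h) • u - p‖ ≤ ‖x - p‖ + ‖((i:ℝ) * h) • u‖ := by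
        have h3 : x - ((i:ℝ) * h) • u - p = (x - p) - ((i:ℝ) * h) • u := by abel
        rw [h3]
        exact norm_sub_le _ _
      rw [norm_smul, hu, mul_one, Real.norm_eq_abs, abs_of_nonneg (by positivity)] at h2
      linarith
    · simp only [hf]; linarith
    · simp only [hf]; linarith
  have hm : volume W ≤ N * volume S := by
    refine (measure_mono hsub).trans ((measure_biUnion_finset_le _ _).trans ?_)
    have h9 : ∀ i ∈ Finset.range N, volume ((fun x : E3 => x - ((i:ℝ) * h) • u) ⁻¹' S) = volume S := by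
      intro i _
      have h10 := measure_preimage_add_right (volume : Measure E3) (-(((i:ℝ) * h) • u)) S
      simpa only [sub_eq_add_neg] using h10
    rw [Finset.sum_congr rfl h9]
    simp
  have hm2 : volume.real W ≤ N * volume.real S := by
    have h1 := ENNReal.toReal_mono (ENNReal.mul_ne_top (ENNReal.natCast_ne_top N) hSfin) hm
    rw [ENNReal.toReal_mul, ENNReal.toReal_natCast] at h1
    exact h1
  have hN2 : (N:ℝ) ≤ (ρ/2)/h := by
    have h1 := Nat.ceil_lt_add_one (show 0 ≤ (ρ/4)/h by positivity)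
    have h2 : 1 ≤ (ρ/4)/h := by rw [le_div_iff₀ hh0]; linarith
    have h3 : (ρ/2)/h = (ρ/4)/h + (ρ/4)/h := by ring
    rw [h3]
    linarith
  have hm3 : volume.real W ≤ (ρ/2)/h * volume.real S :=
    hm2.trans (mul_le_mul_of_nonneg_right hN2 measureReal_nonneg)
  have e : (ρ/2)/h * volume.real S = (ρ/2 * volume.real S)/h := by ring
  rw [e, le_div_iff₀ hh0] at hm3
  have e2 : 2 * volume.real W / ρ * h = (2 * (volume.real W * h)) / ρ := by ring
  rw [e2, div_le_iff₀ hρ]
  linarith

lemma TUBE (K : Set E3) (hK : IsCompact K) (hconv : Convex ℝ K) (hint : (interior K).Nonempty)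
    (u : E3) (hu : ‖u‖ = 1) (t : ℝ) (h0 : 0 < volume.real (below K u t))
    (h1 : volume.real (below K u t) < volume.real K) :
    ∃ c η : ℝ, 0 < c ∧ 0 < η ∧ ∀ h ∈ Ioo (0:ℝ) η,
      c * h ≤ volume.real (below K u (t + h)) - volume.real (below K u t) := by
  have hcont : Continuous (fun x : E3 => (⟪x, u⟫ : ℝ)) := by fun_prop
  have hfr : volume (frontier K) = 0 := hconv.addHaar_frontier volume
  have hKfin : volume K ≠ ⊤ := hK.measure_lt_top.ne
  have hmem : ∀ x ∈ K, x ∉ interior K → x ∈ frontier K := fun x hx hx' => ⟨subset_closure hx, hx'⟩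
  have hx1 : ∃ x ∈ interior K, (⟪x, u⟫ : ℝ) ≤ t := by
    by_contra hcon
    push Not at hcon
    have h2 : below K u t ⊆ frontier K := by
      rintro x ⟨hxK, hxt⟩
      refine hmem x hxK (fun hx => ?_)
      have := hcon x hx
      simp only [mem_setOf_eq] at hxt
      linarith
    have h3 : volume (below K u t) = 0 := measure_mono_null h2 hfr
    rw [Measure.real, h3] at h0
    simp at h0
  have hx2 : ∃ x ∈ interior K, t ≤ (⟪x, u⟫ : ℝ) := by
    by_contra hcon
    push Not at hcon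
    have h2 : K ⊆ below K u t ∪ frontier K := by
      intro x hxK
      by_cases hx : x ∈ interior K
      · exact Or.inl ⟨hxK, (hcon x hx).le⟩
      · exact Or.inr (hmem x hxK hx)
    have h3 : volume K ≤ volume (below K u t) := by
      refine (measure_mono h2).trans ((measure_union_le _ _).trans ?_)
      rw [hfr, add_zero]
    have h4 : volume (below K u t) ≠ ⊤ := ((measure_mono inter_subset_left).trans_lt hK.measure_lt_top).ne
    have h5 := ENNReal.toReal_mono h4 h3
    exact absurd h1 (not_lt.2 h5)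
  obtain ⟨x1, hx1, hx1'⟩ := hx1
  obtain ⟨x2, hx2, hx2'⟩ := hx2
  obtain ⟨p, hp, hpt⟩ := hconv.interior.isPreconnected.intermediate_value hx1 hx2
    hcont.continuousOn (show t ∈ Icc _ _ from ⟨hx1', hx2'⟩)
  simp only at hpt
  obtain ⟨ρ, hρ, hball⟩ := Metric.isOpen_iff.1 isOpen_interior p hp
  obtain ⟨c, hc, hcc⟩ := tube_slab p u hu ρ hρ
  refine ⟨c, ρ/4, hc, by positivity, ?_⟩
  intro h hh
  refine (hcc h hh).trans ?_
  have hmeas : MeasurableSet (below K u t) :=
    hK.isClosed.measurableSet.inter (isClosed_le hcont continuous_const).measurableSet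
  have hsub : below K u t ⊆ below K u (t + h) := by
    rintro x ⟨hxK, hxt⟩
    simp only [mem_setOf_eq] at hxt
    exact ⟨hxK, by simp only [mem_setOf_eq]; linarith [hh.1]⟩
  have hfin : volume (below K u (t + h)) ≠ ⊤ :=
    ((measure_mono inter_subset_left).trans_lt hK.measure_lt_top).ne
  have hfin2 : volume (below K u t) ≠ ⊤ :=
    ((measure_mono inter_subset_left).trans_lt hK.measure_lt_top).ne
  rw [← measureReal_diff hsub hmeas hfin]
  refine measureReal_mono ?_ ((measure_mono diff_subset).trans_lt hfin.lt_top).ne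
  rintro x ⟨hxb, hxt1, hxt2⟩
  rw [hpt] at hxt1 hxt2
  refine ⟨⟨interior_subset (hball hxb), hxt2⟩, fun hx => ?_⟩
  have := hx.2
  simp only [mem_setOf_eq] at this
  linarith

lemma TINV (K : Set E3) (hK : IsCompact K) (hconv : Convex ℝ K) (hint : (interior K).Nonempty)
    (hA : AnalyticCuts K) (u : E3) (hu : ‖u‖ = 1) (T : ℝ → ℝ)
    (hT : ∀ d ∈ Ioo (0:ℝ) 1, volume.real (below K u (T d)) = d * volume.real K) :
    AnalyticOnNhd ℝ T (Ioo (0:ℝ) 1) := by
  intro d0 hd0
  have hvK : 0 < volume.real K := by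
    have h1 : 0 < volume K := Measure.measure_pos_of_nonempty_interior _ hint
    have h2 : volume K ≠ ⊤ := hK.measure_lt_top.ne
    exact ENNReal.toReal_pos h1.ne' h2
  obtain ⟨v, hv⟩ : ∃ v : ℝ, v = volume.real K := ⟨_, rfl⟩
  obtain ⟨V, hV⟩ : ∃ V : ℝ → ℝ, V = fun s => volume.real (below K u s) := ⟨_, rfl⟩
  have hVs : ∀ s, volume.real (below K u s) = V s := fun s => by rw [hV]
  have hSt : ∀ t s : ℝ, t < s → 0 < V t → V t < v → V t < V s := by
    intro t s hts h0 h1
    rw [hV, hv] at *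
    exact STRICT K hK hconv hint u hu t s hts h0 h1
  rw [← hv] at hvK
  simp only [hVs, ← hv] at hT
  have e0 := hT d0 hd0
  have hp0 : 0 < V (T d0) := by rw [e0]; exact mul_pos hd0.1 hvK
  have hp1 : V (T d0) < v := by
    rw [e0]; nlinarith [hd0.2]
  have hAn : AnalyticAt ℝ V (T d0) := by
    have := hA u hu (T d0) (by rw [hVs]; exact hp0) (by rw [hVs, ← hv]; exact hp1)
    rw [hV]; exact this
  obtain ⟨c, η, hc, hη, hTube⟩ := TUBE K hK hconv hint u hu (T d0) (by rw [hVs]; exact hp0)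
    (by rw [hVs, ← hv]; exact hp1)
  simp only [hVs] at hTube
  have hder : deriv V (T d0) ≠ 0 := by
    have h1 := hAn.differentiableAt.hasDerivAt
    have h2 := h1.tendsto_slope_zero_right
    have h3 : c ≤ deriv V (T d0) := by
      refine ge_of_tendsto h2 ?_
      filter_upwards [Ioo_mem_nhdsGT hη] with h hh
      have := hTube h hh
      rw [smul_eq_mul, ← div_eq_inv_mul, le_div_iff₀ hh.1]
      exact this
    linarith
  have hg : AnalyticAt ℝ ((fun y => T (y / v)) ∘ V) (T d0) := by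
    refine AnalyticAt.congr analyticAt_id ?_
    have hcont := hAn.continuousAt
    filter_upwards [hcont.eventually (lt_mem_nhds hp0), hcont.eventually (gt_mem_nhds hp1)]
      with t ht0 ht1
    show t = T (V t / v)
    have hd : V t / v ∈ Ioo (0:ℝ) 1 := ⟨div_pos ht0 hvK, (div_lt_one hvK).2 ht1⟩
    have e1 := hT _ hd
    rw [div_mul_cancel₀ _ hvK.ne'] at e1
    rcases lt_trichotomy (T (V t / v)) t with h | h | h
    · have := hSt _ _ h (by rw [e1]; exact ht0) (by rw [e1]; exact ht1)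
      rw [e1] at this
      exact absurd this (lt_irrefl _)
    · exact h.symm
    · have := hSt _ _ h ht0 ht1
      rw [e1] at this
      exact absurd this (lt_irrefl _)
  rw [analyticAt_comp_iff_of_deriv_ne_zero hAn hder, e0] at hg
  have hlin : AnalyticAt ℝ (fun d : ℝ => d * v) d0 := by fun_prop
  have hfin : AnalyticAt ℝ ((fun y => T (y / v)) ∘ (fun d : ℝ => d * v)) d0 :=
    AnalyticAt.comp (f := fun d : ℝ => d * v) (g := fun y => T (y / v)) (x := d0) hg hlin
  refine hfin.congr (Filter.Eventually.of_forall fun d => ?_)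
  show T (d * v / v) = T d
  rw [mul_div_cancel_right₀ _ hvK.ne']

lemma FDER_meas (K : Set E3) (hK : IsCompact K) (u : E3) (t : ℝ) : MeasurableSet (below K u t) := by
  refine hK.measurableSet.inter ?_
  exact measurableSet_le (by fun_prop) measurable_const

lemma FDER_int (K : Set E3) (hK : IsCompact K) (u : E3) (t s : ℝ) :
    ∫ x in below K u s, (⟪x, u⟫ - t) = (∫ x in below K u s, ⟪x, u⟫) - t * volume.real (below K u s) := by
  have h1 : IntegrableOn (fun x : E3 => ⟪x, u⟫) K := by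
    refine ContinuousOn.integrableOn_compact hK ?_
    fun_prop
  have hsub : below K u s ⊆ K := inter_subset_left
  have h2 : IntegrableOn (fun x : E3 => ⟪x, u⟫) (below K u s) := h1.mono_set hsub
  have h3 : IntegrableOn (fun _ : E3 => t) (below K u s) := by
    refine integrableOn_const ?_
    exact ((measure_mono hsub).trans_lt hK.measure_lt_top).ne
  rw [integral_sub h2 h3, setIntegral_const, smul_eq_mul, mul_comm t]

lemma FDER (K : Set E3) (hK : IsCompact K) (hconv : Convex ℝ K) (hint : (interior K).Nonempty)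
    (u : E3) (hu : ‖u‖ = 1) (T : ℝ → ℝ)
    (hT : ∀ d ∈ Ioo (0:ℝ) 1, volume.real (below K u (T d)) = d * volume.real K)
    (d : ℝ) (hd : d ∈ Ioo (0:ℝ) 1) :
    HasDerivAt (fun d : ℝ => ∫ x in below K u (T d), ⟪x, u⟫) (T d * volume.real K) d := by
  have hv0 : 0 ≤ volume.real K := measureReal_nonneg
  have key : ∀ a ∈ Ioo (0:ℝ) 1, ∀ b ∈ Ioo (0:ℝ) 1, T a * (b - a) * volume.real K ≤
      (∫ x in below K u (T b), ⟪x, u⟫) - ∫ x in below K u (T a), ⟪x, u⟫ := by
    intro a ha b hb
    have h1 := BATH K hK u (T a) (below K u (T b)) (FDER_meas K hK u (T b)) inter_subset_left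
    rw [FDER_int K hK, FDER_int K hK, hT a ha, hT b hb] at h1
    nlinarith
  rw [hasDerivAt_iff_isLittleO, Asymptotics.isLittleO_iff]
  intro c hc
  obtain ⟨η, hη, hη2⟩ := LCONT K hK hconv hint u hu d hd (T d) (hT d hd)
    (c / (volume.real K + 1)) (by positivity)
  have hball : Metric.ball d η ∈ 𝓝 d := Metric.ball_mem_nhds d hη
  filter_upwards [Ioo_mem_nhds hd.1 hd.2, hball] with d' hd' hdb
  have h2 : |d' - d| < η := by
    rw [Metric.mem_ball, Real.dist_eq] at hdb
    exact hdb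
  have h3 := hη2 d' (T d') h2 (hT d' hd')
  have k1 := key d hd d' hd'
  have k2 := key d' hd' d hd
  rw [Real.norm_eq_abs, Real.norm_eq_abs, smul_eq_mul]
  have e1 : |(∫ x in below K u (T d'), ⟪x, u⟫) - (∫ x in below K u (T d), ⟪x, u⟫) -
      (d' - d) * (T d * volume.real K)| ≤ |(T d' - T d) * (d' - d) * volume.real K| := by
    rw [abs_of_nonneg (by nlinarith)]
    refine le_trans ?_ (le_abs_self _)
    nlinarith
  refine e1.trans ?_
  rw [abs_mul, abs_mul, abs_of_nonneg hv0]
  have e2 : |T d' - T d| * volume.real K ≤ c := by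
    calc |T d' - T d| * volume.real K ≤ (c / (volume.real K + 1)) * (volume.real K + 1) := by
          refine mul_le_mul h3.le (by linarith) hv0 (by positivity)
      _ = c := by field_simp
  calc |T d' - T d| * |d' - d| * volume.real K = (|T d' - T d| * volume.real K) * |d' - d| := by ring
    _ ≤ c * |d' - d| := mul_le_mul_of_nonneg_right e2 (abs_nonneg _)

lemma ROLLE (f g : ℝ → ℝ) (F G : ℝ → ℝ) (c : ℝ) (hc : 0 < c)
    (hF : ∀ d ∈ Ioo (0:ℝ) 1, HasDerivAt F (f d * c) d)
    (hG : ∀ d ∈ Ioo (0:ℝ) 1, HasDerivAt G (g d * c) d)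
    (hf : AnalyticOnNhd ℝ f (Ioo (0:ℝ) 1)) (hg : AnalyticOnNhd ℝ g (Ioo (0:ℝ) 1))
    (D : Set ℝ) (hD : ∀ d ∈ D, F d = G d) (δ : ℝ) (hδ : δ ∈ Ioo (0:ℝ) 1)
    (hacc : AccPt δ (𝓟 D)) : ∀ d ∈ Ioo (0:ℝ) 1, f d = g d := by
  rw [accPt_iff_frequently] at hacc
  have hΦ : ∀ d ∈ Ioo (0:ℝ) 1, HasDerivAt (fun x => F x - G x) (f d * c - g d * c) d :=
    fun d hd => (hF d hd).sub (hG d hd)
  have hδ0 : F δ - G δ = 0 := by
    by_contra hne
    have h1 : ∀ᶠ y in 𝓝 δ, F y - G y ≠ 0 :=
      (hΦ δ hδ).continuousAt.eventually (isOpen_ne.mem_nhds hne)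
    obtain ⟨y, ⟨_, hyD⟩, hy⟩ := (hacc.and_eventually h1).exists
    exact hy (by rw [hD y hyD, sub_self])
  have hfreq : ∃ᶠ z in 𝓝[≠] δ, f z = g z := by
    intro hev
    rw [eventually_nhdsWithin_iff] at hev
    have h2 : ∀ᶠ z in 𝓝 δ, z ∈ Ioo (0:ℝ) 1 := isOpen_Ioo.mem_nhds hδ
    have h3 := hev.and h2
    rw [Metric.eventually_nhds_iff_ball] at h3
    obtain ⟨ε, hε, hball⟩ := h3
    obtain ⟨a, ⟨haδ, haD⟩, haε⟩ := (hacc.and_eventually (Metric.ball_mem_nhds δ hε)).exists
    have ha : |a - δ| < ε := by simpa [Real.dist_eq] using haε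
    have ha0 : F a - G a = 0 := by rw [hD a haD, sub_self]
    rw [abs_lt] at ha
    have hin : ∀ x, min a δ ≤ x → x ≤ max a δ → x ∈ Metric.ball δ ε := by
      intro x h1 h2
      rw [Metric.mem_ball, Real.dist_eq, abs_lt]
      rcases le_total a δ with h | h
      · rw [min_eq_left h] at h1; rw [max_eq_right h] at h2
        constructor <;> linarith
      · rw [min_eq_right h] at h1; rw [max_eq_left h] at h2
        constructor <;> linarith
    have hkey : ∃ z ∈ Ioo (min a δ) (max a δ), f z * c - g z * c = 0 := by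
      have hlt : min a δ < max a δ := by
        rw [min_lt_max]; exact haδ
      apply exists_hasDerivAt_eq_zero hlt (f := fun x => F x - G x)
      · intro x hx
        exact (hΦ x ((hball x (hin x hx.1 hx.2)).2)).continuousAt.continuousWithinAt
      · show F (min a δ) - G (min a δ) = F (max a δ) - G (max a δ)
        rcases le_total a δ with h | h
        · rw [min_eq_left h, max_eq_right h, ha0, hδ0]
        · rw [min_eq_right h, max_eq_left h, ha0, hδ0]
      · intro x hx
        exact hΦ x ((hball x (hin x hx.1.le hx.2.le)).2)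
    obtain ⟨z, hz, hz0⟩ := hkey
    have hzδ : z ≠ δ := by
      rintro rfl
      rcases le_total a z with h | h
      · rw [max_eq_right h] at hz; exact lt_irrefl _ hz.2
      · rw [min_eq_right h] at hz; exact lt_irrefl _ hz.1
    apply (hball z (hin z hz.1.le hz.2.le)).1 hzδ
    have : (f z - g z) * c = 0 := by linarith
    rcases mul_eq_zero.mp this with h | h
    · linarith
    · exact absurd h hc.ne'
  exact hf.eqOn_of_preconnected_of_frequently_eq hg isPreconnected_Ioo hδ hfreq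

theorem ATRANS_vol (A : Set E3) (g : E3) : volume.real ((fun x => x - g) '' A) = volume.real A := by
  have h1 : (fun x => x - g) '' A = (fun x => x + g) ⁻¹' A := by
    ext y
    constructor
    · rintro ⟨x, hx, rfl⟩
      show x - g + g ∈ A
      rw [sub_add_cancel]
      exact hx
    · intro hy
      exact ⟨y + g, hy, add_sub_cancel_right y g⟩
  unfold Measure.real
  rw [h1, measure_preimage_add_right]

theorem ATRANS_below (K : Set E3) (g u : E3) (s : ℝ) :
    below ((fun x => x - g) '' K) u s = (fun x => x - g) '' below K u (s + ⟪g, u⟫) := by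
  ext y
  constructor
  · rintro ⟨⟨x, hx, rfl⟩, hy⟩
    have hy' : ⟪x - g, u⟫ ≤ s := hy
    rw [inner_sub_left] at hy'
    refine ⟨x, ⟨hx, ?_⟩, rfl⟩
    show ⟪x, u⟫ ≤ s + ⟪g, u⟫
    linarith
  · rintro ⟨x, ⟨hx, hx2⟩, rfl⟩
    have hx3 : ⟪x, u⟫ ≤ s + ⟪g, u⟫ := hx2
    refine ⟨⟨x, hx, rfl⟩, ?_⟩
    show ⟪x - g, u⟫ ≤ s
    rw [inner_sub_left]
    linarith

theorem ATRANS_eq (K : Set E3) (g u : E3) (s : ℝ) :
    volume.real (below ((fun x => x - g) '' K) u s) = volume.real (below K u (s + ⟪g, u⟫)) := by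
  rw [ATRANS_below, ATRANS_vol]

lemma ATRANS (K : Set E3) (hK : IsCompact K) (g : E3) (hA : AnalyticCuts K) :
    AnalyticCuts ((fun x => x - g) '' K) := by
  intro u hu t h0 h1
  rw [ATRANS_eq] at h0 h1
  rw [ATRANS_vol] at h1
  have h2 := hA u hu (t + ⟪g, u⟫) h0 h1
  have h3 : AnalyticAt ℝ (fun s : ℝ => s + ⟪g, u⟫) t := analyticAt_id.add analyticAt_const
  have h4 : AnalyticAt ℝ ((fun s : ℝ => volume.real (below K u s)) ∘
      fun s : ℝ => s + ⟪g, u⟫) t :=
    AnalyticAt.comp (g := fun s : ℝ => volume.real (below K u s)) (f := fun s : ℝ => s + ⟪g, u⟫)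
      h2 h3
  have h5 : (fun s : ℝ => volume.real (below ((fun x => x - g) '' K) u s)) =
      fun s : ℝ => volume.real (below K u (s + ⟪g, u⟫)) := funext fun s => ATRANS_eq K g u s
  rw [h5]
  exact h4

/-- all levels constant implies ball (centroid at the origin) -/
theorem ALLC (K : Set E3) (hK : IsCompact K) (hconv : Convex ℝ K) (hint : (interior K).Nonempty)
    (hall : ∀ δ ∈ Ioo (0:ℝ) 1, ∀ u v : E3, ‖u‖ = 1 → ‖v‖ = 1 → ∀ t s : ℝ,
      volume.real (below K u t) = δ * volume.real K →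
      volume.real (below K v s) = δ * volume.real K → t = s) :
    ∃ r : ℝ, 0 < r ∧ K = Metric.closedBall (0:E3) r := by
  classical
  have hvol : 0 < volume.real K := by
    have h1 : 0 < volume (interior K) := isOpen_interior.measure_pos volume hint
    have h2 : 0 < volume K := h1.trans_le (measure_mono interior_subset)
    exact ENNReal.toReal_pos h2.ne' hK.measure_lt_top.ne
  obtain ⟨v, R, hv, hR, hB⟩ := SUPP K hK hconv (hint.mono interior_subset)
  set A : Set ℝ := Ioo (0:ℝ) 1 with hA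
  have hinf : A.Infinite := Ioo_infinite one_pos
  choose! lev hlev using fun (δ : ℝ) (hδ : δ ∈ A) => LEV K hK v hv δ hδ
  have hall' : ∀ δ ∈ A, ∀ u : E3, ‖u‖ = 1 →
      volume.real (below K u (lev δ)) = δ * volume.real K := by
    intro δ hδ u hu
    obtain ⟨t, ht⟩ := LEV K hK u hu δ hδ
    have := hall δ hδ u v hu hv t (lev δ) ht (hlev δ hδ)
    rw [← this]; exact ht
  have hin : ∀ δ ∈ A, lev δ ∈ Ioo (-R) R := fun δ hδ =>
    TAUI K hK hvol v R hv hR δ (lev δ) hδ (hall' δ hδ)
  have hinj : InjOn lev A := by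
    intro a ha b hb hab
    have h1 := hlev a ha
    have h2 := hlev b hb
    rw [hab, h2] at h1
    exact (mul_right_cancel₀ hvol.ne' h1).symm
  have hTinf : (lev '' A).Infinite := hinf.image hinj
  obtain ⟨δ0, hδ0⟩ := hinf.nonempty
  have hRpos : 0 < R := by
    have := hin δ0 hδ0
    linarith [this.1, this.2]
  have hcore := CORE K hK R hRpos (Metric.ball_subset_closedBall.trans hB) (lev '' A) hTinf
    (by rintro _ ⟨δ, hδ, rfl⟩; exact Ioo_subset_Icc_self (hin δ hδ))
    (by
      rintro _ ⟨δ, hδ, rfl⟩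
      refine ⟨δ * volume.real K, fun u hu => ?_⟩
      have hun : ‖(‖u‖⁻¹ • u)‖ = 1 := by
        rw [norm_smul, norm_inv, norm_norm, inv_mul_cancel₀ (norm_ne_zero_iff.mpr hu)]
      rw [← hall' δ hδ _ hun]
      congr 1
      ext x
      have hu' : 0 < ‖u‖ := norm_pos_iff.mpr hu
      simp only [below, mem_inter_iff, mem_setOf_eq, inner_smul_right]
      rw [inv_mul_le_iff₀ hu', mul_comm])
    R ⟨by linarith, le_rfl⟩
  exact ⟨R, hRpos, FINB K hK hconv hint v R hv hR hB hcore⟩

theorem ANA0 (K : Set E3) (hK : IsCompact K) (hconv : Convex ℝ K) (hint : (interior K).Nonempty)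
    (h0 : ∫ x in K, x = 0) (hA : AnalyticCuts K) (δ : ℝ) (hδ : δ ∈ Ioo (0:ℝ) 1)
    (hacc : AccPt δ (𝓟 (floatSet K))) :
    ∃ r : ℝ, 0 < r ∧ K = Metric.closedBall (0:E3) r := by
  classical
  have hvol : 0 < volume.real K := by
    have h1 : 0 < volume (interior K) := isOpen_interior.measure_pos volume hint
    have h2 : 0 < volume K := h1.trans_le (measure_mono interior_subset)
    exact ENNReal.toReal_pos h2.ne' hK.measure_lt_top.ne
  apply ALLC K hK hconv hint
  intro δ' hδ' u v hu hv t s ht hs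
  choose! T hT using fun (d : ℝ) (hd : d ∈ Ioo (0:ℝ) 1) => LEV K hK u hu d hd
  choose! S hS using fun (d : ℝ) (hd : d ∈ Ioo (0:ℝ) 1) => LEV K hK v hv d hd
  have key := ROLLE T S (fun d => ∫ x in below K u (T d), ⟪x, u⟫)
    (fun d => ∫ x in below K v (S d), ⟪x, v⟫) (volume.real K) hvol
    (fun d hd => FDER K hK hconv hint u hu T hT d hd)
    (fun d hd => FDER K hK hconv hint v hv S hS d hd)
    (TINV K hK hconv hint hA u hu T hT) (TINV K hK hconv hint hA v hv S hS)
    (floatSet K)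
    (fun d hd => by
      obtain ⟨m, hm⟩ := FC K hK hvol h0 d hd.1 hd.2
      show ∫ x in below K u (T d), ⟪x, u⟫ = ∫ x in below K v (S d), ⟪x, v⟫
      rw [hm u hu (T d) (hT d hd.1), hm v hv (S d) (hS d hd.1)])
    δ hδ hacc δ' hδ'
  have huniq : ∀ (w : E3), ‖w‖ = 1 → ∀ a b : ℝ, volume.real (below K w a) = δ' * volume.real K →
      volume.real (below K w b) = δ' * volume.real K → a = b := by
    have aux : ∀ (w : E3), ‖w‖ = 1 → ∀ a b : ℝ, volume.real (below K w a) = δ' * volume.real K →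
      volume.real (below K w b) = δ' * volume.real K → ¬ a < b := by
      intro w hw a b ha hb hab
      have := STRICT K hK hconv hint w hw a b hab
        (by rw [ha]; exact mul_pos hδ'.1 hvol) (by rw [ha]; nlinarith [hδ'.2])
      rw [ha, hb] at this
      exact lt_irrefl _ this
    intro w hw a b ha hb
    exact le_antisymm (not_lt.mp (aux w hw b a hb ha)) (not_lt.mp (aux w hw a b ha hb))
  rw [huniq u hu t (T δ') ht (hT δ' hδ'), huniq v hv s (S δ') hs (hS δ' hδ'), key]

lemma TRSETA (K : Set E3) (hK : IsCompact K) (hconv : Convex ℝ K) (hint : (interior K).Nonempty)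
    (hA : AnalyticCuts K) (δ : ℝ) (hδ : δ ∈ Ioo (0:ℝ) 1) (hacc : AccPt δ (𝓟 (floatSet K))) :
    ∃ (a : E3) (r : ℝ), 0 < r ∧ K = Metric.closedBall a r := by
  have hvol : 0 < volume.real K := by
    have h1 : 0 < volume (interior K) := isOpen_interior.measure_pos volume hint
    have h2 : 0 < volume K := h1.trans_le (measure_mono interior_subset)
    exact ENNReal.toReal_pos h2.ne' hK.measure_lt_top.ne
  set g : E3 := centroidOf K with hg
  set K' : Set E3 := (fun x => x - g) '' K with hK'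
  have hcont : Continuous (fun x : E3 => x - g) := continuous_id.sub continuous_const
  have hK'c : IsCompact K' := hK.image hcont
  have hK'e : K' = (Homeomorph.subRight g) '' K := rfl
  have hconv' : Convex ℝ K' := by
    have := hconv.translate (-g)
    have he : K' = (fun x => -g + x) '' K := by
      rw [hK']
      exact image_congr fun x _ => by abel
    rw [he]; exact this
  have hint' : (interior K').Nonempty := by
    rw [hK'e, ← Homeomorph.image_interior]
    exact hint.image _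
  have h0' : ∫ x in K', x = 0 := H0 K hK hvol
  have hsub : floatSet K ⊆ floatSet K' := fun d hd => ⟨hd.1, TRANS K hK g d hvol hd.1 hd.2⟩
  obtain ⟨r, hr, hKr⟩ := ANA0 K' hK'c hconv' hint' h0' (ATRANS K hK g hA) δ hδ
    (hacc.mono (principal_mono.mpr hsub))
  refine ⟨g, r, hr, ?_⟩
  ext x
  have : x ∈ K ↔ x - g ∈ K' := by
    constructor
    · intro hx; exact ⟨x, hx, rfl⟩
    · rintro ⟨y, hy, hyx⟩
      have : y = x := sub_left_injective hyx
      exact this ▸ hy
  rw [this, hKr]
  simp [Metric.mem_closedBall, dist_eq_norm]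

theorem resultA (K : Set E3) (hK : IsCompact K) (hconv : Convex ℝ K) (hint : (interior K).Nonempty)
    (hball : ¬ ∃ (a : E3) (r : ℝ), 0 < r ∧ K = Metric.closedBall a r) (hA : AnalyticCuts K) :
    (floatSet K).Finite := by
  by_contra hfin
  have hinf : (floatSet K).Infinite := hfin
  obtain ⟨-, -, ε, hε, hsub⟩ := result0 K hK hconv hint hball
  obtain ⟨δ, hδ, hacc⟩ := hinf.exists_accPt_of_subset_isCompact isCompact_Icc hsub
  exact hball (TRSETA K hK hconv hint hA δ ⟨lt_of_lt_of_le hε hδ.1, lt_of_le_of_lt hδ.2 (by linarith)⟩ hacc)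

end FB41
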