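import Pool.Agent.Helper41.FB.Defs
open MeasureTheory Set Filter Topology
open scoped RealInnerProductSpace

namespace FB41


lemma PE1_antideriv (q : Polynomial ℝ) : ∃ Q : Polynomial ℝ, Q.natDegree ≤ q.natDegree + 1 ∧
    Polynomial.derivative Q = q := by
  refine ⟨∑ n ∈ Finset.range (q.natDegree + 1), Polynomial.C (q.coeff n / ((n:ℝ) + 1)) *
    Polynomial.X ^ (n + 1), ?_, ?_⟩
  · refine Polynomial.natDegree_sum_le_of_forall_le _ _ fun n hn => ?_
    refine (Polynomial.natDegree_C_mul_X_pow_le _ _).trans ?_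
    have := Finset.mem_range.1 hn
    omega
  · rw [Polynomial.derivative_sum]
    conv_rhs => rw [q.as_sum_range_C_mul_X_pow]
    refine Finset.sum_congr rfl fun n _ => ?_
    rw [Polynomial.derivative_C_mul_X_pow]
    have h : (n:ℝ) + 1 ≠ 0 := by positivity
    congr 2
    push_cast
    field_simp

lemma PE1_deg (m i : ℕ) :
    ((Polynomial.X : Polynomial ℝ) ^ m * (1 - Polynomial.X ^ 2) ^ i).natDegree ≤ m + 2 * i := by
  refine Polynomial.natDegree_mul_le.trans ?_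
  have h1 : ((Polynomial.X : Polynomial ℝ) ^ m).natDegree ≤ m := Polynomial.natDegree_X_pow_le m
  have h2 : ((1 - Polynomial.X ^ 2 : Polynomial ℝ) ^ i).natDegree ≤ i * 2 := by
    refine Polynomial.natDegree_pow_le_of_le i ?_
    compute_degree
  omega

lemma PE1 (m i : ℕ) : ∃ P : Polynomial ℝ, P.natDegree ≤ m + 2 * i + 1 ∧
    ∀ s ∈ Icc (-1:ℝ) 1,
      ∫ p in {p : ℝ × ℝ | 0 < p.2 ∧ p.1 ≤ s * √(p.1^2 + p.2^2)},
        p.1^m * p.2^(2*i+1) * Real.exp (-(p.1^2+p.2^2)) = P.eval s := by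
  obtain ⟨Q, hQd, hQ⟩ := PE1_antideriv ((Polynomial.X : Polynomial ℝ) ^ m * (1 - Polynomial.X ^ 2) ^ i)
  have hQd' : Q.natDegree ≤ m + 2 * i + 1 := hQd.trans (by have := PE1_deg m i; omega)
  obtain ⟨c, hc⟩ : ∃ c : ℝ, c = ∫ r in Ioi (0:ℝ), r ^ (m + 2 * i + 2) * Real.exp (-r ^ 2) := ⟨_, rfl⟩
  refine ⟨Polynomial.C c * (Q - Polynomial.C (Q.eval (-1))), ?_, ?_⟩
  · refine (Polynomial.natDegree_C_mul_le _ _).trans ?_
    refine (Polynomial.natDegree_sub_le _ _).trans ?_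
    rw [Polynomial.natDegree_C]
    omega
  intro s hs
  have hmeas : MeasurableSet {p : ℝ × ℝ | 0 < p.2 ∧ p.1 ≤ s * √(p.1^2 + p.2^2)} := by
    refine (measurableSet_lt measurable_const measurable_snd).inter
      (measurableSet_le measurable_fst ?_)
    fun_prop
  have hB : MeasurableSet {θ : ℝ | 0 < Real.sin θ ∧ Real.cos θ ≤ s} :=
    (measurableSet_lt measurable_const Real.measurable_sin).inter
      (measurableSet_le Real.measurable_cos measurable_const)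
  rw [← integral_indicator hmeas, ← integral_comp_polarCoord_symm, polarCoord_target]
  have hcongr : ∫ p in Ioi (0:ℝ) ×ˢ Ioo (-Real.pi) Real.pi, p.1 •
      ({p : ℝ × ℝ | 0 < p.2 ∧ p.1 ≤ s * √(p.1^2 + p.2^2)}.indicator
        (fun p : ℝ × ℝ => p.1^m * p.2^(2*i+1) * Real.exp (-(p.1^2+p.2^2))) (polarCoord.symm p))
      = ∫ p in Ioi (0:ℝ) ×ˢ Ioo (-Real.pi) Real.pi,
        (p.1 ^ (m + 2 * i + 2) * Real.exp (-p.1 ^ 2)) *
        ({θ : ℝ | 0 < Real.sin θ ∧ Real.cos θ ≤ s}.indicator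
          (fun θ => Real.cos θ ^ m * Real.sin θ ^ (2 * i + 1)) p.2) := by
    refine setIntegral_congr_fun (measurableSet_Ioi.prod measurableSet_Ioo) ?_
    rintro ⟨r, θ⟩ ⟨hr, hθ⟩
    have hr0 : (0:ℝ) < r := hr
    simp only [polarCoord_symm_apply, smul_eq_mul]
    have hsq : (r * Real.cos θ) ^ 2 + (r * Real.sin θ) ^ 2 = r ^ 2 := by
      have := Real.sin_sq_add_cos_sq θ
      nlinarith [this]
    have hmem : ((r * Real.cos θ, r * Real.sin θ) : ℝ × ℝ) ∈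
        {p : ℝ × ℝ | 0 < p.2 ∧ p.1 ≤ s * √(p.1^2 + p.2^2)} ↔
        θ ∈ {θ : ℝ | 0 < Real.sin θ ∧ Real.cos θ ≤ s} := by
      show (0 < r * Real.sin θ ∧ r * Real.cos θ ≤ s * √((r * Real.cos θ) ^ 2 + (r * Real.sin θ) ^ 2)) ↔
        (0 < Real.sin θ ∧ Real.cos θ ≤ s)
      rw [hsq, Real.sqrt_sq hr0.le, mul_comm s r, mul_pos_iff_of_pos_left hr0,
        mul_le_mul_iff_right₀ hr0]
    by_cases h : θ ∈ {θ : ℝ | 0 < Real.sin θ ∧ Real.cos θ ≤ s}
    · rw [Set.indicator_of_mem (hmem.2 h), Set.indicator_of_mem h]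
      simp only
      rw [hsq]
      ring
    · rw [Set.indicator_of_notMem (fun h' => h (hmem.1 h')), Set.indicator_of_notMem h]
      simp
  rw [hcongr]
  rw [show (volume : Measure (ℝ × ℝ)) = volume.prod volume from rfl,
    setIntegral_prod_mul (fun r : ℝ => r ^ (m + 2 * i + 2) * Real.exp (-r ^ 2))
      ({θ : ℝ | 0 < Real.sin θ ∧ Real.cos θ ≤ s}.indicator
          (fun θ => Real.cos θ ^ m * Real.sin θ ^ (2 * i + 1))), ← hc, setIntegral_indicator hB]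
  have hs0 : 0 ≤ Real.arccos s := Real.arccos_nonneg s
  have hs1 : Real.arccos s ≤ Real.pi := Real.arccos_le_pi s
  have hcs : Real.cos (Real.arccos s) = s := Real.cos_arccos hs.1 hs.2
  have hset : (Ioo (-Real.pi) Real.pi ∩ {θ : ℝ | 0 < Real.sin θ ∧ Real.cos θ ≤ s} : Set ℝ)
      =ᵐ[volume] Ioc (Real.arccos s) Real.pi := by
    have hnull : ({Real.arccos s, Real.pi} : Set ℝ)ᶜ ∈ ae (volume : Measure ℝ) := by
      rw [compl_mem_ae_iff]
      exact (Set.toFinite _).measure_zero _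
    rw [Filter.eventuallyEq_set]
    filter_upwards [hnull] with θ hθ
    simp only [Set.mem_compl_iff, Set.mem_insert_iff, Set.mem_singleton_iff, not_or] at hθ
    constructor
    · rintro ⟨⟨h1, h2⟩, h3, h4⟩
      have hpos : 0 < θ := by
        by_contra hcon
        push Not at hcon
        have := Real.sin_nonpos_of_nonpos_of_neg_pi_le hcon h1.le
        have h3' : 0 < Real.sin θ := h3
        linarith
      refine ⟨lt_of_le_of_ne ?_ (Ne.symm hθ.1), h2.le⟩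
      by_contra hcon
      push Not at hcon
      have := Real.strictAntiOn_cos ⟨hpos.le, h2.le⟩ ⟨hs0, hs1⟩ hcon
      rw [hcs] at this
      have h4' : Real.cos θ ≤ s := h4
      linarith
    · rintro ⟨h1, h2⟩
      have h2' : θ < Real.pi := lt_of_le_of_ne h2 hθ.2
      have hpos : 0 < θ := lt_of_le_of_lt hs0 h1
      refine ⟨⟨by linarith [Real.pi_pos], h2'⟩, Real.sin_pos_of_pos_of_lt_pi hpos h2', ?_⟩
      have := Real.strictAntiOn_cos ⟨hs0, hs1⟩ ⟨hpos.le, h2⟩ h1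
      rw [hcs] at this
      exact this.le
  rw [setIntegral_congr_set hset, ← intervalIntegral.integral_of_le hs1]
  have hder : ∀ θ ∈ Set.uIcc (Real.arccos s) Real.pi, HasDerivAt (fun θ => -Q.eval (Real.cos θ))
      (Real.cos θ ^ m * Real.sin θ ^ (2 * i + 1)) θ := by
    intro θ _
    have h1 : HasDerivAt (fun θ => -Q.eval (Real.cos θ))
        (-((Polynomial.derivative Q).eval (Real.cos θ) * -Real.sin θ)) θ :=
      ((Q.hasDerivAt (Real.cos θ)).comp θ (Real.hasDerivAt_cos θ)).neg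
    refine h1.congr_deriv ?_
    rw [hQ]
    simp only [Polynomial.eval_mul, Polynomial.eval_pow, Polynomial.eval_X, Polynomial.eval_sub,
      Polynomial.eval_one]
    rw [← Real.sin_sq, ← pow_mul]
    ring
  rw [intervalIntegral.integral_eq_sub_of_hasDerivAt hder
    ((by fun_prop : Continuous fun θ : ℝ => Real.cos θ ^ m * Real.sin θ ^ (2 * i + 1)).intervalIntegrable _ _)]
  rw [Real.cos_pi, hcs]
  simp only [Polynomial.eval_mul, Polynomial.eval_C, Polynomial.eval_sub]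
  ring

lemma PE2_I1 (n : ℕ) : Integrable (fun x : ℝ => x ^ n * Real.exp (-(x^2))) := by
  have h := integrable_rpow_mul_exp_neg_mul_sq (b := 1) one_pos (s := (n:ℝ))
    (by have : (0:ℝ) ≤ n := Nat.cast_nonneg n
        linarith)
  refine h.congr (Eventually.of_forall fun x => ?_)
  simp [Real.rpow_natCast]

lemma PE2_I2 (m n : ℕ) :
    Integrable (fun p : ℝ × ℝ => p.1 ^ m * p.2 ^ n * Real.exp (-(p.1^2+p.2^2))) := by
  have h := (PE2_I1 m).mul_prod (PE2_I1 n)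
  refine h.congr (Eventually.of_forall fun p => ?_)
  show p.1 ^ m * Real.exp (-(p.1^2)) * (p.2 ^ n * Real.exp (-(p.2^2))) =
    p.1 ^ m * p.2 ^ n * Real.exp (-(p.1^2+p.2^2))
  rw [neg_add, Real.exp_add]; ring

lemma PE2_I2q (b c : ℝ) (j : ℕ) :
    Integrable (fun p : ℝ × ℝ => (b*p.1+c*p.2)^j * Real.exp (-(p.1^2+p.2^2))) := by
  have h : Integrable (fun p : ℝ × ℝ => ∑ i ∈ Finset.range (j+1),
      (b^i * c^(j-i) * (j.choose i : ℝ)) * (p.1^i * p.2^(j-i) * Real.exp (-(p.1^2+p.2^2)))) :=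
    integrable_finset_sum _ fun i _ => (PE2_I2 i (j-i)).const_mul _
  refine h.congr (Eventually.of_forall fun p => ?_)
  show ∑ i ∈ Finset.range (j+1),
      (b^i * c^(j-i) * (j.choose i : ℝ)) * (p.1^i * p.2^(j-i) * Real.exp (-(p.1^2+p.2^2))) =
    (b*p.1+c*p.2)^j * Real.exp (-(p.1^2+p.2^2))
  rw [add_pow, Finset.sum_mul]
  refine Finset.sum_congr rfl fun i _ => ?_
  rw [mul_pow, mul_pow]; ring

lemma PE2_I3 (b c : ℝ) (n j : ℕ) :
    Integrable (fun p : ℝ × (ℝ × ℝ) => p.1^n * (b*p.2.1+c*p.2.2)^j *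
      Real.exp (-(p.1^2+(p.2.1^2+p.2.2^2)))) := by
  have h := (PE2_I1 n).mul_prod (PE2_I2q b c j)
  refine h.congr (Eventually.of_forall fun p => ?_)
  show p.1 ^ n * Real.exp (-(p.1^2)) * ((b*p.2.1+c*p.2.2)^j * Real.exp (-(p.2.1^2+p.2.2^2))) =
    p.1^n * (b*p.2.1+c*p.2.2)^j * Real.exp (-(p.1^2+(p.2.1^2+p.2.2^2)))
  rw [neg_add (p.1^2), Real.exp_add]; ring

lemma PE2_odd (b c : ℝ) (j : ℕ) (hj : Odd j) :
    ∫ θ in Ioo (-Real.pi) Real.pi, (b*Real.cos θ + c*Real.sin θ)^j = 0 := by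
  rw [← integral_Ioc_eq_integral_Ioo, ← intervalIntegral.integral_of_le (by linarith [Real.pi_pos])]
  have hi : ∀ u v : ℝ, IntervalIntegrable (fun θ => (b*Real.cos θ+c*Real.sin θ)^j) volume u v :=
    fun u v => Continuous.intervalIntegrable (by fun_prop) u v
  rw [← intervalIntegral.integral_add_adjacent_intervals (hi (-Real.pi) 0) (hi 0 Real.pi)]
  have h : ∫ θ in (0:ℝ)..Real.pi, (b*Real.cos θ+c*Real.sin θ)^j =
      ∫ θ in (-Real.pi)..0, (b*Real.cos (θ + Real.pi)+c*Real.sin (θ + Real.pi))^j := by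
    rw [intervalIntegral.integral_comp_add_right (fun θ => (b*Real.cos θ+c*Real.sin θ)^j) Real.pi]
    simp
  rw [h]
  have h2 : ∀ θ : ℝ, (b*Real.cos (θ + Real.pi)+c*Real.sin (θ + Real.pi))^j =
      -(b*Real.cos θ+c*Real.sin θ)^j := by
    intro θ
    rw [Real.cos_add_pi, Real.sin_add_pi]
    have : b * -Real.cos θ + c * -Real.sin θ = -(b*Real.cos θ+c*Real.sin θ) := by ring
    rw [this, hj.neg_pow]
  simp only [h2, intervalIntegral.integral_neg]
  ring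

lemma PE2_key (b c : ℝ) (n j : ℕ) (s : ℝ) :
    ∫ p in {p : ℝ × (ℝ × ℝ) | p.1 ≤ s * √(p.1^2 + (p.2.1^2 + p.2.2^2))},
      p.1^n * (b*p.2.1+c*p.2.2)^j * Real.exp (-(p.1^2+(p.2.1^2+p.2.2^2))) =
    (∫ p in {p : ℝ × ℝ | 0 < p.2 ∧ p.1 ≤ s * √(p.1^2 + p.2^2)},
      p.1^n * p.2^(j+1) * Real.exp (-(p.1^2+p.2^2))) *
      ∫ θ in Ioo (-Real.pi) Real.pi, (b*Real.cos θ + c*Real.sin θ)^j := by
  have hS : MeasurableSet {p : ℝ × (ℝ × ℝ) | p.1 ≤ s * √(p.1^2 + (p.2.1^2 + p.2.2^2))} :=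
    measurableSet_le (by fun_prop) (by fun_prop)
  have hT : MeasurableSet {p : ℝ × ℝ | 0 < p.2 ∧ p.1 ≤ s * √(p.1^2 + p.2^2)} :=
    (measurableSet_lt measurable_const measurable_snd).inter
      (measurableSet_le (f := fun p : ℝ × ℝ => p.1) (g := fun p : ℝ × ℝ => s * √(p.1^2 + p.2^2))
        (by fun_prop) (by fun_prop))
  rw [← integral_indicator hS, ← integral_indicator hT]
  have h1 := integral_prod (μ := (volume : Measure ℝ)) (ν := (volume : Measure (ℝ × ℝ))) _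
    ((PE2_I3 b c n j).indicator hS)
  have h2 := integral_prod (μ := (volume : Measure ℝ)) (ν := (volume : Measure ℝ)) _
    ((PE2_I2 n (j+1)).indicator hT)
  refine h1.trans ?_
  refine Eq.trans ?_ (congrArg (fun t => t * ∫ θ in Ioo (-Real.pi) Real.pi,
    (b*Real.cos θ + c*Real.sin θ)^j) h2.symm)
  show _ = (∫ x : ℝ, ∫ y : ℝ, _) * _
  rw [← integral_mul_const]
  congr 1
  funext z
  rw [← integral_comp_polarCoord_symm]
  have h3 : ∫ y : ℝ, ({p : ℝ × ℝ | 0 < p.2 ∧ p.1 ≤ s * √(p.1^2 + p.2^2)}.indicator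
      (fun p : ℝ × ℝ => p.1^n * p.2^(j+1) * Real.exp (-(p.1^2+p.2^2)))) (z, y) =
      ∫ y in Ioi (0:ℝ), ({p : ℝ × ℝ | 0 < p.2 ∧ p.1 ≤ s * √(p.1^2 + p.2^2)}.indicator
      (fun p : ℝ × ℝ => p.1^n * p.2^(j+1) * Real.exp (-(p.1^2+p.2^2)))) (z, y) := by
    rw [← integral_indicator measurableSet_Ioi]
    congr 1
    funext y
    by_cases hy : y ∈ Ioi (0:ℝ)
    · rw [indicator_of_mem hy]
    · rw [indicator_of_notMem hy, indicator_of_notMem]
      intro h
      exact hy h.1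
  rw [h3]
  have h4 := setIntegral_prod_mul (μ := (volume : Measure ℝ)) (ν := (volume : Measure ℝ))
    (fun y : ℝ => ({p : ℝ × ℝ | 0 < p.2 ∧ p.1 ≤ s * √(p.1^2 + p.2^2)}.indicator
      (fun p : ℝ × ℝ => p.1^n * p.2^(j+1) * Real.exp (-(p.1^2+p.2^2)))) (z, y))
    (fun θ : ℝ => (b*Real.cos θ + c*Real.sin θ)^j) (Ioi (0:ℝ)) (Ioo (-Real.pi) Real.pi)
  refine Eq.trans ?_ h4
  show ∫ p in polarCoord.target, _ = ∫ p in polarCoord.target, _
  refine setIntegral_congr_fun polarCoord.open_target.measurableSet ?_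
  intro p hp
  have hp0 : 0 < p.1 := hp.1
  have hsq : (p.1 * Real.cos p.2)^2 + (p.1 * Real.sin p.2)^2 = p.1^2 := by
    have := Real.sin_sq_add_cos_sq p.2
    nlinarith [this]
  simp only [polarCoord_symm_apply, smul_eq_mul]
  by_cases hz : z ≤ s * √(z^2 + p.1^2)
  · rw [indicator_of_mem, indicator_of_mem]
    · simp only [hsq]
      have : b * (p.1 * Real.cos p.2) + c * (p.1 * Real.sin p.2) =
        p.1 * (b * Real.cos p.2 + c * Real.sin p.2) := by ring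
      rw [this, mul_pow]
      ring
    · exact ⟨hp0, hz⟩
    · show z ≤ s * √(z^2 + ((p.1 * Real.cos p.2)^2 + (p.1 * Real.sin p.2)^2))
      rw [hsq]; exact hz
  · rw [indicator_of_notMem, indicator_of_notMem]
    · ring
    · intro h; exact hz h.2
    · intro h
      apply hz
      have h' : z ≤ s * √(z^2 + ((p.1 * Real.cos p.2)^2 + (p.1 * Real.sin p.2)^2)) := h
      rwa [hsq] at h'

lemma PE2_one (b c : ℝ) (n j : ℕ) : ∃ P : Polynomial ℝ, P.natDegree ≤ n + j + 1 ∧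
    ∀ s ∈ Icc (-1:ℝ) 1,
      ∫ p in {p : ℝ × (ℝ × ℝ) | p.1 ≤ s * √(p.1^2 + (p.2.1^2 + p.2.2^2))},
        p.1^n * (b*p.2.1+c*p.2.2)^j * Real.exp (-(p.1^2+(p.2.1^2+p.2.2^2))) = P.eval s := by
  rcases Nat.even_or_odd j with hj | hj
  · obtain ⟨i, hi⟩ := hj
    obtain ⟨P, hP, hP2⟩ := PE1 n i
    refine ⟨Polynomial.C (∫ θ in Ioo (-Real.pi) Real.pi, (b*Real.cos θ + c*Real.sin θ)^j) * P,
      (Polynomial.natDegree_C_mul_le _ _).trans (by omega), ?_⟩
    intro s hs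
    rw [PE2_key, Polynomial.eval_mul, Polynomial.eval_C, ← hP2 s hs]
    have : j + 1 = 2 * i + 1 := by omega
    rw [this, mul_comm]
  · refine ⟨0, by simp, ?_⟩
    intro s hs
    rw [PE2_key, PE2_odd b c j hj]
    simp

lemma PE2 (a b c : ℝ) (k : ℕ) : ∃ P : Polynomial ℝ, P.natDegree ≤ k + 1 ∧
    ∀ s ∈ Icc (-1:ℝ) 1,
      ∫ p in {p : ℝ × (ℝ × ℝ) | p.1 ≤ s * √(p.1^2 + (p.2.1^2 + p.2.2^2))},
        (a * p.1 + (b * p.2.1 + c * p.2.2))^k *
          Real.exp (-(p.1^2 + (p.2.1^2 + p.2.2^2))) = P.eval s := by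
  choose P hP hP2 using fun m : ℕ => PE2_one b c m (k - m)
  refine ⟨∑ m ∈ Finset.range (k+1), Polynomial.C (a^m * (k.choose m : ℝ)) * P m, ?_, ?_⟩
  · refine Polynomial.natDegree_sum_le_of_forall_le _ _ fun m hm => ?_
    have hm' := Finset.mem_range.1 hm
    refine (Polynomial.natDegree_C_mul_le _ _).trans ((hP m).trans (by omega))
  · intro s hs
    rw [Polynomial.eval_finset_sum]
    have h1 : ∀ p : ℝ × (ℝ × ℝ), (a * p.1 + (b * p.2.1 + c * p.2.2))^k *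
          Real.exp (-(p.1^2 + (p.2.1^2 + p.2.2^2))) = ∑ m ∈ Finset.range (k+1),
          (a^m * (k.choose m : ℝ)) * (p.1^m * (b*p.2.1+c*p.2.2)^(k-m) *
            Real.exp (-(p.1^2+(p.2.1^2+p.2.2^2)))) := by
      intro p
      rw [add_pow, Finset.sum_mul]
      refine Finset.sum_congr rfl fun m _ => ?_
      rw [mul_pow]; ring
    simp only [h1]
    rw [integral_finset_sum _ (fun m _ => ((PE2_I3 b c m (k-m)).const_mul _).integrableOn)]
    refine Finset.sum_congr rfl fun m _ => ?_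
    rw [integral_const_mul, hP2 m s hs, Polynomial.eval_mul, Polynomial.eval_C]

/-- auxiliary coordinates -/
noncomputable def hz_Phi (b : OrthonormalBasis (Fin 3) ℝ E3) : E3 ≃ᵐ ℝ × (ℝ × ℝ) :=
  (b.measurableEquiv.trans ((MeasurableEquiv.toLp 2 (Fin 3 → ℝ)).symm.trans
    (MeasurableEquiv.piFinSuccAbove (fun _ : Fin 3 => ℝ) 0))).trans
    ((MeasurableEquiv.refl ℝ).prodCongr MeasurableEquiv.finTwoArrow)

lemma hz_Phi_mp (b : OrthonormalBasis (Fin 3) ℝ E3) : MeasurePreserving (hz_Phi b) volume volume := by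
  have h1 := b.measurePreserving_measurableEquiv
  have h2 := EuclideanSpace.volume_preserving_symm_measurableEquiv_toLp (Fin 3)
  have h3 := volume_preserving_piFinSuccAbove (fun _ : Fin 3 => ℝ) 0
  have h4 : MeasurePreserving ((MeasurableEquiv.refl ℝ).prodCongr
      (MeasurableEquiv.finTwoArrow (α := ℝ))) volume volume :=
    (MeasurePreserving.id (volume : Measure ℝ)).prod (volume_preserving_finTwoArrow ℝ)
  exact h4.comp (h3.comp (h2.comp h1))

lemma hz_Phi_apply (b : OrthonormalBasis (Fin 3) ℝ E3) (u : E3) :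
    hz_Phi b u = (b.repr u 0, (b.repr u 1, b.repr u 2)) := by
  rfl

lemma PE3 (v e : E3) (he : ‖e‖ = 1) (k : ℕ) : ∃ P : Polynomial ℝ, P.natDegree ≤ k + 1 ∧
    ∀ s ∈ Icc (-1:ℝ) 1,
      ∫ u in {u : E3 | ⟪e, u⟫ ≤ s * ‖u‖}, ⟪v, u⟫^k * Real.exp (-‖u‖^2) = P.eval s := by
  obtain ⟨b, hb⟩ := Orthonormal.exists_orthonormalBasis_extension_of_card_eq (𝕜 := ℝ) (E := E3)
    (ι := Fin 3) (by simp) (v := fun _ => e) (s := {0}) (by
      constructor
      · intro i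
        exact he
      · intro i j hij
        exact absurd (Subsingleton.elim i j) hij)
  have hb0 : b 0 = e := hb 0 rfl
  have hrepr : ∀ u : E3, ⟪e, u⟫ = b.repr u 0 := by
    intro u
    rw [OrthonormalBasis.repr_apply_apply, hb0]
  have hnorm : ∀ u : E3, ‖u‖^2 = (b.repr u 0)^2 + ((b.repr u 1)^2 + (b.repr u 2)^2) := by
    intro u
    rw [← b.repr.norm_map u, EuclideanSpace.real_norm_sq_eq, Fin.sum_univ_three]
    ring
  have hnorm' : ∀ u : E3, ‖u‖ = √((b.repr u 0)^2 + ((b.repr u 1)^2 + (b.repr u 2)^2)) := by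
    intro u
    rw [← hnorm, Real.sqrt_sq (norm_nonneg _)]
  have hin : ∀ u : E3, ⟪v, u⟫ = b.repr v 0 * b.repr u 0 + (b.repr v 1 * b.repr u 1 + b.repr v 2 * b.repr u 2) := by
    intro u
    rw [← b.repr.inner_map_map v u, PiLp.inner_apply, Fin.sum_univ_three]
    simp only [RCLike.inner_apply, conj_trivial]
    ring
  obtain ⟨P, hP, hPe⟩ := PE2 (b.repr v 0) (b.repr v 1) (b.repr v 2) k
  refine ⟨P, hP, ?_⟩
  intro s hs
  rw [← hPe s hs]
  have h := (hz_Phi_mp b).setIntegral_preimage_emb (hz_Phi b).measurableEmbedding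
    (fun p : ℝ × (ℝ × ℝ) => (b.repr v 0 * p.1 + (b.repr v 1 * p.2.1 + b.repr v 2 * p.2.2))^k *
          Real.exp (-(p.1^2 + (p.2.1^2 + p.2.2^2))))
    {p : ℝ × (ℝ × ℝ) | p.1 ≤ s * √(p.1^2 + (p.2.1^2 + p.2.2^2))}
  rw [← h]
  have hset : (hz_Phi b) ⁻¹' {p : ℝ × (ℝ × ℝ) | p.1 ≤ s * √(p.1^2 + (p.2.1^2 + p.2.2^2))}
      = {u : E3 | ⟪e, u⟫ ≤ s * ‖u‖} := by
    ext u
    show b.repr u 0 ≤ s * √((b.repr u 0)^2 + ((b.repr u 1)^2 + (b.repr u 2)^2)) ↔ ⟪e, u⟫ ≤ s * ‖u‖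
    rw [hrepr, hnorm']
  rw [hset]
  congr 1
  funext u
  rw [hin u, hnorm u, hz_Phi_apply]

lemma PE4 (v x : E3) (R : ℝ) (hR : 0 < R) (hx : R ≤ ‖x‖) (k : ℕ) :
    ∃ P : Polynomial ℝ, P.natDegree ≤ k + 1 ∧ ∀ t ∈ Icc (-R) R,
      ∫ u in {u : E3 | ⟪x, u⟫ ≤ t * ‖u‖}, ⟪v, u⟫^k * Real.exp (-‖u‖^2) = P.eval t := by
  have hx0 : 0 < ‖x‖ := lt_of_lt_of_le hR hx
  have he : ‖(‖x‖⁻¹ • x : E3)‖ = 1 := by
    rw [norm_smul, norm_inv, norm_norm, inv_mul_cancel₀ hx0.ne']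
  obtain ⟨P, hPdeg, hP⟩ := PE3 v (‖x‖⁻¹ • x) he k
  refine ⟨P.comp (Polynomial.C (‖x‖⁻¹) * Polynomial.X), ?_, ?_⟩
  · calc (P.comp (Polynomial.C (‖x‖⁻¹) * Polynomial.X)).natDegree
        ≤ P.natDegree * (Polynomial.C (‖x‖⁻¹) * Polynomial.X).natDegree :=
          Polynomial.natDegree_comp_le
      _ ≤ P.natDegree * 1 := by
          apply Nat.mul_le_mul_left
          exact (Polynomial.natDegree_C_mul_le _ _).trans Polynomial.natDegree_X_le
      _ ≤ k + 1 := by rw [mul_one]; exact hPdeg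
  · intro t ht
    have hs : ‖x‖⁻¹ * t ∈ Icc (-1:ℝ) 1 := by
      have habs : |t| ≤ ‖x‖ := (abs_le.mpr ⟨ht.1, ht.2⟩).trans hx
      have h1 : |‖x‖⁻¹ * t| ≤ 1 := by
        rw [abs_mul, abs_of_pos (inv_pos.mpr hx0)]
        calc ‖x‖⁻¹ * |t| ≤ ‖x‖⁻¹ * ‖x‖ := mul_le_mul_of_nonneg_left habs (inv_pos.mpr hx0).le
          _ = 1 := inv_mul_cancel₀ hx0.ne'
      exact ⟨(abs_le.mp h1).1, (abs_le.mp h1).2⟩
    have hset : {u : E3 | ⟪x, u⟫ ≤ t * ‖u‖} =
        {u : E3 | ⟪(‖x‖⁻¹ • x : E3), u⟫ ≤ (‖x‖⁻¹ * t) * ‖u‖} := by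
      ext u
      simp only [mem_setOf_eq]
      rw [real_inner_smul_left, mul_assoc, mul_le_mul_iff_right₀ (inv_pos.mpr hx0)]
    rw [hset, hP _ hs, Polynomial.eval_comp]
    simp

lemma PE5_int (v : E3) (k : ℕ) : Integrable (fun u : E3 => ⟪v, u⟫^k * Real.exp (-‖u‖^2)) := by
  have h1 : ∀ c : ℝ, Integrable (fun u : E3 => Real.exp (-‖u‖^2 + c * ⟪v,u⟫)) := by
    intro c
    have := (GaussianFourier.integrable_cexp_neg_mul_sq_norm_add (V := E3) (b := 1) (by simp) (c:ℂ) v).norm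
    refine this.congr (ae_of_all _ fun u => ?_)
    simp only [Complex.norm_exp]
    congr 1
    have : (-1 * (‖u‖ : ℂ)^2 + (c : ℂ) * ((⟪v,u⟫ : ℝ) : ℂ)) = ((-‖u‖^2 + c * ⟪v,u⟫ : ℝ) : ℂ) := by
      push_cast; ring
    rw [this, Complex.ofReal_re]
  have h2 := ((h1 1).add (h1 (-1))).const_mul (k.factorial : ℝ)
  refine h2.mono' ?_ (ae_of_all _ fun u => ?_)
  · apply Continuous.aestronglyMeasurable
    fun_prop
  · rw [norm_mul, norm_pow, Real.norm_eq_abs, Real.norm_eq_abs, Real.abs_exp]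
    simp only [Pi.add_apply]
    have h3 := Real.pow_div_factorial_le_exp |(⟪v,u⟫ : ℝ)| (abs_nonneg _) k
    have hk : (0:ℝ) < k.factorial := by exact_mod_cast k.factorial_pos
    rw [div_le_iff₀ hk] at h3
    have h4 : Real.exp |(⟪v,u⟫ : ℝ)| ≤ Real.exp (⟪v,u⟫ : ℝ) + Real.exp (-(⟪v,u⟫ : ℝ)) := by
      rcases abs_cases (⟪v,u⟫ : ℝ) with h | h
      · rw [h.1]; linarith [Real.exp_pos (-(⟪v,u⟫ : ℝ))]
      · rw [h.1]; linarith [Real.exp_pos ((⟪v,u⟫ : ℝ))]
    rw [Real.exp_add, Real.exp_add, one_mul, neg_one_mul]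
    have h5 := Real.exp_pos (-‖u‖^2)
    calc |(⟪v,u⟫ : ℝ)| ^ k * Real.exp (-‖u‖^2)
        ≤ (Real.exp |(⟪v,u⟫ : ℝ)| * k.factorial) * Real.exp (-‖u‖^2) :=
          mul_le_mul_of_nonneg_right h3 h5.le
      _ ≤ ((Real.exp (⟪v,u⟫ : ℝ) + Real.exp (-(⟪v,u⟫ : ℝ))) * k.factorial) * Real.exp (-‖u‖^2) := by
          gcongr
      _ = _ := by ring

lemma PE5_sm (t : ℝ) (f : E3 → ℝ) (hf : Continuous f) :
    StronglyMeasurable (fun x : E3 => ∫ u in {u : E3 | ⟪x, u⟫ ≤ t * ‖u‖}, f u) := by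
  have hS : MeasurableSet {p : E3 × E3 | (⟪p.1, p.2⟫ : ℝ) ≤ t * ‖p.2‖} := by
    apply IsClosed.measurableSet
    exact isClosed_le (by fun_prop) (by fun_prop)
  have h1 : StronglyMeasurable (fun p : E3 × E3 => ({p : E3 × E3 | (⟪p.1, p.2⟫ : ℝ) ≤ t * ‖p.2‖}).indicator
      (fun p => f p.2) p) :=
    (hf.comp continuous_snd).stronglyMeasurable.indicator hS
  have h2 := h1.integral_prod_right' (ν := (volume : Measure E3))
  refine (congrArg StronglyMeasurable ?_).mpr h2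
  funext x
  have hSx : MeasurableSet {u : E3 | (⟪x, u⟫ : ℝ) ≤ t * ‖u‖} := by
    apply IsClosed.measurableSet
    exact isClosed_le (by fun_prop) (by fun_prop)
  rw [← integral_indicator hSx]
  rfl

lemma PE5_on (C : Set E3) (hCb : Bornology.IsBounded C) (v : E3) (k : ℕ) (t : ℝ) :
    IntegrableOn (fun x : E3 => ∫ u in {u : E3 | ⟪x, u⟫ ≤ t * ‖u‖}, ⟪v, u⟫^k * Real.exp (-‖u‖^2)) C := by
  have hint := PE5_int v k
  refine Measure.integrableOn_of_bounded (M := ∫ u : E3, ‖(⟪v, u⟫ : ℝ)^k * Real.exp (-‖u‖^2)‖)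
    hCb.measure_lt_top.ne ?_ (ae_of_all _ fun x => ?_)
  · exact (PE5_sm t (fun u => ⟪v, u⟫^k * Real.exp (-‖u‖^2)) (by fun_prop)).aestronglyMeasurable
  · refine (norm_integral_le_integral_norm _).trans ?_
    exact setIntegral_le_integral hint.norm (ae_of_all _ fun u => norm_nonneg _)

lemma PE5 (C : Set E3) (hC : MeasurableSet C) (hCb : Bornology.IsBounded C) (R : ℝ) (hR : 0 < R)
    (hCR : ∀ x ∈ C, R ≤ ‖x‖) (v : E3) (k : ℕ) :
    ∃ P : Polynomial ℝ, ∀ t ∈ Icc (-R) R,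
      ∫ x in C, (∫ u in {u : E3 | ⟪x, u⟫ ≤ t * ‖u‖}, ⟪v, u⟫^k * Real.exp (-‖u‖^2)) = P.eval t := by
  let E : E3 → ℝ → ℝ := fun x t => ∫ u in {u : E3 | ⟪x, u⟫ ≤ t * ‖u‖}, ⟪v, u⟫^k * Real.exp (-‖u‖^2)
  let nd : Fin (k + 2) → ℝ := fun j => R * ((j : ℕ) : ℝ) / ((k : ℝ) + 1)
  have hk1 : (0:ℝ) < (k : ℝ) + 1 := by positivity
  have hinj : Set.InjOn nd ((Finset.univ : Finset (Fin (k+2))) : Set (Fin (k+2))) := by
    intro i _ j _ hij
    simp only [nd] at hij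
    rw [div_left_inj' hk1.ne'] at hij
    have := mul_left_cancel₀ hR.ne' hij
    exact Fin.ext (by exact_mod_cast this)
  have hmem : ∀ j, nd j ∈ Icc (-R) R := by
    intro j
    have hj : ((j : ℕ) : ℝ) ≤ (k : ℝ) + 1 := by
      have := j.2
      have : (j : ℕ) ≤ k + 1 := by omega
      exact_mod_cast this
    have hj0 : (0:ℝ) ≤ ((j : ℕ) : ℝ) := Nat.cast_nonneg _
    constructor
    · have : 0 ≤ nd j := by simp only [nd]; positivity
      linarith
    · simp only [nd]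
      rw [div_le_iff₀ hk1]
      exact mul_le_mul_of_nonneg_left hj hR.le
  have hEx : ∀ x ∈ C, ∀ t ∈ Icc (-R) R, E x t =
      ∑ j : Fin (k+2), E x (nd j) * (Lagrange.basis Finset.univ nd j).eval t := by
    intro x hx t ht
    obtain ⟨P, hP, hPe⟩ := PE4 v x R hR (hCR x hx) k
    have hdeg : P.degree < ((Finset.univ : Finset (Fin (k+2))).card : WithBot ℕ) := by
      rw [Finset.card_univ, Fintype.card_fin]
      refine lt_of_le_of_lt Polynomial.degree_le_natDegree ?_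
      exact_mod_cast (by omega : P.natDegree < k + 2)
    have h1 := Lagrange.eq_interpolate_of_eval_eq (s := Finset.univ) (v := nd) (f := P)
      (fun j => E x (nd j)) hinj hdeg (fun j _ => (hPe (nd j) (hmem j)).symm)
    have h2 : E x t = P.eval t := hPe t ht
    rw [h2, h1, Lagrange.interpolate_apply, Polynomial.eval_finsetSum]
    refine Finset.sum_congr rfl fun j _ => ?_
    rw [Polynomial.eval_mul, Polynomial.eval_C]
  refine ⟨∑ j : Fin (k+2), Polynomial.C (∫ x in C, E x (nd j)) * Lagrange.basis Finset.univ nd j, ?_⟩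
  intro t ht
  have h1 : ∫ x in C, E x t = ∫ x in C, ∑ j : Fin (k+2), E x (nd j) * (Lagrange.basis Finset.univ nd j).eval t :=
    setIntegral_congr_fun hC (fun x hx => hEx x hx t ht)
  change ∫ x in C, E x t = _
  rw [h1, integral_finsetSum, Polynomial.eval_finsetSum]
  · refine Finset.sum_congr rfl fun j _ => ?_
    rw [integral_mul_const, Polynomial.eval_mul, Polynomial.eval_C]
  · intro j _
    exact (PE5_on C hCb v k (nd j)).mul_const _

lemma FU_gauss : Integrable (fun u : E3 => Real.exp (-‖u‖^2 / 2)) := by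
  have h := GaussianFourier.integrable_cexp_neg_mul_sq_norm_add (b := (1/2 : ℂ)) (by norm_num) 0 (0 : E3)
  have h2 := h.re
  refine h2.congr (Filter.Eventually.of_forall fun u => ?_)
  simp only [zero_mul, add_zero]
  have : (-(1/2 : ℂ) * (‖u‖:ℂ) ^ 2) = ((-‖u‖^2/2 : ℝ) : ℂ) := by push_cast; ring
  rw [this, ← Complex.ofReal_exp]
  exact Complex.ofReal_re _

lemma FU_int (v : E3) (k : ℕ) : Integrable (fun u : E3 => ⟪v, u⟫^k * Real.exp (-‖u‖^2)) := by
  have hb : Integrable (fun u : E3 => (‖v‖^k * (1 + 2^k * (k.factorial : ℝ))) * Real.exp (-‖u‖^2 / 2)) :=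
    FU_gauss.const_mul _
  refine hb.mono (by fun_prop) (Filter.Eventually.of_forall fun u => ?_)
  rw [Real.norm_eq_abs, Real.norm_eq_abs, abs_mul, abs_pow, abs_of_pos (Real.exp_pos _),
    abs_of_nonneg (show 0 ≤ (‖v‖^k * (1 + 2^k * (k.factorial : ℝ))) * Real.exp (-‖u‖^2 / 2) by positivity)]
  have h1 : |⟪v, u⟫| ^ k ≤ ‖v‖^k * ‖u‖^k := by
    rw [← mul_pow]
    exact pow_le_pow_left₀ (abs_nonneg _) (abs_real_inner_le_norm v u) k
  have h2 : ‖u‖^k * Real.exp (-‖u‖^2) ≤ (1 + 2^k * (k.factorial : ℝ)) * Real.exp (-‖u‖^2 / 2) := by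
    have h3 := Real.pow_div_factorial_le_exp (‖u‖^2/2) (by positivity) k
    have hf : (0:ℝ) < k.factorial := by exact_mod_cast k.factorial_pos
    rw [div_le_iff₀ hf] at h3
    have h4 : ‖u‖^k ≤ 1 + 2^k * (k.factorial : ℝ) * Real.exp (‖u‖^2/2) := by
      have h5 : ‖u‖^k ≤ 1 + (‖u‖^2)^k := by
        rw [← pow_mul, mul_comm 2 k, pow_mul]
        nlinarith [sq_nonneg (‖u‖^k - 1), pow_nonneg (norm_nonneg u) k]
      have h6 : (‖u‖^2)^k = 2^k * (‖u‖^2/2)^k := by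
        rw [← mul_pow]; congr 1; ring
      rw [h6] at h5
      have h7 := mul_le_mul_of_nonneg_left h3 (show (0:ℝ) ≤ 2^k by positivity)
      linarith
    have h8 : Real.exp (-‖u‖^2) = Real.exp (-‖u‖^2/2) * Real.exp (-‖u‖^2/2) := by
      rw [← Real.exp_add]; congr 1; ring
    have h9 : Real.exp (‖u‖^2/2) * Real.exp (-‖u‖^2/2) = 1 := by
      rw [← Real.exp_add]; 
      have : ‖u‖^2/2 + -‖u‖^2/2 = 0 := by ring
      rw [this, Real.exp_zero]
    have h10 : Real.exp (-‖u‖^2/2) ≤ 1 := by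
      rw [Real.exp_le_one_iff]
      have := sq_nonneg ‖u‖
      linarith
    have hE : 0 < Real.exp (-‖u‖^2/2) := Real.exp_pos _
    calc ‖u‖^k * Real.exp (-‖u‖^2) = (‖u‖^k * Real.exp (-‖u‖^2/2)) * Real.exp (-‖u‖^2/2) := by rw [h8]; ring
      _ ≤ (1 + 2^k * (k.factorial : ℝ)) * Real.exp (-‖u‖^2 / 2) := by
          refine mul_le_mul_of_nonneg_right ?_ hE.le
          calc ‖u‖^k * Real.exp (-‖u‖^2/2)
              ≤ (1 + 2^k * (k.factorial : ℝ) * Real.exp (‖u‖^2/2)) * Real.exp (-‖u‖^2/2) :=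
                mul_le_mul_of_nonneg_right h4 hE.le
            _ = Real.exp (-‖u‖^2/2) + 2^k * (k.factorial : ℝ) * (Real.exp (‖u‖^2/2) * Real.exp (-‖u‖^2/2)) := by ring
            _ ≤ 1 + 2^k * (k.factorial : ℝ) := by rw [h9]; linarith
  calc |⟪v, u⟫| ^ k * Real.exp (-‖u‖^2) ≤ (‖v‖^k * ‖u‖^k) * Real.exp (-‖u‖^2) :=
        mul_le_mul_of_nonneg_right h1 (Real.exp_pos _).le
    _ = ‖v‖^k * (‖u‖^k * Real.exp (-‖u‖^2)) := by ring
    _ ≤ ‖v‖^k * ((1 + 2^k * (k.factorial : ℝ)) * Real.exp (-‖u‖^2 / 2)) :=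
        mul_le_mul_of_nonneg_left h2 (by positivity)
    _ = (‖v‖^k * (1 + 2^k * (k.factorial : ℝ))) * Real.exp (-‖u‖^2 / 2) := by ring

lemma FU (K : Set E3) (hK : MeasurableSet K) (hKb : Bornology.IsBounded K) (t : ℝ) (v : E3)
    (k : ℕ) :
    ∫ x in K, (∫ u in {u : E3 | ⟪x, u⟫ ≤ t * ‖u‖}, ⟪v, u⟫^k * Real.exp (-‖u‖^2)) =
      ∫ u, ⟪v, u⟫^k * Real.exp (-‖u‖^2) * volume.real (K ∩ {x : E3 | ⟪x, u⟫ ≤ t * ‖u‖}) := by
  haveI : IsFiniteMeasure (volume.restrict K) := ⟨by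
    rw [Measure.restrict_apply_univ]
    exact hKb.measure_lt_top⟩
  set g : E3 → ℝ := fun u => ⟪v, u⟫^k * Real.exp (-‖u‖^2) with hg
  have hgi : Integrable g := FU_int v k
  set D : Set (E3 × E3) := {p | ⟪p.1, p.2⟫ ≤ t * ‖p.2‖} with hD
  have hDm : MeasurableSet D := (isClosed_le (by fun_prop) (by fun_prop)).measurableSet
  have hint : Integrable (D.indicator (fun p : E3 × E3 => g p.2)) ((volume.restrict K).prod volume) :=
    (hgi.comp_snd (volume.restrict K)).indicator hDm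
  have h1 : ∫ x in K, (∫ u in {u : E3 | ⟪x, u⟫ ≤ t * ‖u‖}, g u)
      = ∫ x in K, ∫ u, D.indicator (fun p : E3 × E3 => g p.2) (x, u) := by
    refine integral_congr_ae (Filter.Eventually.of_forall fun x => ?_)
    simp only
    rw [← integral_indicator (isClosed_le (by fun_prop) (by fun_prop)).measurableSet]
    rfl
  rw [h1, integral_integral_swap (f := fun x u => D.indicator (fun p : E3 × E3 => g p.2) (x, u)) hint]
  refine integral_congr_ae (Filter.Eventually.of_forall fun u => ?_)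
  simp only
  have h2 : (fun x : E3 => D.indicator (fun p : E3 × E3 => g p.2) (x, u))
      = {x : E3 | ⟪x, u⟫ ≤ t * ‖u‖}.indicator (fun _ => g u) := by
    funext x
    rfl
  have hm : MeasurableSet {x : E3 | ⟪x, u⟫ ≤ t * ‖u‖} :=
    (isClosed_le (by fun_prop) (by fun_prop)).measurableSet
  rw [h2, integral_indicator hm, setIntegral_const, smul_eq_mul, mul_comm]
  congr 1
  rw [measureReal_def, measureReal_def, Measure.restrict_apply hm, inter_comm]

lemma BALL (R t : ℝ) (u w : E3) (hu : u ≠ 0) (hw : w ≠ 0) :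
    volume.real (Metric.ball (0:E3) R ∩ {x : E3 | ⟪x, u⟫ ≤ t * ‖u‖}) =
      volume.real (Metric.ball (0:E3) R ∩ {x : E3 | ⟪x, w⟫ ≤ t * ‖w‖}) := by
  have hu0 : 0 < ‖u‖ := norm_pos_iff.2 hu
  have hw0 : 0 < ‖w‖ := norm_pos_iff.2 hw
  obtain ⟨u1, hu1⟩ : ∃ u1 : E3, u1 = ‖u‖⁻¹ • u := ⟨_, rfl⟩
  obtain ⟨w1, hw1⟩ : ∃ w1 : E3, w1 = ‖w‖⁻¹ • w := ⟨_, rfl⟩
  have hun : ‖u1‖ = 1 := by
    rw [hu1, norm_smul, norm_inv, norm_norm, inv_mul_cancel₀ hu0.ne']
  have hwn : ‖w1‖ = 1 := by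
    rw [hw1, norm_smul, norm_inv, norm_norm, inv_mul_cancel₀ hw0.ne']
  obtain ⟨L, hL⟩ : ∃ L : E3 ≃ₗᵢ[ℝ] E3, L u1 = w1 :=
    ⟨(ℝ ∙ (u1 - w1))ᗮ.reflection, Submodule.reflection_sub (by rw [hun, hwn])⟩
  have huu : u = ‖u‖ • u1 := by
    rw [hu1, smul_smul, mul_inv_cancel₀ hu0.ne', one_smul]
  have hww : w = ‖w‖ • w1 := by
    rw [hw1, smul_smul, mul_inv_cancel₀ hw0.ne', one_smul]
  have hpre : Metric.ball (0:E3) R ∩ {x : E3 | ⟪x, u⟫ ≤ t * ‖u‖} =
      L ⁻¹' (Metric.ball (0:E3) R ∩ {x : E3 | ⟪x, w⟫ ≤ t * ‖w‖}) := by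
    ext x
    have h1 : ⟪L x, w⟫ = ‖w‖ * ⟪x, u1⟫ := by
      have h2 : ⟪L x, L u1⟫ = ⟪x, u1⟫ := LinearIsometryEquiv.inner_map_map L x u1
      rw [← h2, hL]
      conv_lhs => rw [hww]
      rw [inner_smul_right]
    have h3 : ⟪x, u⟫ = ‖u‖ * ⟪x, u1⟫ := by
      conv_lhs => rw [huu]
      rw [inner_smul_right]
    have h4 : ‖L x‖ = ‖x‖ := L.norm_map x
    constructor
    · rintro ⟨ha, hb⟩
      refine ⟨?_, ?_⟩
      · rw [mem_ball_zero_iff] at ha ⊢
        rw [h4]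
        exact ha
      · show ⟪L x, w⟫ ≤ t * ‖w‖
        have hb' : ⟪x, u⟫ ≤ t * ‖u‖ := hb
        rw [h3] at hb'
        rw [h1]
        have h5 : ⟪x, u1⟫ ≤ t := by
          by_contra hcon
          push Not at hcon
          nlinarith
        nlinarith
    · rintro ⟨ha, hb⟩
      refine ⟨?_, ?_⟩
      · rw [mem_ball_zero_iff] at ha ⊢
        rw [h4] at ha
        exact ha
      · show ⟪x, u⟫ ≤ t * ‖u‖
        have hb' : ⟪L x, w⟫ ≤ t * ‖w‖ := hb
        rw [h1] at hb'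
        rw [h3]
        have h5 : ⟪x, u1⟫ ≤ t := by
          by_contra hcon
          push Not at hcon
          nlinarith
        nlinarith
  have hmeas : MeasurableSet (Metric.ball (0:E3) R ∩ {x : E3 | ⟪x, w⟫ ≤ t * ‖w‖}) :=
    Metric.isOpen_ball.measurableSet.inter
      (isClosed_le (by fun_prop) continuous_const).measurableSet
  rw [hpre]
  unfold Measure.real
  rw [(LinearIsometryEquiv.measurePreserving L).measure_preimage hmeas.nullMeasurableSet]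

lemma WMEAS (K : Set E3) (hK : IsCompact K) (t : ℝ) :
    Measurable fun u : E3 => volume.real (K ∩ {x : E3 | ⟪x, u⟫ ≤ t * ‖u‖}) := by
  have hS : MeasurableSet {p : E3 × E3 | p.2 ∈ K ∧ ⟪p.2, p.1⟫ ≤ t * ‖p.1‖} := by
    apply IsClosed.measurableSet
    have h1 : IsClosed {p : E3 × E3 | p.2 ∈ K} := hK.isClosed.preimage continuous_snd
    have h2 : IsClosed {p : E3 × E3 | ⟪p.2, p.1⟫ ≤ t * ‖p.1‖} :=
      isClosed_le (by fun_prop) (by fun_prop)
    exact h1.inter h2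
  have h := measurable_measure_prodMk_left (ν := (volume : Measure E3)) hS
  exact h.ennreal_toReal

lemma hk_int0 : Integrable (fun u : E3 => Real.exp (-(1/2) * ‖u‖^2)) := by
  have h := (GaussianFourier.integrable_cexp_neg_mul_sq_norm_add (V := E3)
    (b := (1/2 : ℂ)) (by norm_num) 0 0).norm
  refine h.congr (Filter.Eventually.of_forall fun u => ?_)
  simp only [Complex.norm_exp]
  congr 1
  have : (-(1/2 : ℂ) * (‖u‖ : ℂ)^2 + 0 * ((⟪(0:E3), u⟫ : ℝ) : ℂ)) = ((-(1/2) * ‖u‖^2 : ℝ) : ℂ) := by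
    push_cast; ring
  rw [this, Complex.ofReal_re]

lemma hk_int (v : E3) (k : ℕ) : Integrable (fun u : E3 => ⟪v, u⟫^k * Real.exp (-‖u‖^2)) := by
  have hmeas : AEStronglyMeasurable (fun u : E3 => ⟪v, u⟫^k * Real.exp (-‖u‖^2)) volume := by
    apply Continuous.aestronglyMeasurable
    fun_prop
  refine (hk_int0.const_mul (‖v‖^k * (k.factorial : ℝ) * Real.exp (1/2))).mono' hmeas
    (Filter.Eventually.of_forall fun u => ?_)
  rw [norm_mul, norm_pow, Real.norm_eq_abs, Real.norm_eq_abs, Real.abs_exp]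
  have h1 : |⟪v, u⟫|^k ≤ ‖v‖^k * ‖u‖^k := by
    rw [← mul_pow]
    exact pow_le_pow_left₀ (abs_nonneg _) (abs_real_inner_le_norm v u) k
  have h2 : ‖u‖^k ≤ (k.factorial : ℝ) * Real.exp ‖u‖ := by
    have := Real.pow_div_factorial_le_exp ‖u‖ (norm_nonneg u) k
    rw [div_le_iff₀ (by positivity)] at this
    linarith
  have h3 : Real.exp ‖u‖ * Real.exp (-‖u‖^2) ≤ Real.exp (1/2) * Real.exp (-(1/2) * ‖u‖^2) := by
    rw [← Real.exp_add, ← Real.exp_add]
    apply Real.exp_le_exp.2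
    nlinarith [sq_nonneg (‖u‖ - 1)]
  calc |⟪v, u⟫|^k * Real.exp (-‖u‖^2) ≤ (‖v‖^k * ‖u‖^k) * Real.exp (-‖u‖^2) := by gcongr
    _ ≤ (‖v‖^k * ((k.factorial : ℝ) * Real.exp ‖u‖)) * Real.exp (-‖u‖^2) := by gcongr
    _ = ‖v‖^k * (k.factorial : ℝ) * (Real.exp ‖u‖ * Real.exp (-‖u‖^2)) := by ring
    _ ≤ ‖v‖^k * (k.factorial : ℝ) * (Real.exp (1/2) * Real.exp (-(1/2) * ‖u‖^2)) := by gcongr
    _ = _ := by ring

lemma hk_intW (K : Set E3) (hK : IsCompact K) (v : E3) (k : ℕ) (t : ℝ) :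
    Integrable (fun u : E3 => ⟪v, u⟫^k * Real.exp (-‖u‖^2) *
      volume.real (K ∩ {x : E3 | ⟪x, u⟫ ≤ t * ‖u‖})) := by
  refine (hk_int v k).mul_bdd (c := volume.real K) (WMEAS K hK t).aestronglyMeasurable
    (Filter.Eventually.of_forall fun u => ?_)
  rw [Real.norm_eq_abs, abs_of_nonneg measureReal_nonneg]
  exact measureReal_mono inter_subset_left hK.measure_ne_top

/-- key formula: `G_k(t) = P_k(t) + beta(t) I_k` -/
lemma hk_key (K : Set E3) (hK : IsCompact K) (R : ℝ) (hR : 0 < R)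
    (hBK : Metric.ball (0:E3) R ⊆ K) (v : E3) (k : ℕ) (w : E3) (hw : w ≠ 0) :
    ∃ P : Polynomial ℝ, ∀ t ∈ Icc (-R) R,
      ∫ u, ⟪v, u⟫^k * Real.exp (-‖u‖^2) * volume.real (K ∩ {x : E3 | ⟪x, u⟫ ≤ t * ‖u‖}) =
        P.eval t + volume.real (Metric.ball (0:E3) R ∩ {x : E3 | ⟪x, w⟫ ≤ t * ‖w‖}) *
          ∫ u : E3, ⟪v, u⟫^k * Real.exp (-‖u‖^2) := by
  have hCm : MeasurableSet (K \ Metric.ball (0:E3) R) :=
    hK.measurableSet.diff measurableSet_ball
  have hCb : Bornology.IsBounded (K \ Metric.ball (0:E3) R) :=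
    hK.isBounded.subset diff_subset
  have hCR : ∀ x ∈ K \ Metric.ball (0:E3) R, R ≤ ‖x‖ := by
    intro x hx
    have := hx.2
    rw [mem_ball_zero_iff, not_lt] at this
    exact this
  obtain ⟨P, hP⟩ := PE5 _ hCm hCb R hR hCR v k
  refine ⟨P, fun t ht => ?_⟩
  rw [← hP t ht, FU _ hCm hCb t v k]
  have hne : ∀ᵐ u : E3, u ≠ 0 := by
    have : volume ({0} : Set E3) = 0 := measure_singleton 0
    rw [ae_iff]
    simpa using this
  have hmeasH : ∀ u : E3, MeasurableSet {x : E3 | ⟪x, u⟫ ≤ t * ‖u‖} := by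
    intro u
    apply measurableSet_le
    · fun_prop
    · fun_prop
  have hsplit : ∀ᵐ u : E3, ⟪v, u⟫^k * Real.exp (-‖u‖^2) *
      volume.real ((K \ Metric.ball (0:E3) R) ∩ {x : E3 | ⟪x, u⟫ ≤ t * ‖u‖}) =
      ⟪v, u⟫^k * Real.exp (-‖u‖^2) * volume.real (K ∩ {x : E3 | ⟪x, u⟫ ≤ t * ‖u‖}) -
      (⟪v, u⟫^k * Real.exp (-‖u‖^2)) *
        volume.real (Metric.ball (0:E3) R ∩ {x : E3 | ⟪x, w⟫ ≤ t * ‖w‖}) := by
    filter_upwards [hne] with u hu
    rw [← BALL R t u w hu hw]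
    have hdec : volume.real (K ∩ {x : E3 | ⟪x, u⟫ ≤ t * ‖u‖}) =
        volume.real ((K \ Metric.ball (0:E3) R) ∩ {x : E3 | ⟪x, u⟫ ≤ t * ‖u‖}) +
        volume.real (Metric.ball (0:E3) R ∩ {x : E3 | ⟪x, u⟫ ≤ t * ‖u‖}) := by
      have hdisj : Disjoint ((K \ Metric.ball (0:E3) R) ∩ {x : E3 | ⟪x, u⟫ ≤ t * ‖u‖})
          (Metric.ball (0:E3) R ∩ {x : E3 | ⟪x, u⟫ ≤ t * ‖u‖}) := by
        rw [Set.disjoint_left]
        rintro x ⟨⟨_, h1⟩, _⟩ ⟨h2, _⟩
        exact h1 h2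
      have hf1 : volume ((K \ Metric.ball (0:E3) R) ∩ {x : E3 | ⟪x, u⟫ ≤ t * ‖u‖}) ≠ ⊤ :=
        ne_top_of_le_ne_top hK.measure_ne_top
          (measure_mono (fun x hx => hx.1.1))
      have hf2 : volume (Metric.ball (0:E3) R ∩ {x : E3 | ⟪x, u⟫ ≤ t * ‖u‖}) ≠ ⊤ :=
        ne_top_of_le_ne_top hK.measure_ne_top
          (measure_mono (inter_subset_left.trans hBK))
      rw [← measureReal_union hdisj (measurableSet_ball.inter (hmeasH u)) hf1 hf2]
      congr 1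
      ext x
      constructor
      · rintro ⟨h1, h2⟩
        by_cases hb : x ∈ Metric.ball (0:E3) R
        · exact Or.inr ⟨hb, h2⟩
        · exact Or.inl ⟨⟨h1, hb⟩, h2⟩
      · rintro (⟨⟨h1, _⟩, h2⟩ | ⟨h1, h2⟩)
        · exact ⟨h1, h2⟩
        · exact ⟨hBK h1, h2⟩
    rw [hdec]; ring
  rw [integral_congr_ae hsplit, integral_sub (hk_intW K hK v k t)
    ((hk_int v k).mul_const _), integral_mul_const]
  ring

lemma HK (K : Set E3) (hK : IsCompact K) (R : ℝ) (hR : 0 < R)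
    (hBK : Metric.ball (0:E3) R ⊆ K) (T : Set ℝ) (hT : T.Infinite) (hTR : T ⊆ Icc (-R) R)
    (hconst : ∀ τ ∈ T, ∃ c : ℝ, ∀ u : E3, u ≠ 0 →
      volume.real (K ∩ {x : E3 | ⟪x, u⟫ ≤ τ * ‖u‖}) = c)
    (v : E3) (k : ℕ) (t : ℝ) (ht : t ∈ Icc (-R) R) :
    (∫ u : E3, Real.exp (-‖u‖^2)) *
        ∫ u, ⟪v, u⟫^k * Real.exp (-‖u‖^2) * volume.real (K ∩ {x : E3 | ⟪x, u⟫ ≤ t * ‖u‖}) =
      (∫ u : E3, Real.exp (-‖u‖^2) * volume.real (K ∩ {x : E3 | ⟪x, u⟫ ≤ t * ‖u‖})) *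
        ∫ u : E3, ⟪v, u⟫^k * Real.exp (-‖u‖^2) := by
  obtain ⟨w, hw⟩ := exists_ne (0 : E3)
  obtain ⟨P, hP⟩ := hk_key K hK R hR hBK v k w hw
  obtain ⟨Q, hQ⟩ := hk_key K hK R hR hBK v 0 w hw
  simp only [pow_zero, one_mul] at hQ
  have hne : ∀ᵐ u : E3, u ≠ 0 := by
    have : volume ({0} : Set E3) = 0 := measure_singleton 0
    rw [ae_iff]
    simpa using this
  set I0 : ℝ := ∫ u : E3, Real.exp (-‖u‖^2) with hI0
  set Ik : ℝ := ∫ u : E3, ⟪v, u⟫^k * Real.exp (-‖u‖^2) with hIk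
  have hzero : Polynomial.C I0 * P - Polynomial.C Ik * Q = 0 := by
    apply Polynomial.eq_zero_of_infinite_isRoot
    refine hT.mono fun τ hτ => ?_
    obtain ⟨c, hc⟩ := hconst τ hτ
    have h1 := hP τ (hTR hτ)
    have h2 := hQ τ (hTR hτ)
    have e1 : ∫ u, ⟪v, u⟫^k * Real.exp (-‖u‖^2) *
        volume.real (K ∩ {x : E3 | ⟪x, u⟫ ≤ τ * ‖u‖}) = Ik * c := by
      rw [hIk, ← integral_mul_const]
      apply integral_congr_ae
      filter_upwards [hne] with u hu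
      rw [hc u hu]
    have e2 : ∫ u : E3, Real.exp (-‖u‖^2) *
        volume.real (K ∩ {x : E3 | ⟪x, u⟫ ≤ τ * ‖u‖}) = I0 * c := by
      rw [hI0, ← integral_mul_const]
      apply integral_congr_ae
      filter_upwards [hne] with u hu
      rw [hc u hu]
    rw [e1] at h1
    rw [e2] at h2
    simp only [mem_setOf_eq, Polynomial.IsRoot.def, Polynomial.eval_sub, Polynomial.eval_mul,
      Polynomial.eval_C]
    linear_combination (-I0) * h1 + Ik * h2
  have hev : I0 * P.eval t = Ik * Q.eval t := by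
    have := congrArg (Polynomial.eval t) hzero
    simp only [Polynomial.eval_sub, Polynomial.eval_mul, Polynomial.eval_C,
      Polynomial.eval_zero] at this
    linarith
  rw [hP t ht, hQ t ht]
  linear_combination hev

lemma MOM_gauss (a : ℝ) :
    Integrable (fun u : E3 => Real.exp (a * ‖u‖) * Real.exp (-‖u‖^2)) := by
  have h0 : Integrable (fun v : E3 => Complex.exp (-(1/2 : ℂ) * ‖v‖ ^ 2 + (0:ℂ) * ⟪(0:E3), v⟫)) :=
    GaussianFourier.integrable_cexp_neg_mul_sq_norm_add (by norm_num) _ _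
  have h1 : Integrable (fun v : E3 => Real.exp (a^2/2) * Real.exp (-(1/2) * ‖v‖^2)) := by
    have h2 := h0.norm
    refine (h2.const_mul (Real.exp (a^2/2))).congr ?_
    filter_upwards with v
    rw [Complex.norm_exp]
    have h3 : (-(1/2 : ℂ) * (‖v‖ : ℂ) ^ 2 + (0:ℂ) * ((⟪(0:E3), v⟫ : ℝ) : ℂ)).re
        = -(1/2) * ‖v‖^2 := by
      have h4 : (-(1/2 : ℂ) * (‖v‖ : ℂ) ^ 2 + (0:ℂ) * ((⟪(0:E3), v⟫ : ℝ) : ℂ))
          = ((-(1/2) * ‖v‖^2 : ℝ) : ℂ) := by
        push_cast; ring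
      rw [h4, Complex.ofReal_re]
    rw [h3]
  refine h1.mono' (by fun_prop) ?_
  filter_upwards with u
  rw [Real.norm_of_nonneg (by positivity), ← Real.exp_add, ← Real.exp_add]
  apply Real.exp_le_exp.mpr
  nlinarith [sq_nonneg (a - ‖u‖)]

lemma MOM_int (g : E3 → ℝ) (hg : Measurable g) (M : ℝ) (hM : ∀ u, |g u| ≤ M) (v : E3) (k : ℕ) :
    Integrable (fun u : E3 => ⟪v, u⟫^k * Real.exp (-‖u‖^2) * g u) := by
  have h1 := ((MOM_gauss ‖v‖).const_mul ((k.factorial : ℝ) * M))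
  refine h1.mono' (by fun_prop) ?_
  filter_upwards with u
  have h2 : |⟪v, u⟫| ≤ ‖v‖ * ‖u‖ := abs_real_inner_le_norm v u
  have h3 : |⟪v, u⟫|^k ≤ (k.factorial : ℝ) * Real.exp (‖v‖ * ‖u‖) := by
    have h4 : (‖v‖ * ‖u‖)^k / (k.factorial : ℝ) ≤ Real.exp (‖v‖ * ‖u‖) :=
      Real.pow_div_factorial_le_exp _ (by positivity) k
    rw [div_le_iff₀ (by positivity)] at h4
    calc |⟪v, u⟫|^k ≤ (‖v‖ * ‖u‖)^k := pow_le_pow_left₀ (abs_nonneg _) h2 k
      _ ≤ _ := by rw [mul_comm (k.factorial : ℝ)]; exact h4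
  rw [Real.norm_eq_abs, abs_mul, abs_mul, abs_pow, abs_of_pos (Real.exp_pos (-‖u‖^2))]
  calc |⟪v, u⟫|^k * Real.exp (-‖u‖^2) * |g u|
      ≤ ((k.factorial : ℝ) * Real.exp (‖v‖ * ‖u‖)) * Real.exp (-‖u‖^2) * M := by
        gcongr
        exact hM u
    _ = _ := by ring

lemma MOM_key (g : E3 → ℝ) (hg : Measurable g) (M : ℝ) (hM : ∀ u, |g u| ≤ M)
    (h : ∀ (v : E3) (k : ℕ), ∫ u, ⟪v, u⟫^k * Real.exp (-‖u‖^2) * g u = 0) (v : E3) :
    ∫ u : E3, ((Real.exp (-‖u‖^2) * g u : ℝ) : ℂ) * Complex.exp ((⟪u, v⟫ : ℝ) * Complex.I) = 0 := by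
  have hM0 : 0 ≤ M := le_trans (abs_nonneg _) (hM 0)
  have H := hasSum_integral_of_dominated_convergence (μ := (volume : Measure E3))
    (F := fun (n : ℕ) (u : E3) => (Complex.I ^ n / (n.factorial : ℂ)) *
      ((⟪v, u⟫^n * Real.exp (-‖u‖^2) * g u : ℝ) : ℂ))
    (f := fun u => ((Real.exp (-‖u‖^2) * g u : ℝ) : ℂ) * Complex.exp ((⟪u, v⟫ : ℝ) * Complex.I))
    (fun n u => (‖v‖ * ‖u‖)^n / (n.factorial : ℝ) * (Real.exp (-‖u‖^2) * M))
    (fun n => by
      apply Measurable.aestronglyMeasurable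
      fun_prop)
    (fun n => by
      filter_upwards with u
      rw [norm_mul, norm_div, norm_pow, Complex.norm_I, one_pow, Complex.norm_natCast,
        Complex.norm_real, Real.norm_eq_abs, abs_mul, abs_mul, abs_pow,
        abs_of_pos (Real.exp_pos (-‖u‖^2))]
      have h2 : |⟪v, u⟫| ≤ ‖v‖ * ‖u‖ := abs_real_inner_le_norm v u
      have h3 : |⟪v, u⟫|^n ≤ (‖v‖ * ‖u‖)^n := pow_le_pow_left₀ (abs_nonneg _) h2 n
      calc 1 / (n.factorial : ℝ) * (|⟪v, u⟫|^n * Real.exp (-‖u‖^2) * |g u|)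
          ≤ 1 / (n.factorial : ℝ) * ((‖v‖ * ‖u‖)^n * Real.exp (-‖u‖^2) * M) := by
            gcongr
            exact hM u
        _ = _ := by ring)
    (by
      filter_upwards with u
      exact (Real.summable_pow_div_factorial _).mul_right _)
    (by
      have e1 : (fun u : E3 => ∑' n : ℕ, (‖v‖ * ‖u‖)^n / (n.factorial : ℝ) * (Real.exp (-‖u‖^2) * M))
          = fun u => M * (Real.exp (‖v‖ * ‖u‖) * Real.exp (-‖u‖^2)) := by
        funext u
        rw [tsum_mul_right]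
        have : ∑' n : ℕ, (‖v‖ * ‖u‖)^n / (n.factorial : ℝ) = Real.exp (‖v‖ * ‖u‖) := by
          rw [Real.exp_eq_exp_ℝ, NormedSpace.exp_eq_tsum_div]
        rw [this]; ring
      rw [e1]
      exact (MOM_gauss ‖v‖).const_mul M)
    (by
      filter_upwards with u
      have h1 : HasSum (fun n : ℕ => (((⟪u, v⟫ : ℝ) * Complex.I : ℂ))^n / (n.factorial : ℂ))
          (Complex.exp ((⟪u, v⟫ : ℝ) * Complex.I)) := by
        rw [Complex.exp_eq_exp_ℂ]
        exact NormedSpace.expSeries_div_hasSum_exp _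
      have h2 := h1.mul_left ((Real.exp (-‖u‖^2) * g u : ℝ) : ℂ)
      refine h2.congr_fun ?_
      intro n
      rw [mul_pow, real_inner_comm]
      push_cast
      ring)
  have h0 : ∀ n : ℕ, ∫ u : E3, (Complex.I ^ n / (n.factorial : ℂ)) *
      ((⟪v, u⟫^n * Real.exp (-‖u‖^2) * g u : ℝ) : ℂ) = 0 := by
    intro n
    rw [integral_const_mul, integral_complex_ofReal, h v n]
    simp
  simp only [h0] at H
  exact H.unique hasSum_zero

lemma MOM (f : E3 → ℝ) (hf : Measurable f) (B : ℝ) (hB : ∀ u, f u ≤ B) (h0 : ∀ u, 0 ≤ f u)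
    (c : ℝ) (hc : 0 ≤ c)
    (h : ∀ (v : E3) (k : ℕ), ∫ u, ⟪v, u⟫^k * Real.exp (-‖u‖^2) * f u =
      c * ∫ u : E3, ⟪v, u⟫^k * Real.exp (-‖u‖^2)) :
    f =ᵐ[volume] fun _ => c := by
  have hfB : ∀ u, |f u| ≤ B := fun u => by rw [abs_of_nonneg (h0 u)]; exact hB u
  have hB0 : 0 ≤ B := le_trans (abs_nonneg _) (hfB 0)
  have hgm : Measurable (fun u => f u - c) := hf.sub_const c
  have hgM : ∀ u, |f u - c| ≤ B + c := fun u => by
    refine (abs_sub _ _).trans ?_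
    rw [abs_of_nonneg hc]
    linarith [hfB u]
  have hmom : ∀ (v : E3) (k : ℕ), ∫ u, ⟪v, u⟫^k * Real.exp (-‖u‖^2) * (f u - c) = 0 := by
    intro v k
    have i1 := MOM_int f hf B hfB v k
    have i2 := MOM_int (fun _ => c) measurable_const c (fun _ => by rw [abs_of_nonneg hc]) v k
    have e1 : (fun u : E3 => ⟪v, u⟫^k * Real.exp (-‖u‖^2) * (f u - c)) =
        fun u => ⟪v, u⟫^k * Real.exp (-‖u‖^2) * f u - ⟪v, u⟫^k * Real.exp (-‖u‖^2) * c := by
      funext u; ring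
    rw [e1, integral_sub i1 i2, h v k, integral_mul_const]
    ring
  have hkey := MOM_key _ hgm _ hgM hmom
  have J1 : Integrable (fun u : E3 => Real.exp (-‖u‖^2) * f u) := by
    simpa using MOM_int f hf B hfB 0 0
  have J2 : Integrable (fun u : E3 => Real.exp (-‖u‖^2) * c) := by
    simpa using MOM_int (fun _ => c) measurable_const c (fun _ => by rw [abs_of_nonneg hc]) 0 0
  have fin1 := isFiniteMeasure_withDensity_ofReal J1.2
  have fin2 := isFiniteMeasure_withDensity_ofReal J2.2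
  have m1 : Measurable (fun u : E3 => ENNReal.ofReal (Real.exp (-‖u‖^2) * f u)) := by fun_prop
  have m2 : Measurable (fun u : E3 => ENNReal.ofReal (Real.exp (-‖u‖^2) * c)) := by fun_prop
  have hchar : charFun ((volume : Measure E3).withDensity
        (fun u => ENNReal.ofReal (Real.exp (-‖u‖^2) * f u)))
      = charFun ((volume : Measure E3).withDensity
        (fun u => ENNReal.ofReal (Real.exp (-‖u‖^2) * c))) := by
    funext v
    rw [charFun_apply, charFun_apply,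
      integral_withDensity_eq_integral_toReal_smul m1 (by filter_upwards with u; exact ENNReal.ofReal_lt_top),
      integral_withDensity_eq_integral_toReal_smul m2 (by filter_upwards with u; exact ENNReal.ofReal_lt_top)]
    have K : ∀ w : E3 → ℝ, Integrable w → Integrable
        (fun u : E3 => ((w u : ℝ) : ℂ) * Complex.exp ((⟪u, v⟫ : ℝ) * Complex.I)) := by
      intro w hw
      refine hw.norm.mono' ?_ ?_
      · exact (Complex.continuous_ofReal.comp_aestronglyMeasurable hw.1).mul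
          (by fun_prop : Measurable (fun u : E3 => Complex.exp ((⟪u, v⟫ : ℝ) * Complex.I))).aestronglyMeasurable
      · filter_upwards with u
        rw [norm_mul, Complex.norm_exp_ofReal_mul_I, mul_one, Complex.norm_real]
    have e1 : (fun u : E3 => (ENNReal.ofReal (Real.exp (-‖u‖^2) * f u)).toReal •
        Complex.exp ((⟪u, v⟫ : ℝ) * Complex.I)) = fun u =>
        ((Real.exp (-‖u‖^2) * f u : ℝ) : ℂ) * Complex.exp ((⟪u, v⟫ : ℝ) * Complex.I) := by
      funext u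
      rw [ENNReal.toReal_ofReal (mul_nonneg (Real.exp_pos _).le (h0 u)), Complex.real_smul]
    have e2 : (fun u : E3 => (ENNReal.ofReal (Real.exp (-‖u‖^2) * c)).toReal •
        Complex.exp ((⟪u, v⟫ : ℝ) * Complex.I)) = fun u =>
        ((Real.exp (-‖u‖^2) * c : ℝ) : ℂ) * Complex.exp ((⟪u, v⟫ : ℝ) * Complex.I) := by
      funext u
      rw [ENNReal.toReal_ofReal (mul_nonneg (Real.exp_pos _).le hc), Complex.real_smul]
    rw [e1, e2, ← sub_eq_zero, ← integral_sub (K _ J1) (K _ J2)]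
    rw [← hkey v]
    congr 1
    funext u
    push_cast
    ring
  have hmu := Measure.ext_of_charFun hchar
  have hae := (withDensity_eq_iff m1.aemeasurable m2.aemeasurable (by
    have := J1.2
    have h3 := (hasFiniteIntegral_iff_ofReal (by
      filter_upwards with u; exact mul_nonneg (Real.exp_pos _).le (h0 u))).mp this
    exact h3.ne)).mp hmu
  filter_upwards [hae] with u hu
  have h5 : Real.exp (-‖u‖^2) * f u = Real.exp (-‖u‖^2) * c := by
    have h6 := congrArg ENNReal.toReal hu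
    rwa [ENNReal.toReal_ofReal (mul_nonneg (Real.exp_pos _).le (h0 u)),
      ENNReal.toReal_ofReal (mul_nonneg (Real.exp_pos _).le hc)] at h6
  exact mul_left_cancel₀ (Real.exp_pos _).ne' h5

lemma WCONT (K : Set E3) (hK : IsCompact K) (t : ℝ) (u : E3) (hu : u ≠ 0) :
    ContinuousAt (fun u : E3 => volume.real (K ∩ {x : E3 | ⟪x, u⟫ ≤ t * ‖u‖})) u := by
  have hnull : volume {x : E3 | ⟪x, u⟫ = t * ‖u‖} = 0 := by
    set x0 : E3 := ((t * ‖u‖) / (‖u‖ ^ 2)) • u with hx0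
    have hun : ‖u‖ ≠ 0 := norm_ne_zero_iff.2 hu
    have h1 : {x : E3 | ⟪x, u⟫ = t * ‖u‖} = (fun x : E3 => x + (-x0)) ⁻¹' (((ℝ ∙ u)ᗮ : Submodule ℝ E3) : Set E3) := by
      ext x
      simp only [Set.mem_ofPred_eq, Set.mem_preimage, SetLike.mem_coe]
      rw [Submodule.mem_orthogonal_singleton_iff_inner_left, inner_add_left, inner_neg_left, hx0,
        real_inner_smul_left, real_inner_self_eq_norm_sq, div_mul_cancel₀ _ (pow_ne_zero 2 hun)]
      constructor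
      · intro h; linarith
      · intro h; linarith
    rw [h1, measure_preimage_add_right]
    apply Measure.addHaar_submodule
    intro htop
    have : u ∈ (ℝ ∙ u)ᗮ := by rw [htop]; trivial
    rw [Submodule.mem_orthogonal_singleton_iff_inner_left, real_inner_self_eq_norm_sq] at this
    exact hun (pow_eq_zero_iff (two_ne_zero) |>.1 this)
  have hmeas : ∀ w : E3, MeasurableSet {x : E3 | ⟪x, w⟫ ≤ t * ‖w‖} := by
    intro w
    exact (isClosed_le (by fun_prop) continuous_const).measurableSet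
  have heq : (fun u : E3 => volume.real (K ∩ {x : E3 | ⟪x, u⟫ ≤ t * ‖u‖})) =
      fun w : E3 => ∫ x in K, ({x : E3 | ⟪x, w⟫ ≤ t * ‖w‖}.indicator (1 : E3 → ℝ)) x := by
    funext w
    rw [integral_indicator_one (hmeas w), measureReal_restrict_apply (hmeas w), Set.inter_comm]
  rw [heq]
  apply continuousAt_of_dominated (bound := fun _ => (1:ℝ))
  · filter_upwards with w
    exact (aestronglyMeasurable_const.indicator (hmeas w))
  · filter_upwards with w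
    filter_upwards with x
    by_cases h : x ∈ {x : E3 | ⟪x, w⟫ ≤ t * ‖w‖}
    · rw [Set.indicator_of_mem h]; simp
    · rw [Set.indicator_of_notMem h]; simp
  · exact integrableOn_const (hK.measure_lt_top.ne)
  · have hae : ∀ᵐ x ∂(volume.restrict K), ⟪x, u⟫ ≠ t * ‖u‖ := by
      apply ae_restrict_of_ae
      rw [ae_iff]
      simpa using hnull
    filter_upwards [hae] with x hx
    rcases lt_or_gt_of_ne hx with h | h
    · have hev : ∀ᶠ w in 𝓝 u, ⟪x, w⟫ < t * ‖w‖ := by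
        apply ContinuousAt.eventually_lt _ _ h
        · fun_prop
        · fun_prop
      have : (fun w : E3 => ({x : E3 | ⟪x, w⟫ ≤ t * ‖w‖}.indicator (1 : E3 → ℝ)) x) =ᶠ[𝓝 u] fun _ => (1:ℝ) := by
        filter_upwards [hev] with w hw
        rw [Set.indicator_of_mem (show x ∈ {x : E3 | ⟪x, w⟫ ≤ t * ‖w‖} from hw.le)]
        rfl
      exact (continuousAt_const).congr this.symm
    · have hev : ∀ᶠ w in 𝓝 u, t * ‖w‖ < ⟪x, w⟫ := by
        apply ContinuousAt.eventually_lt _ _ h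
        · fun_prop
        · fun_prop
      have : (fun w : E3 => ({x : E3 | ⟪x, w⟫ ≤ t * ‖w‖}.indicator (1 : E3 → ℝ)) x) =ᶠ[𝓝 u] fun _ => (0:ℝ) := by
        filter_upwards [hev] with w hw
        rw [Set.indicator_of_notMem (show x ∉ {x : E3 | ⟪x, w⟫ ≤ t * ‖w‖} from not_le.2 hw)]
      exact (continuousAt_const).congr this.symm

lemma HIPOS : 0 < ∫ u : E3, Real.exp (-‖u‖^2) := by
  have hint : Integrable (fun u : E3 => Real.exp (-‖u‖^2)) := by
    have h := (GaussianFourier.integrable_cexp_neg_mul_sq_norm_add (V := E3) (b := 1) (by simp)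
      (0:ℂ) (0 : E3)).norm
    refine h.congr (Filter.Eventually.of_forall fun u => ?_)
    simp only [Complex.norm_exp]
    congr 1
    simp [← Complex.ofReal_pow]
  exact integral_exp_pos hint

theorem CORE (K : Set E3) (hK : IsCompact K) (R : ℝ) (hR : 0 < R)
    (hBK : Metric.ball (0:E3) R ⊆ K) (T : Set ℝ) (hT : T.Infinite) (hTR : T ⊆ Icc (-R) R)
    (hconst : ∀ τ ∈ T, ∃ c : ℝ, ∀ u : E3, u ≠ 0 →
      volume.real (K ∩ {x : E3 | ⟪x, u⟫ ≤ τ * ‖u‖}) = c)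
    (t : ℝ) (ht : t ∈ Icc (-R) R) :
    ∃ c : ℝ, ∀ u : E3, u ≠ 0 → volume.real (K ∩ {x : E3 | ⟪x, u⟫ ≤ t * ‖u‖}) = c := by
  have hI : 0 < ∫ u : E3, Real.exp (-‖u‖^2) := by
    exact HIPOS
  set c : ℝ := (∫ u : E3, Real.exp (-‖u‖^2) * volume.real (K ∩ {x : E3 | ⟪x, u⟫ ≤ t * ‖u‖})) /
    (∫ u : E3, Real.exp (-‖u‖^2)) with hc
  have hae := MOM (fun u : E3 => volume.real (K ∩ {x : E3 | ⟪x, u⟫ ≤ t * ‖u‖}))
    (WMEAS K hK t) (volume.real K)
    (fun u => measureReal_mono inter_subset_left hK.measure_lt_top.ne)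
    (fun u => measureReal_nonneg) c
    (div_nonneg (integral_nonneg fun u => mul_nonneg (Real.exp_nonneg _) measureReal_nonneg) hI.le)
    (fun v k => by
      have h := HK K hK R hR hBK T hT hTR hconst v k t ht
      rw [hc, div_mul_eq_mul_div, eq_div_iff hI.ne', mul_comm, h])
  refine ⟨c, fun u hu => ?_⟩
  -- continuity and density of the full measure set
  by_contra hne
  have hcont := WCONT K hK t u hu
  have h1 : ∀ᶠ w in 𝓝 u, volume.real (K ∩ {x : E3 | ⟪x, w⟫ ≤ t * ‖w‖}) ≠ c :=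
    hcont.eventually_ne hne
  have hopen := (mem_nhds_iff.mp h1)
  obtain ⟨U, hU, hUo, huU⟩ := hopen
  have hpos : 0 < volume U := hUo.measure_pos volume ⟨u, huU⟩
  have hz : volume U = 0 := by
    refine measure_mono_null hU ?_
    have := hae
    rw [Filter.EventuallyEq, ae_iff] at this
    exact this
  exact hpos.ne' hz

end FB41
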