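import Mathlib
open MeasureTheory Set Filter Topology
open scoped RealInnerProductSpace

namespace FB41

abbrev E3 := EuclideanSpace ℝ (Fin 3)

/-- Centroid of a set of positive finite volume. -/
noncomputable def centroidOf (A : Set E3) : E3 := (volume.real A)⁻¹ • ∫ x in A, x

/-- The part of `K` below level `t` in direction `u`. -/
def below (K : Set E3) (u : E3) (t : ℝ) : Set E3 := K ∩ {x : E3 | ⟪x, u⟫ ≤ t}

/-- `K` floats in equilibrium in orientation `u` at relative density `d`. -/
def FloatsIn (K : Set E3) (d : ℝ) (u : E3) : Prop :=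
  ∀ t : ℝ, volume.real (below K u t) = d * volume.real K →
    ∃ c : ℝ, centroidOf K - centroidOf (below K u t) = c • u

/-- `K` floats in every orientation at relative density `d`. -/
def FloatsEvery (K : Set E3) (d : ℝ) : Prop := ∀ u : E3, ‖u‖ = 1 → FloatsIn K d u

/-- The set of densities in `(0,1)` at which `K` floats in every orientation. -/
def floatSet (K : Set E3) : Set ℝ := {d | d ∈ Ioo (0:ℝ) 1 ∧ FloatsEvery K d}

end FB41
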