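import Pool.Agent.Helper41.FB.Core
open MeasureTheory Set Filter Topology
open scoped RealInnerProductSpace

namespace FB41

lemma BATH (K : Set E3) (hK : IsCompact K) (u : E3) (t : ℝ) (A : Set E3)
    (hA : MeasurableSet A) (hAK : A ⊆ K) :
    ∫ x in below K u t, (⟪x, u⟫ - t) ≤ ∫ x in A, (⟪x, u⟫ - t) := by
  have hfc : Continuous (fun x : E3 => ⟪x, u⟫ - t) := by fun_prop
  have hint : IntegrableOn (fun x : E3 => ⟪x, u⟫ - t) K :=
    hfc.continuousOn.integrableOn_compact hK
  have hB : MeasurableSet (below K u t) := by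
    apply hK.measurableSet.inter
    exact (isClosed_le (by fun_prop) continuous_const).measurableSet
  have hIB : Integrable ((below K u t).indicator (fun x : E3 => ⟪x, u⟫ - t)) :=
    (integrable_indicator_iff hB).mpr (hint.mono_set Set.inter_subset_left)
  have hIA : Integrable (A.indicator (fun x : E3 => ⟪x, u⟫ - t)) :=
    (integrable_indicator_iff hA).mpr (hint.mono_set hAK)
  rw [← integral_indicator hB, ← integral_indicator hA]
  refine integral_mono hIB hIA (fun x => ?_)
  by_cases hxB : x ∈ below K u t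
  · rw [Set.indicator_of_mem hxB]
    have hle : ⟪x, u⟫ ≤ t := hxB.2
    by_cases hxA : x ∈ A
    · rw [Set.indicator_of_mem hxA]
    · rw [Set.indicator_of_notMem hxA]
      linarith
  · rw [Set.indicator_of_notMem hxB]
    by_cases hxA : x ∈ A
    · rw [Set.indicator_of_mem hxA]
      have hlt : ¬ (⟪x, u⟫ ≤ t) := fun h => hxB ⟨hAK hxA, h⟩
      push Not at hlt
      linarith
    · rw [Set.indicator_of_notMem hxA]

lemma COSL (f : ℝ → ℝ) (h : ∀ θ η : ℝ, f (θ + η) ≤ f θ * Real.cos η) :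
    ∀ θ η : ℝ, f θ = f η := by
  have hneg : ∀ θ, f θ ≤ 0 := by
    intro θ
    have h1 := h (θ - Real.pi / 2) (Real.pi / 2)
    rw [sub_add_cancel, Real.cos_pi_div_two, mul_zero] at h1
    exact h1
  have hle : ∀ θ η, f (θ + η) ≤ f θ := by
    intro θ η
    have hlim : Tendsto (fun n : ℕ => f θ * (1 - (η ^ 2 / 2) / (n : ℝ))) atTop
        (𝓝 (f θ * (1 - 0))) :=
      (tendsto_const_nhds.sub (tendsto_const_div_atTop_nhds_zero_nat _)).const_mul _
    rw [sub_zero, mul_one] at hlim
    refine ge_of_tendsto hlim ?_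
    obtain ⟨N, hN⟩ := exists_nat_gt |η|
    filter_upwards [eventually_ge_atTop (N + 1)] with n hn
    have hn0 : (0:ℝ) < n := by exact_mod_cast (by omega : 0 < n)
    have hnN : |η| ≤ n := by
      have : (N:ℝ) ≤ n := by exact_mod_cast (by omega : N ≤ n)
      linarith
    have hδ : |η / n| ≤ 1 := by
      rw [abs_div, abs_of_pos hn0, div_le_one hn0]
      exact hnN
    have hδ2 : (η / n) ^ 2 ≤ 1 := by
      rw [← sq_abs]
      exact pow_le_one₀ (abs_nonneg _) hδ
    have hc : 1 - (η / n) ^ 2 / 2 ≤ Real.cos (η / n) := Real.one_sub_sq_div_two_le_cos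
    have hc0 : 0 ≤ 1 - (η / n) ^ 2 / 2 := by linarith
    have hind : ∀ j : ℕ, f (θ + j * (η / n)) ≤ f θ * Real.cos (η / n) ^ j := by
      intro j
      induction j with
      | zero => simp
      | succ j ih =>
        have h1 := h (θ + j * (η / n)) (η / n)
        have h2 : θ + ((j + 1 : ℕ) : ℝ) * (η / n) = θ + j * (η / n) + η / n := by
          push_cast
          ring
        rw [h2, pow_succ, ← mul_assoc]
        exact h1.trans (mul_le_mul_of_nonneg_right ih (hc0.trans hc))
    have h3 := hind n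
    have h33 : (n : ℝ) * (η / n) = η := by field_simp
    rw [h33] at h3
    have h4 : 1 - (η ^ 2 / 2) / (n : ℝ) ≤ Real.cos (η / n) ^ n := by
      have h5 := one_add_mul_le_pow (a := -((η / n) ^ 2 / 2)) (by linarith) n
      have h6 : (1 + -((η / n) ^ 2 / 2)) ^ n ≤ Real.cos (η / n) ^ n :=
        pow_le_pow_left₀ (by linarith) (by linarith) n
      have h7 : 1 + (n:ℝ) * -((η / n) ^ 2 / 2) = 1 - (η ^ 2 / 2) / n := by
        field_simp
        ring
      linarith
    exact h3.trans (mul_le_mul_of_nonpos_left h4 (hneg θ))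
  intro θ η
  apply le_antisymm
  · have := hle η (θ - η)
    rwa [add_sub_cancel] at this
  · have := hle θ (η - θ)
    rwa [add_sub_cancel] at this

lemma SPH_gc (c : E3 → ℝ) (h : ∀ u v : E3, ‖u‖ = 1 → ‖v‖ = 1 → c v ≤ c u * ⟪u, v⟫)
    (u w : E3) (hu : ‖u‖ = 1) (hw : ‖w‖ = 1) (huw : ⟪u, w⟫ = 0) (θ : ℝ) :
    c (Real.cos θ • u + Real.sin θ • w) = c u := by
  have huu : ⟪u, u⟫ = 1 := by rw [real_inner_self_eq_norm_sq, hu]; norm_num
  have hww : ⟪w, w⟫ = 1 := by rw [real_inner_self_eq_norm_sq, hw]; norm_num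
  have hwu : ⟪w, u⟫ = 0 := by rw [real_inner_comm]; exact huw
  have inn : ∀ a b : ℝ, ⟪Real.cos a • u + Real.sin a • w, Real.cos b • u + Real.sin b • w⟫
      = Real.cos a * Real.cos b + Real.sin a * Real.sin b := by
    intro a b
    rw [inner_add_left, inner_add_right, inner_add_right, real_inner_smul_left,
      real_inner_smul_left, real_inner_smul_left, real_inner_smul_left, real_inner_smul_right,
      real_inner_smul_right, real_inner_smul_right, real_inner_smul_right, huu, hww, huw, hwu]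
    ring
  have hn : ∀ a : ℝ, ‖Real.cos a • u + Real.sin a • w‖ = 1 := by
    intro a
    have h1 : ‖Real.cos a • u + Real.sin a • w‖ ^ 2 = 1 := by
      rw [← real_inner_self_eq_norm_sq, inn]
      nlinarith [Real.sin_sq_add_cos_sq a]
    have h2 := norm_nonneg (Real.cos a • u + Real.sin a • w)
    nlinarith
  have key := COSL (fun θ => c (Real.cos θ • u + Real.sin θ • w)) (by
    intro θ η
    have h1 := h _ _ (hn θ) (hn (θ + η))
    rw [inn] at h1
    have e : Real.cos θ * Real.cos (θ + η) + Real.sin θ * Real.sin (θ + η) = Real.cos η := by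
      have h2 := Real.cos_sub (θ + η) θ
      rw [show θ + η - θ = η by ring] at h2
      rw [h2]; ring
    rw [e] at h1
    exact h1) θ 0
  simp only [Real.cos_zero, Real.sin_zero, one_smul, zero_smul, add_zero] at key
  exact key

lemma SPH_ne (c : E3 → ℝ) (h : ∀ u v : E3, ‖u‖ = 1 → ‖v‖ = 1 → c v ≤ c u * ⟪u, v⟫)
    (u v : E3) (hu : ‖u‖ = 1) (hv : ‖v‖ = 1) (hne : v - ⟪u, v⟫ • u ≠ 0) : c u = c v := by
  have huu : ⟪u, u⟫ = 1 := by rw [real_inner_self_eq_norm_sq, hu]; norm_num
  have hvv : ⟪v, v⟫ = 1 := by rw [real_inner_self_eq_norm_sq, hv]; norm_num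
  set a : ℝ := ⟪u, v⟫ with ha
  have hva : ⟪v, u⟫ = a := by rw [real_inner_comm]
  set y : E3 := v - a • u with hy
  have hy0 : 0 < ‖y‖ := norm_pos_iff.mpr hne
  have hysq : ‖y‖ ^ 2 = 1 - a ^ 2 := by
    rw [← real_inner_self_eq_norm_sq, hy, inner_sub_left, inner_sub_right, inner_sub_right,
      real_inner_smul_left, real_inner_smul_left, real_inner_smul_right, real_inner_smul_right,
      huu, hvv, hva, ← ha]
    ring
  have hy1 : ‖y‖ = Real.sqrt (1 - a ^ 2) := by
    rw [← hysq, Real.sqrt_sq hy0.le]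
  have huy : ⟪u, y⟫ = 0 := by
    rw [hy, inner_sub_right, real_inner_smul_right, huu, ← ha]
    ring
  have ha1 : a ^ 2 < 1 := by nlinarith [pow_pos hy0 2]
  have ha2 : -1 ≤ a ∧ a ≤ 1 := by
    constructor <;> nlinarith
  have hw : ‖(‖y‖⁻¹) • y‖ = 1 := by
    rw [norm_smul, norm_inv, norm_norm, inv_mul_cancel₀ hy0.ne']
  have huw : ⟪u, (‖y‖⁻¹) • y⟫ = 0 := by
    rw [real_inner_smul_right, huy, mul_zero]
  have key := SPH_gc c h u ((‖y‖⁻¹) • y) hu hw huw (Real.arccos a)
  rw [Real.cos_arccos ha2.1 ha2.2, Real.sin_arccos, ← hy1, smul_smul,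
    mul_inv_cancel₀ hy0.ne', one_smul, hy] at key
  rw [← key]
  congr 1
  abel

lemma SPH (c : E3 → ℝ) (h : ∀ u v : E3, ‖u‖ = 1 → ‖v‖ = 1 → c v ≤ c u * ⟪u, v⟫) :
    ∀ u v : E3, ‖u‖ = 1 → ‖v‖ = 1 → c u = c v := by
  intro u v hu hv
  by_cases hne : v - ⟪u, v⟫ • u = 0
  · have huu : ⟪u, u⟫ = 1 := by rw [real_inner_self_eq_norm_sq, hu]; norm_num
    have hvu : v = ⟪u, v⟫ • u := sub_eq_zero.mp hne
    have ha : |⟪u, v⟫| = 1 := by
      have h1 := congrArg norm hvu
      rw [hv, norm_smul, hu, mul_one, Real.norm_eq_abs] at h1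
      exact h1.symm
    rcases eq_or_eq_neg_of_abs_eq ha with ha | ha
    · rw [ha, one_smul] at hvu
      rw [hvu]
    · rw [ha, neg_smul, one_smul] at hvu
      -- choose a basis vector not parallel to `u`
      have hex : ∃ e : E3, ‖e‖ = 1 ∧ e - ⟪u, e⟫ • u ≠ 0 := by
        by_contra hcon
        push Not at hcon
        have n0 : ‖(EuclideanSpace.single (0 : Fin 3) (1 : ℝ) : E3)‖ = 1 := by simp
        have n1 : ‖(EuclideanSpace.single (1 : Fin 3) (1 : ℝ) : E3)‖ = 1 := by simp
        have e0 := sub_eq_zero.mp (hcon _ n0)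
        have e1 := sub_eq_zero.mp (hcon _ n1)
        have h01 : ⟪(EuclideanSpace.single (0 : Fin 3) (1 : ℝ) : E3),
            (EuclideanSpace.single (1 : Fin 3) (1 : ℝ) : E3)⟫ = 0 := by
          rw [EuclideanSpace.inner_single_left]
          simp
        rw [e0, e1, real_inner_smul_left, real_inner_smul_right, huu, mul_one] at h01
        rcases mul_eq_zero.mp h01 with g | g
        · rw [g, zero_smul] at e0
          rw [e0] at n0
          simp at n0
        · rw [g, zero_smul] at e1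
          rw [e1] at n1
          simp at n1
      obtain ⟨e, he, hee⟩ := hex
      have g1 := SPH_ne c h u e hu he hee
      have g2 := SPH_ne c h (-u) e (by rw [norm_neg]; exact hu) he (by
        rw [inner_neg_left, neg_smul, smul_neg, neg_neg]
        exact hee)
      rw [hvu, g1, g2]
  · exact SPH_ne c h u v hu hv hne

lemma LEV_hyper_null (u : E3) (hu : ‖u‖ = 1) (t : ℝ) :
    volume {x : E3 | ⟪x, u⟫ = t} = 0 := by
  have huu : ⟪u, u⟫ = (1:ℝ) := by rw [real_inner_self_eq_norm_sq, hu]; norm_num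
  have h : ({x : E3 | ⟪x, u⟫ = t} : Set E3) =
      ((AffineSubspace.mk' (t • u) ((Submodule.span ℝ {u})ᗮ) : AffineSubspace ℝ E3) : Set E3) := by
    ext x
    rw [mem_setOf_eq, SetLike.mem_coe, AffineSubspace.mem_mk',
      Submodule.mem_orthogonal_singleton_iff_inner_left, vsub_eq_sub, inner_sub_left,
      real_inner_smul_left, huu, mul_one, sub_eq_zero]
  rw [h]
  apply Measure.addHaar_affineSubspace
  intro htop
  have h2 : (t+1) • u ∈ ((AffineSubspace.mk' (t • u) ((Submodule.span ℝ {u})ᗮ) :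
      AffineSubspace ℝ E3) : Set E3) := by
    rw [htop]; trivial
  rw [← h, mem_setOf_eq, real_inner_smul_left, huu] at h2
  linarith

lemma LEV (K : Set E3) (hK : IsCompact K) (u : E3) (hu : ‖u‖ = 1) (d : ℝ)
    (hd : d ∈ Ioo (0:ℝ) 1) : ∃ t : ℝ, volume.real (below K u t) = d * volume.real K := by
  obtain ⟨B, hB⟩ := hK.isBounded.exists_norm_le
  have hin : ∀ x ∈ K, |⟪x, u⟫| ≤ B := by
    intro x hx
    calc |⟪x, u⟫| ≤ ‖x‖ * ‖u‖ := abs_real_inner_le_norm x u
      _ = ‖x‖ := by rw [hu, mul_one]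
      _ ≤ B := hB x hx
  haveI : IsFiniteMeasure (volume.restrict K) :=
    isFiniteMeasure_restrict.mpr hK.measure_lt_top.ne
  have hms : ∀ t : ℝ, MeasurableSet {x : E3 | ⟪x, u⟫ ≤ t} := by
    intro t
    exact (isClosed_le (by fun_prop) continuous_const).measurableSet
  have hV : ∀ t : ℝ, volume.real (below K u t) =
      ∫ x, ({x : E3 | ⟪x, u⟫ ≤ t}).indicator (1 : E3 → ℝ) x ∂(volume.restrict K) := by
    intro t
    rw [integral_indicator_one (hms t), measureReal_restrict_apply (hms t), inter_comm]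
    rfl
  have hcont : Continuous (fun t : ℝ => volume.real (below K u t)) := by
    rw [continuous_iff_continuousAt]
    intro t₀
    simp_rw [hV]
    apply continuousAt_of_dominated (bound := fun _ => (1:ℝ))
    · refine Eventually.of_forall fun t => ?_
      exact (stronglyMeasurable_one.indicator (hms t)).aestronglyMeasurable
    · refine Eventually.of_forall fun t => Eventually.of_forall fun x => ?_
      by_cases hx : x ∈ {x : E3 | ⟪x, u⟫ ≤ t}
      · rw [indicator_of_mem hx]; simp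
      · rw [indicator_of_notMem hx]; simp
    · exact integrable_const 1
    · have hne : ∀ᵐ x : E3 ∂volume, ⟪x, u⟫ ≠ t₀ := by
        have := LEV_hyper_null u hu t₀
        rw [measure_eq_zero_iff_ae_notMem] at this
        exact this
      filter_upwards [ae_restrict_of_ae hne] with x hx
      rcases lt_or_gt_of_ne hx with h | h
      · have : (fun _ : ℝ => (1:ℝ)) =ᶠ[𝓝 t₀]
            (fun t => ({x : E3 | ⟪x, u⟫ ≤ t}).indicator (1 : E3 → ℝ) x) := by
          filter_upwards [lt_mem_nhds h] with t ht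
          rw [indicator_of_mem (show x ∈ {x : E3 | ⟪x, u⟫ ≤ t} from le_of_lt ht)]
          rfl
        exact continuousAt_const.congr this
      · have : (fun _ : ℝ => (0:ℝ)) =ᶠ[𝓝 t₀]
            (fun t => ({x : E3 | ⟪x, u⟫ ≤ t}).indicator (1 : E3 → ℝ) x) := by
          filter_upwards [gt_mem_nhds h] with t ht
          rw [indicator_of_notMem (show x ∉ {x : E3 | ⟪x, u⟫ ≤ t} from not_le.mpr ht)]
        exact continuousAt_const.congr this
  have hlow : volume.real (below K u (-B-1)) = 0 := by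
    have : below K u (-B-1) = ∅ := by
      ext x
      simp only [below, mem_inter_iff, mem_setOf_eq, mem_empty_iff_false, iff_false, not_and, not_le]
      intro hx
      have := (abs_le.mp (hin x hx)).1
      linarith
    rw [this, measureReal_empty]
  have hhigh : volume.real (below K u B) = volume.real K := by
    have : below K u B = K := by
      ext x
      simp only [below, mem_inter_iff, mem_setOf_eq, and_iff_left_iff_imp]
      intro hx
      exact (abs_le.mp (hin x hx)).2
    rw [this]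
  have hK0 : 0 ≤ volume.real K := measureReal_nonneg
  have := mem_range_of_exists_le_of_exists_ge (c := d * volume.real K) hcont
    ⟨-B-1, by rw [hlow]; exact mul_nonneg hd.1.le hK0⟩
    ⟨B, by rw [hhigh]; nlinarith [hd.2]⟩
  obtain ⟨t, ht⟩ := this
  exact ⟨t, ht⟩

lemma STRICT (K : Set E3) (hK : IsCompact K) (hconv : Convex ℝ K) (hint : (interior K).Nonempty)
    (u : E3) (hu : ‖u‖ = 1) (t s : ℝ) (hts : t < s) (h0 : 0 < volume.real (below K u t))
    (h1 : volume.real (below K u t) < volume.real K) :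
    volume.real (below K u t) < volume.real (below K u s) := by
  have hfinK : volume K ≠ ⊤ := hK.measure_lt_top.ne
  have hfin : ∀ A : Set E3, A ⊆ K → volume A ≠ ⊤ := fun A hA =>
    ne_top_of_le_ne_top hfinK (measure_mono hA)
  have hfr : volume (frontier K) = 0 := hconv.addHaar_frontier volume
  have hφ : Continuous (fun x : E3 => ⟪x, u⟫) := by fun_prop
  have hbc : ∀ r, IsClosed (below K u r) := fun r =>
    hK.isClosed.inter (isClosed_le hφ continuous_const)
  have hKsub : K ⊆ interior K ∪ frontier K := by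
    intro x hx
    by_cases hxi : x ∈ interior K
    · exact Or.inl hxi
    · exact Or.inr ⟨subset_closure hx, hxi⟩
  obtain ⟨x1, hx1, hx1t⟩ : ∃ x1 ∈ interior K, ⟪x1, u⟫ ≤ t := by
    by_contra hcon
    push Not at hcon
    have hsub : below K u t ⊆ frontier K := by
      rintro x ⟨hxK, hxt⟩
      rcases hKsub hxK with h | h
      · exact absurd (hcon x h) (not_lt.mpr hxt)
      · exact h
    have h0' : volume (below K u t) = 0 := measure_mono_null hsub hfr
    simp [Measure.real, h0'] at h0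
  obtain ⟨x2, hx2, hx2t⟩ : ∃ x2 ∈ interior K, t < ⟪x2, u⟫ := by
    by_contra hcon
    push Not at hcon
    have hsub : K ⊆ below K u t ∪ frontier K := by
      intro x hxK
      rcases hKsub hxK with h | h
      · exact Or.inl ⟨hxK, hcon x h⟩
      · exact Or.inr h
    have h2 : volume K ≤ volume (below K u t) := by
      calc volume K ≤ volume (below K u t ∪ frontier K) := measure_mono hsub
        _ ≤ volume (below K u t) + volume (frontier K) := measure_union_le _ _
        _ = volume (below K u t) := by rw [hfr, add_zero]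
    have h3 : volume.real K ≤ volume.real (below K u t) :=
      ENNReal.toReal_mono (hfin _ inter_subset_left) h2
    linarith
  have hpre : IsPreconnected (interior K) := hconv.interior.isPreconnected
  obtain ⟨y, hy, hym⟩ : ∃ y ∈ interior K, ⟪y, u⟫ = (t + min s ⟪x2, u⟫) / 2 := by
    have hiv := hpre.intermediate_value hx1 hx2 hφ.continuousOn
    have h4 : t < min s ⟪x2, u⟫ := lt_min hts hx2t
    have h5 : min s ⟪x2, u⟫ ≤ ⟪x2, u⟫ := min_le_right _ _
    have hmem : (t + min s ⟪x2, u⟫) / 2 ∈ Icc ⟪x1, u⟫ ⟪x2, u⟫ := ⟨by linarith, by linarith⟩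
    obtain ⟨y, hy, hy'⟩ := hiv hmem
    exact ⟨y, hy, hy'⟩
  have h4 : t < min s ⟪x2, u⟫ := lt_min hts hx2t
  have h5 : min s ⟪x2, u⟫ ≤ s := min_le_left _ _
  set U : Set E3 := interior K ∩ ({x : E3 | t < ⟪x, u⟫} ∩ {x : E3 | ⟪x, u⟫ < s}) with hU
  have hUo : IsOpen U := isOpen_interior.inter
    ((isOpen_lt continuous_const hφ).inter (isOpen_lt hφ continuous_const))
  have hUne : U.Nonempty := by
    refine ⟨y, hy, ?_, ?_⟩
    · show t < ⟪y, u⟫
      rw [hym]
      linarith
    · show ⟪y, u⟫ < s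
      rw [hym]
      linarith
  have hUpos : 0 < volume.real U := by
    have h6 : 0 < volume U := hUo.measure_pos volume hUne
    exact ENNReal.toReal_pos h6.ne' (hfin U (fun x hx => interior_subset hx.1))
  have hdisj : Disjoint (below K u t) U := by
    rw [Set.disjoint_left]
    rintro x hx ⟨_, hx2, _⟩
    have a1 : t < ⟪x, u⟫ := hx2
    have a2 : ⟪x, u⟫ ≤ t := hx.2
    linarith
  have hsub : below K u t ∪ U ⊆ below K u s := by
    rintro x (hx | hx)
    · have a1 : ⟪x, u⟫ ≤ t := hx.2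
      exact ⟨hx.1, a1.trans hts.le⟩
    · have a1 : ⟪x, u⟫ < s := hx.2.2
      exact ⟨interior_subset hx.1, a1.le⟩
  have h7 : volume.real (below K u t ∪ U) = volume.real (below K u t) + volume.real U :=
    measureReal_union hdisj hUo.measurableSet (hfin _ inter_subset_left)
      (hfin U (fun x hx => interior_subset hx.1))
  have h8 : volume.real (below K u t ∪ U) ≤ volume.real (below K u s) :=
    measureReal_mono hsub (hfin _ inter_subset_left)
  linarith

lemma LCONT (K : Set E3) (hK : IsCompact K) (hconv : Convex ℝ K) (hint : (interior K).Nonempty)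
    (u : E3) (hu : ‖u‖ = 1) (δ : ℝ) (hδ : δ ∈ Ioo (0:ℝ) 1) (t : ℝ)
    (ht : volume.real (below K u t) = δ * volume.real K) (ε : ℝ) (hε : 0 < ε) :
    ∃ η : ℝ, 0 < η ∧ ∀ d' t' : ℝ, |d' - δ| < η →
      volume.real (below K u t') = d' * volume.real K → |t' - t| < ε := by
  have hKfin : volume K ≠ ⊤ := hK.measure_lt_top.ne
  have hKpos : 0 < volume.real K := by
    rw [Measure.real, ENNReal.toReal_pos_iff]
    refine ⟨?_, hK.measure_lt_top⟩
    exact lt_of_lt_of_le (isOpen_interior.measure_pos volume hint) (measure_mono interior_subset)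
  have hmono : ∀ s s' : ℝ, s ≤ s' → volume.real (below K u s) ≤ volume.real (below K u s') := by
    intro s s' hss
    refine measureReal_mono ?_ ?_
    · rintro x ⟨hxK, hx⟩
      refine ⟨hxK, ?_⟩
      simp only [mem_setOf_eq] at hx ⊢
      linarith
    · exact ne_top_of_le_ne_top hKfin (measure_mono inter_subset_left)
  have h0 : 0 < volume.real (below K u t) := by rw [ht]; exact mul_pos hδ.1 hKpos
  have h1 : volume.real (below K u t) < volume.real K := by
    rw [ht]; nlinarith [hδ.2]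
  have ha : volume.real (below K u t) < volume.real (below K u (t + ε)) :=
    STRICT K hK hconv hint u hu t (t + ε) (by linarith) h0 h1
  have hb : volume.real (below K u (t - ε)) < volume.real (below K u t) := by
    rcases (measureReal_nonneg (μ := volume) (s := below K u (t - ε))).eq_or_lt with hz | hz
    · rw [← hz]; exact h0
    · exact STRICT K hK hconv hint u hu (t - ε) t (by linarith) hz
        (lt_of_le_of_lt (hmono _ _ (by linarith)) h1)
  set a : ℝ := volume.real (below K u (t + ε)) - volume.real (below K u t) with hadef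
  set b : ℝ := volume.real (below K u t) - volume.real (below K u (t - ε)) with hbdef
  have ha0 : 0 < a := by rw [hadef]; linarith
  have hb0 : 0 < b := by rw [hbdef]; linarith
  refine ⟨min a b / volume.real K, div_pos (lt_min ha0 hb0) hKpos, ?_⟩
  intro d' t' hd hV
  rw [lt_div_iff₀ hKpos] at hd
  by_contra hcon
  push Not at hcon
  rcases le_abs.mp hcon with h | h
  · have h2 := hmono (t + ε) t' (by linarith)
    have h3 := min_le_left a b
    have h4 : (d' - δ) * volume.real K ≤ |d' - δ| * volume.real K :=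
      mul_le_mul_of_nonneg_right (le_abs_self _) hKpos.le
    have h5 : (d' - δ) * volume.real K = d' * volume.real K - δ * volume.real K := by ring
    linarith
  · have h2 := hmono t' (t - ε) (by linarith)
    have h3 := min_le_right a b
    have h4 : -(d' - δ) * volume.real K ≤ |d' - δ| * volume.real K :=
      mul_le_mul_of_nonneg_right (neg_le_abs _) hKpos.le
    have h5 : -(d' - δ) * volume.real K = -(d' * volume.real K) + δ * volume.real K := by ring
    linarith

lemma FC_meas (K : Set E3) (hK : IsCompact K) (u : E3) (t : ℝ) : MeasurableSet (below K u t) := by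
  unfold below
  exact hK.measurableSet.inter (measurableSet_le (by fun_prop) measurable_const)

lemma FC_intx (K : Set E3) (hK : IsCompact K) (A : Set E3) (hAK : A ⊆ K) :
    IntegrableOn (fun x : E3 => x) A volume :=
  (continuous_id.continuousOn.integrableOn_compact hK).mono_set hAK

lemma FC_inti (K : Set E3) (hK : IsCompact K) (A : Set E3) (hAK : A ⊆ K) (v : E3) :
    IntegrableOn (fun x : E3 => ⟪x, v⟫) A volume := by
  have h : Continuous fun x : E3 => ⟪x, v⟫ := by fun_prop
  exact (h.continuousOn.integrableOn_compact hK).mono_set hAK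

lemma FC_sub (K : Set E3) (hK : IsCompact K) (A : Set E3) (hAK : A ⊆ K) (v : E3) (t : ℝ) :
    ∫ x in A, (⟪x, v⟫ - t) = (∫ x in A, ⟪x, v⟫) - t * volume.real A := by
  have hfin : volume A ≠ ⊤ := ne_top_of_le_ne_top hK.measure_lt_top.ne (measure_mono hAK)
  rw [integral_sub (FC_inti K hK A hAK v) (integrableOn_const hfin)]
  rw [setIntegral_const, smul_eq_mul, mul_comm]

lemma FC_inner (K : Set E3) (hK : IsCompact K) (A : Set E3) (hAK : A ⊆ K) (v : E3) :
    ∫ x in A, ⟪x, v⟫ = ⟪∫ x in A, x, v⟫ := by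
  have h := integral_inner (𝕜 := ℝ) (FC_intx K hK A hAK) v
  rw [real_inner_comm, ← h]
  refine integral_congr_ae (Eventually.of_forall fun x => ?_)
  exact real_inner_comm _ _

lemma FC (K : Set E3) (hK : IsCompact K) (hv : 0 < volume.real K) (h0 : ∫ x in K, x = 0) (d : ℝ)
    (hd : d ∈ Ioo (0:ℝ) 1) (hF : FloatsEvery K d) :
    ∃ m : ℝ, ∀ u : E3, ‖u‖ = 1 → ∀ t : ℝ, volume.real (below K u t) = d * volume.real K →
      ∫ x in below K u t, ⟪x, u⟫ = m := by
  have hsub : ∀ (u : E3) (t : ℝ), below K u t ⊆ K := fun u t => inter_subset_left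
  have hvec : ∀ u : E3, ‖u‖ = 1 → ∀ t : ℝ, volume.real (below K u t) = d * volume.real K →
      ∫ x in below K u t, x = (∫ x in below K u t, ⟪x, u⟫) • u := by
    intro u hu t ht
    obtain ⟨c, hc⟩ := hF u hu t ht
    have hdV : 0 < d * volume.real K := mul_pos hd.1 hv
    have hK0 : centroidOf K = 0 := by
      unfold centroidOf
      rw [h0, smul_zero]
    rw [hK0, zero_sub] at hc
    unfold centroidOf at hc
    rw [ht] at hc
    have h1 : ∫ x in below K u t, x = (-(d * volume.real K * c)) • u := by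
      have h2 : (d * volume.real K) • ((d * volume.real K)⁻¹ • ∫ x in below K u t, x) =
          (d * volume.real K) • (-(c • u)) := by
        rw [← hc, neg_neg]
      rw [smul_inv_smul₀ hdV.ne'] at h2
      rw [h2, smul_neg, smul_smul, neg_smul]
    rw [FC_inner K hK _ (hsub u t), h1, real_inner_smul_left, real_inner_self_eq_norm_sq, hu]
    norm_num
  choose! t ht using fun (u : E3) (hu : ‖u‖ = 1) => LEV K hK u hu d hd
  have key : ∀ u v : E3, ‖u‖ = 1 → ‖v‖ = 1 →
      (∫ x in below K v (t v), ⟪x, v⟫) ≤ (∫ x in below K u (t u), ⟪x, u⟫) * ⟪u, v⟫ := by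
    intro u v hu hv1
    have h := BATH K hK v (t v) (below K u (t u)) (FC_meas K hK u (t u)) (hsub u (t u))
    rw [FC_sub K hK _ (hsub _ _), FC_sub K hK _ (hsub _ _), ht v hv1, ht u hu,
      FC_inner K hK (below K u (t u)) (hsub _ _) v, hvec u hu (t u) (ht u hu),
      real_inner_smul_left] at h
    linarith
  have hconst := SPH (fun u => ∫ x in below K u (t u), ⟪x, u⟫) key
  let e : E3 := EuclideanSpace.single 0 1
  have he : ‖e‖ = 1 := by simp [e]
  refine ⟨∫ x in below K e (t e), ⟪x, e⟫, fun u hu s hs => ?_⟩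
  rw [← hconst u e hu he]
  have h1 := BATH K hK u (t u) (below K u s) (FC_meas K hK u s) (hsub u s)
  have h2 := BATH K hK u s (below K u (t u)) (FC_meas K hK u (t u)) (hsub u (t u))
  rw [FC_sub K hK _ (hsub _ _), FC_sub K hK _ (hsub _ _), ht u hu, hs] at h1
  rw [FC_sub K hK _ (hsub _ _), FC_sub K hK _ (hsub _ _), ht u hu, hs] at h2
  linarith

lemma meas_below251 (K : Set E3) (hK : IsCompact K) (u : E3) (t : ℝ) :
    MeasurableSet (below K u t) := by
  have h : IsClosed {x : E3 | ⟪x, u⟫ ≤ t} :=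
    isClosed_le (continuous_id.inner continuous_const) continuous_const
  exact hK.measurableSet.inter h.measurableSet

lemma int_below251 (K : Set E3) (hK : IsCompact K) (u : E3) (t τ : ℝ) :
    ∫ x in below K u t, (⟪x, u⟫ - τ) =
      (∫ x in below K u t, ⟪x, u⟫) - τ * volume.real (below K u t) := by
  have hsub : below K u t ⊆ K := inter_subset_left
  have h1 : IntegrableOn (fun x : E3 => ⟪x, u⟫) (below K u t) :=
    ((continuous_id.inner continuous_const).continuousOn.integrableOn_compact hK).mono_set hsub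
  have h2 : IntegrableOn (fun _ : E3 => τ) (below K u t) :=
    (continuous_const.continuousOn.integrableOn_compact hK).mono_set hsub
  rw [integral_sub h1 h2, setIntegral_const, smul_eq_mul]
  ring

lemma ORD (K : Set E3) (hK : IsCompact K) (hv : 0 < volume.real K) (h0 : ∫ x in K, x = 0)
    (d₁ d₂ : ℝ) (hd₁ : d₁ ∈ floatSet K) (hd₂ : d₂ ∈ floatSet K) (hlt : d₁ < d₂)
    (u v : E3) (hu : ‖u‖ = 1) (hv' : ‖v‖ = 1) (t s : ℝ)
    (ht : volume.real (below K u t) = d₁ * volume.real K)
    (hs : volume.real (below K v s) = d₂ * volume.real K) : t ≤ s := by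
  obtain ⟨m1, hm1⟩ := FC K hK hv h0 d₁ hd₁.1 hd₁.2
  obtain ⟨m2, hm2⟩ := FC K hK hv h0 d₂ hd₂.1 hd₂.2
  obtain ⟨t2, ht2⟩ := LEV K hK u hu d₂ hd₂.1
  obtain ⟨t1, ht1⟩ := LEV K hK v hv' d₁ hd₁.1
  have a := BATH K hK u t (below K u t2) (meas_below251 K hK u t2) inter_subset_left
  have b := BATH K hK v s (below K v t1) (meas_below251 K hK v t1) inter_subset_left
  rw [int_below251 K hK, int_below251 K hK, hm1 u hu t ht, hm2 u hu t2 ht2, ht, ht2] at a
  rw [int_below251 K hK, int_below251 K hK, hm2 v hv' s hs, hm1 v hv' t1 ht1, hs, ht1] at b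
  have hpos : 0 < (d₂ - d₁) * volume.real K := mul_pos (by linarith) hv
  have c : t * ((d₂ - d₁) * volume.real K) ≤ s * ((d₂ - d₁) * volume.real K) := by
    linarith
  exact le_of_mul_le_mul_right c hpos

lemma LCONST_pair (S : Set ℝ) (δ : ℝ) (hacc : AccPt δ (𝓟 S)) (η : ℝ) (hη : 0 < η) :
    ∃ d₁ d₂ : ℝ, d₁ ∈ S ∧ d₂ ∈ S ∧ d₁ < d₂ ∧ |d₁ - δ| < η ∧ |d₂ - δ| < η := by
  rw [accPt_iff_nhds] at hacc
  obtain ⟨a, ⟨ha1, ha2⟩, ha3⟩ := hacc (Metric.ball δ η) (Metric.ball_mem_nhds δ hη)
  have hpos : 0 < |a - δ| := abs_pos.mpr (sub_ne_zero.mpr ha3)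
  obtain ⟨b, ⟨hb1, hb2⟩, hb3⟩ := hacc (Metric.ball δ |a - δ|) (Metric.ball_mem_nhds δ hpos)
  rw [Metric.mem_ball, Real.dist_eq] at ha1 hb1
  have hne : a ≠ b := by
    intro h
    rw [h] at hb1
    exact lt_irrefl _ hb1
  rcases lt_or_gt_of_ne hne with h | h
  · exact ⟨a, b, ha2, hb2, h, ha1, hb1.trans ha1⟩
  · exact ⟨b, a, hb2, ha2, h, hb1.trans ha1, ha1⟩

lemma LCONST_aux (K : Set E3) (hK : IsCompact K) (hconv : Convex ℝ K) (hint : (interior K).Nonempty)
    (h0 : ∫ x in K, x = 0) (δ : ℝ) (hδ : δ ∈ Ioo (0:ℝ) 1) (hacc : AccPt δ (𝓟 (floatSet K)))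
    (u v : E3) (hu : ‖u‖ = 1) (hv : ‖v‖ = 1) (t s : ℝ)
    (ht : volume.real (below K u t) = δ * volume.real K)
    (hs : volume.real (below K v s) = δ * volume.real K) : s ≤ t := by
  by_contra hcon
  push Not at hcon
  have hvol : 0 < volume.real K := by
    rw [Measure.real, ENNReal.toReal_pos_iff]
    refine ⟨?_, hK.measure_lt_top⟩
    exact (isOpen_interior.measure_pos volume hint).trans_le (measure_mono interior_subset)
  have hε : 0 < (s - t) / 3 := by linarith
  obtain ⟨η1, hη1, h1⟩ := LCONT K hK hconv hint u hu δ hδ t ht _ hε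
  obtain ⟨η2, hη2, h2⟩ := LCONT K hK hconv hint v hv δ hδ s hs _ hε
  obtain ⟨d₁, d₂, hd₁, hd₂, hlt, hc1, hc2⟩ := LCONST_pair _ δ hacc (min η1 η2) (lt_min hη1 hη2)
  obtain ⟨s1, hs1⟩ := LEV K hK v hv d₁ hd₁.1
  obtain ⟨t2, ht2⟩ := LEV K hK u hu d₂ hd₂.1
  have h3 := h1 d₂ t2 (hc2.trans_le (min_le_left _ _)) ht2
  have h4 := h2 d₁ s1 (hc1.trans_le (min_le_right _ _)) hs1
  have h5 := ORD K hK hvol h0 d₁ d₂ hd₁ hd₂ hlt v u hv hu s1 t2 hs1 ht2
  rw [abs_lt] at h3 h4
  linarith [h3.1, h3.2, h4.1, h4.2]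

lemma LCONST (K : Set E3) (hK : IsCompact K) (hconv : Convex ℝ K) (hint : (interior K).Nonempty)
    (h0 : ∫ x in K, x = 0) (δ : ℝ) (hδ : δ ∈ Ioo (0:ℝ) 1) (hacc : AccPt δ (𝓟 (floatSet K)))
    (u v : E3) (hu : ‖u‖ = 1) (hv : ‖v‖ = 1) (t s : ℝ)
    (ht : volume.real (below K u t) = δ * volume.real K)
    (hs : volume.real (below K v s) = δ * volume.real K) : t = s :=
  le_antisymm (LCONST_aux K hK hconv hint h0 δ hδ hacc v u hv hu s t hs ht)
    (LCONST_aux K hK hconv hint h0 δ hδ hacc u v hu hv t s ht hs)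

lemma SUPP (K : Set E3) (hK : IsCompact K) (hconv : Convex ℝ K) (hne : K.Nonempty) :
    ∃ (v : E3) (R : ℝ), ‖v‖ = 1 ∧ (∀ x ∈ K, ⟪x, v⟫ ≤ R) ∧ Metric.closedBall (0:E3) R ⊆ K := by
  classical
  have hfc : Continuous (Function.uncurry fun (u x : E3) => (⟪x, u⟫ : ℝ)) := by
    unfold Function.uncurry
    fun_prop
  have hcont : Continuous (fun u : E3 => sSup ((fun x : E3 => (⟪x, u⟫ : ℝ)) '' K)) :=
    hK.continuous_sSup hfc
  have hsne : (Metric.sphere (0 : E3) 1).Nonempty := by
    refine ⟨EuclideanSpace.single 0 1, ?_⟩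
    simp
  obtain ⟨v, hv, hmin⟩ := (isCompact_sphere (0 : E3) 1).exists_isMinOn hsne hcont.continuousOn
  have hbdd : ∀ u : E3, BddAbove ((fun x : E3 => (⟪x, u⟫ : ℝ)) '' K) := by
    intro u
    have h1 : Continuous (fun x : E3 => (⟪x, u⟫ : ℝ)) := by fun_prop
    exact (hK.image h1).bddAbove
  refine ⟨v, sSup ((fun x : E3 => (⟪x, v⟫ : ℝ)) '' K), by simpa using hv, ?_, ?_⟩
  · intro x hx
    exact le_csSup (hbdd v) ⟨x, hx, rfl⟩
  · intro y hy
    by_contra hyK
    obtain ⟨f, s, hs1, hs2⟩ := geometric_hahn_banach_closed_point hconv hK.isClosed hyK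
    obtain ⟨w, hw⟩ : ∃ w : E3, ∀ x, (⟪w, x⟫ : ℝ) = f x :=
      ⟨(InnerProductSpace.toDual ℝ E3).symm f, fun x => InnerProductSpace.toDual_symm_apply⟩
    have hw0 : w ≠ 0 := by
      rintro rfl
      obtain ⟨a, ha⟩ := hne
      have h1 := hs1 a ha
      rw [← hw a, inner_zero_left] at h1
      rw [← hw y, inner_zero_left] at hs2
      linarith
    have hwn : 0 < ‖w‖ := norm_pos_iff.2 hw0
    have hu : ‖(‖w‖⁻¹ • w : E3)‖ = 1 := by
      rw [norm_smul, norm_inv, norm_norm, inv_mul_cancel₀ hwn.ne']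
    have hinner : ∀ x : E3, (⟪x, (‖w‖⁻¹ • w : E3)⟫ : ℝ) = ‖w‖⁻¹ * f x := by
      intro x
      rw [inner_smul_right, real_inner_comm, hw]
    have h1 : sSup ((fun x : E3 => (⟪x, (‖w‖⁻¹ • w : E3)⟫ : ℝ)) '' K) ≤ ‖w‖⁻¹ * s := by
      refine csSup_le (hne.image _) ?_
      rintro _ ⟨x, hx, rfl⟩
      simp only [hinner]
      have := (hs1 x hx).le
      gcongr
    have h2 : ‖w‖⁻¹ * s < ‖w‖⁻¹ * f y := by
      have := inv_pos.2 hwn
      gcongr
    have h3 : ‖w‖⁻¹ * f y ≤ ‖y‖ := by
      rw [← hinner]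
      have := real_inner_le_norm y (‖w‖⁻¹ • w : E3)
      rw [hu, mul_one] at this
      exact this
    have h4 : ‖y‖ ≤ sSup ((fun x : E3 => (⟪x, v⟫ : ℝ)) '' K) := by simpa using hy
    have h5 : sSup ((fun x : E3 => (⟪x, v⟫ : ℝ)) '' K) ≤
        sSup ((fun x : E3 => (⟪x, (‖w‖⁻¹ • w : E3)⟫ : ℝ)) '' K) := by
      have h6 : (‖w‖⁻¹ • w : E3) ∈ Metric.sphere (0 : E3) 1 := by
        rw [mem_sphere_zero_iff_norm]
        exact hu
      exact hmin h6
    linarith

lemma TAUI (K : Set E3) (hK : IsCompact K) (hvol : 0 < volume.real K) (v : E3) (R : ℝ)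
    (hv : ‖v‖ = 1) (hR : ∀ x ∈ K, ⟪x, v⟫ ≤ R) (δ τ : ℝ) (hδ : δ ∈ Ioo (0:ℝ) 1)
    (hτ : ∀ u : E3, ‖u‖ = 1 → volume.real (below K u τ) = δ * volume.real K) :
    τ ∈ Ioo (-R) R := by
  have hvv : ⟪v, v⟫ = (1 : ℝ) := by rw [real_inner_self_eq_norm_sq, hv]; norm_num
  constructor
  · by_contra hcon
    have hcon' : τ ≤ -R := not_lt.mp hcon
    have h1 := hτ (-v) (by rw [norm_neg, hv])
    have hsub : below K (-v) τ ⊆
        ((AffineSubspace.mk' (R • v) ((ℝ ∙ v)ᗮ) : AffineSubspace ℝ E3) : Set E3) := by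
      intro x hx
      have hxK := hx.1
      have hx2 : ⟪x, -v⟫ ≤ τ := hx.2
      rw [inner_neg_right] at hx2
      have hx3 := hR x hxK
      have hx4 : ⟪x, v⟫ = R := le_antisymm hx3 (by linarith)
      rw [SetLike.mem_coe, AffineSubspace.mem_mk', Submodule.mem_orthogonal_singleton_iff_inner_right,
        vsub_eq_sub, inner_sub_right, inner_smul_right, hvv, real_inner_comm, hx4]
      ring
    have hne : (AffineSubspace.mk' (R • v) ((ℝ ∙ v)ᗮ) : AffineSubspace ℝ E3) ≠ ⊤ := by
      intro htop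
      have h2 : (R • v + v) ∈ (AffineSubspace.mk' (R • v) ((ℝ ∙ v)ᗮ) : AffineSubspace ℝ E3) := by
        rw [htop]; exact AffineSubspace.mem_top ℝ E3 _
      rw [AffineSubspace.mem_mk', Submodule.mem_orthogonal_singleton_iff_inner_right,
        vsub_eq_sub, add_sub_cancel_left, hvv] at h2
      exact one_ne_zero h2
    have h0 : volume ((AffineSubspace.mk' (R • v) ((ℝ ∙ v)ᗮ) : AffineSubspace ℝ E3) : Set E3) = 0 :=
      Measure.addHaar_affineSubspace volume _ hne
    have h3 : volume (below K (-v) τ) = 0 := measure_mono_null hsub h0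
    have h4 : volume.real (below K (-v) τ) = 0 := by
      rw [measureReal_def, h3, ENNReal.toReal_zero]
    rw [h4] at h1
    have h5 : 0 < δ * volume.real K := mul_pos hδ.1 hvol
    linarith
  · by_contra hcon
    have hcon' : R ≤ τ := not_lt.mp hcon
    have h1 := hτ v hv
    have h2 : below K v τ = K := by
      apply Set.inter_eq_left.mpr
      intro x hx
      exact (hR x hx).trans hcon'
    rw [h2] at h1
    have h5 : δ * volume.real K < 1 * volume.real K := mul_lt_mul_of_pos_right hδ.2 hvol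
    linarith

lemma FINB (K : Set E3) (hK : IsCompact K) (hconv : Convex ℝ K) (hint : (interior K).Nonempty)
    (v : E3) (R : ℝ) (hv : ‖v‖ = 1) (hR : ∀ x ∈ K, ⟪x, v⟫ ≤ R)
    (hB : Metric.closedBall (0:E3) R ⊆ K)
    (hW : ∃ c : ℝ, ∀ u : E3, u ≠ 0 → volume.real (K ∩ {x : E3 | ⟪x, u⟫ ≤ R * ‖u‖}) = c) :
    K = Metric.closedBall (0:E3) R := by
  refine Subset.antisymm (fun y hy => ?_) hB
  by_contra hcon
  rw [mem_closedBall_zero_iff, not_le] at hcon
  have hy0 : y ≠ 0 := by
    rintro rfl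
    have := hR 0 hy
    rw [inner_zero_left] at this
    rw [norm_zero] at hcon
    linarith
  obtain ⟨c, hc⟩ := hW
  have hfin : volume K ≠ ⊤ := hK.measure_lt_top.ne
  have hv0 : v ≠ 0 := by
    rintro rfl
    rw [norm_zero] at hv
    exact zero_ne_one hv
  have h1 := hc v hv0
  have h2 : K ∩ {x : E3 | ⟪x, v⟫ ≤ R * ‖v‖} = K := by
    apply inter_eq_left.2
    intro x hx
    show ⟪x, v⟫ ≤ R * ‖v‖
    rw [hv, mul_one]
    exact hR x hx
  rw [h2] at h1
  have h3 := hc y hy0
  rw [← h1] at h3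
  have hAc : IsClosed {x : E3 | ⟪x, y⟫ ≤ R * ‖y‖} :=
    isClosed_le (continuous_id.inner continuous_const) continuous_const
  have hyA : y ∈ {x : E3 | ⟪x, y⟫ ≤ R * ‖y‖}ᶜ := by
    show ¬ (⟪y, y⟫ ≤ R * ‖y‖)
    rw [real_inner_self_eq_norm_mul_norm, not_le]
    exact mul_lt_mul_of_pos_right hcon (norm_pos_iff.2 hy0)
  generalize {x : E3 | ⟪x, y⟫ ≤ R * ‖y‖} = A at *
  have h4 : volume.real (K ∩ A) + volume.real (K \ A) = volume.real K :=
    measureReal_inter_add_sdiff hAc.measurableSet hfin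
  have h5 : volume.real (K \ A) = 0 := by linarith
  have hO : IsOpen (interior K ∩ Aᶜ) := isOpen_interior.inter hAc.isOpen_compl
  have hne : (interior K ∩ Aᶜ).Nonempty := by
    have hyc : y ∈ closure (interior K) := by
      rw [hconv.closure_interior_eq_closure_of_nonempty_interior hint]
      exact subset_closure hy
    obtain ⟨z, hz⟩ := mem_closure_iff.1 hyc Aᶜ hAc.isOpen_compl hyA
    exact ⟨z, hz.2, hz.1⟩
  have hpos : 0 < volume (interior K ∩ Aᶜ) := hO.measure_pos volume hne
  have hsub : interior K ∩ Aᶜ ⊆ K \ A := fun z hz => ⟨interior_subset hz.1, hz.2⟩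
  have hfin2 : volume (K \ A) ≠ ⊤ := (lt_of_le_of_lt (measure_mono sdiff_subset) hK.measure_lt_top).ne
  have h6 : volume (K \ A) = 0 := (measureReal_eq_zero_iff hfin2).1 h5
  have h7 := measure_mono (μ := volume) hsub
  rw [h6] at h7
  exact absurd hpos (not_lt.2 h7)

lemma TRANS_cen (K A : Set E3) (hK : IsCompact K) (hA : A ⊆ K) (g : E3)
    (hvol : 0 < volume.real A) :
    centroidOf ((fun x : E3 => x + g) ⁻¹' A) = centroidOf A - g := by
  have hv : volume.real ((fun x : E3 => x + g) ⁻¹' A) = volume.real A := by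
    unfold Measure.real
    rw [measure_preimage_add_right]
  have hfin : volume A < ⊤ := lt_of_le_of_lt (measure_mono hA) hK.measure_lt_top
  have hi : ∫ x in (fun x : E3 => x + g) ⁻¹' A, x = (∫ x in A, x) - volume.real A • g := by
    have h1 := (measurePreserving_add_right (volume : Measure E3) g).setIntegral_preimage_emb
      (MeasurableEquiv.addRight g).measurableEmbedding (fun y => y - g) A
    have h2 : ∫ x in (fun x : E3 => x + g) ⁻¹' A, x =
        ∫ x in (fun x : E3 => x + g) ⁻¹' A, ((x + g) - g) := by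
      simp
    rw [h2]
    refine h1.trans ?_
    have hint : IntegrableOn (fun x : E3 => x) A volume :=
      (continuous_id.continuousOn.integrableOn_compact hK).mono_set hA
    have hc : IntegrableOn (fun _ : E3 => g) A volume := integrableOn_const hfin.ne
    rw [integral_sub hint hc]
    simp
  unfold centroidOf
  rw [hv, hi, smul_sub, smul_smul, inv_mul_cancel₀ hvol.ne', one_smul]

lemma TRANS (K : Set E3) (hK : IsCompact K) (g : E3) (d : ℝ) (hvol : 0 < volume.real K)
    (hd : d ∈ Ioo (0:ℝ) 1) (hF : FloatsEvery K d) :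
    FloatsEvery ((fun x => x - g) '' K) d := by
  have him : (fun x => x - g) '' K = (fun x : E3 => x + g) ⁻¹' K := by
    ext x
    constructor
    · rintro ⟨y, hy, rfl⟩
      simpa using hy
    · intro hx
      exact ⟨x + g, hx, by simp⟩
  intro u hu t ht
  rw [him] at ht ⊢
  have hb : below ((fun x : E3 => x + g) ⁻¹' K) u t =
      (fun x : E3 => x + g) ⁻¹' (below K u (t + ⟪g, u⟫)) := by
    ext x
    simp only [below, mem_inter_iff, mem_preimage, mem_ofPred_eq, inner_add_left,
      add_le_add_iff_right]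
  rw [hb] at ht ⊢
  have hv : ∀ A : Set E3, volume.real ((fun x : E3 => x + g) ⁻¹' A) = volume.real A := by
    intro A
    unfold Measure.real
    rw [measure_preimage_add_right]
  rw [hv, hv] at ht
  obtain ⟨c, hc⟩ := hF u hu _ ht
  refine ⟨c, ?_⟩
  have hpos : 0 < volume.real (below K u (t + ⟪g, u⟫)) := by
    rw [ht]
    exact mul_pos hd.1 hvol
  rw [TRANS_cen K K hK le_rfl g hvol,
    TRANS_cen K (below K u (t + ⟪g, u⟫)) hK inter_subset_left g hpos, ← hc]
  abel

lemma UNC (D : Set ℝ) (hD : D ⊆ Ioo (0:ℝ) 1) (hunc : ¬ D.Countable) :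
    {δ : ℝ | δ ∈ Ioo (0:ℝ) 1 ∧ AccPt δ (𝓟 D)}.Infinite := by
  intro hfin
  apply hunc
  have hI : {x | x ∈ D ∧ ¬ AccPt x (𝓟 D)}.Countable := by
    have hsub : {x | x ∈ D ∧ ¬ AccPt x (𝓟 D)} ⊆
        ⋃ t ∈ TopologicalSpace.countableBasis ℝ, {x | x ∈ t ∧ ∀ y ∈ t ∩ D, y = x} ∩ D := by
      rintro x ⟨hx, hacc⟩
      rw [accPt_iff_nhds] at hacc
      push Not at hacc
      obtain ⟨U, hU, hUx⟩ := hacc
      obtain ⟨t, ht, hxt, htU⟩ :=
        (TopologicalSpace.isBasis_countableBasis ℝ).mem_nhds_iff.mp hU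
      refine Set.mem_biUnion ht ⟨⟨hxt, fun y hy => hUx y ⟨htU hy.1, hy.2⟩⟩, hx⟩
    refine Set.Countable.mono hsub ?_
    refine (TopologicalSpace.countable_countableBasis ℝ).biUnion fun t _ => ?_
    apply Set.Subsingleton.countable
    rintro x ⟨⟨hxt, hx⟩, hxD⟩ y ⟨⟨hyt, hy⟩, hyD⟩
    exact hy x ⟨hxt, hxD⟩
  refine Set.Countable.mono ?_ (hI.union hfin.countable)
  intro x hx
  by_cases h : AccPt x (𝓟 D)
  · exact Or.inr ⟨hD hx, h⟩
  · exact Or.inl ⟨hx, h⟩

lemma H0 (K : Set E3) (hK : IsCompact K) (hvol : 0 < volume.real K) :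
    ∫ x in (fun x => x - centroidOf K) '' K, x = 0 := by
  have hmp : MeasurePreserving (fun x : E3 => x - centroidOf K) volume volume :=
    measurePreserving_sub_right volume (centroidOf K)
  have hemb : MeasurableEmbedding (fun x : E3 => x - centroidOf K) :=
    (MeasurableEquiv.subRight (centroidOf K)).measurableEmbedding
  rw [hmp.setIntegral_image_emb hemb (fun x => x) K]
  have h1 : IntegrableOn (fun x : E3 => x) K volume := continuousOn_id.integrableOn_compact hK
  have h2 : IntegrableOn (fun _ : E3 => centroidOf K) K volume :=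
    continuousOn_const.integrableOn_compact hK
  rw [integral_sub h1 h2, setIntegral_const]
  unfold centroidOf
  rw [smul_smul, mul_inv_cancel₀ hvol.ne', one_smul, sub_self]

lemma sym_null (u : E3) (hu : ‖u‖ = 1) (t : ℝ) : volume {x : E3 | ⟪x, u⟫ = t} = 0 := by
  have huu : ⟪u, u⟫ = (1 : ℝ) := by rw [real_inner_self_eq_norm_sq, hu]; norm_num
  have hne : AffineSubspace.mk' (t • u) (Submodule.span ℝ {u})ᗮ ≠ ⊤ := by
    intro h
    have h1 : t • u + u ∈ AffineSubspace.mk' (t • u) (Submodule.span ℝ {u})ᗮ := by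
      rw [h]; exact AffineSubspace.mem_top ℝ E3 _
    rw [AffineSubspace.mem_mk', vsub_eq_sub, add_sub_cancel_left,
      Submodule.mem_orthogonal_singleton_iff_inner_right, huu] at h1
    exact one_ne_zero h1
  refine measure_mono_null ?_ (Measure.addHaar_affineSubspace volume _ hne)
  intro x hx
  have hx' : ⟪x, u⟫ = t := hx
  rw [SetLike.mem_coe, AffineSubspace.mem_mk', vsub_eq_sub,
    Submodule.mem_orthogonal_singleton_iff_inner_right, inner_sub_right, inner_smul_right, huu,
    real_inner_comm, hx']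
  ring

lemma SYM (K : Set E3) (hK : IsCompact K) (hvol : 0 < volume.real K) (d : ℝ)
    (hd : d ∈ floatSet K) : 1 - d ∈ floatSet K := by
  obtain ⟨⟨hd0, hd1⟩, hfl⟩ := hd
  refine ⟨⟨by linarith, by linarith⟩, ?_⟩
  intro u hu t ht
  have hnull := sym_null u hu t
  have hKm : MeasurableSet K := hK.measurableSet
  have hAm : MeasurableSet (below K u t) := by
    refine hKm.inter (IsClosed.measurableSet ?_)
    exact isClosed_le (by fun_prop) continuous_const
  have hAK : below K u t ⊆ K := inter_subset_left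
  have hKfin : volume K ≠ ⊤ := hK.measure_lt_top.ne
  have hint : IntegrableOn (fun x : E3 => x) K volume :=
    continuous_id.continuousOn.integrableOn_compact hK
  have hae : (below K (-u) (-t) : Set E3) =ᵐ[volume] (K \ below K u t : Set E3) := by
    have h1 : ∀ᵐ x : E3 ∂volume, x ∉ {x : E3 | ⟪x, u⟫ = t} := measure_eq_zero_iff_ae_notMem.1 hnull
    filter_upwards [h1] with x hx
    apply propext
    change (x ∈ K ∧ ⟪x, -u⟫ ≤ -t) ↔ (x ∈ K ∧ ¬ (x ∈ K ∧ ⟪x, u⟫ ≤ t))
    rw [inner_neg_right]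
    have hx' : ⟪x, u⟫ ≠ t := hx
    constructor
    · rintro ⟨h1, h2⟩
      refine ⟨h1, fun h3 => hx' (le_antisymm h3.2 (by linarith))⟩
    · rintro ⟨h1, h2⟩
      refine ⟨h1, ?_⟩
      by_contra h3
      push Not at h3
      exact h2 ⟨h1, by linarith⟩
  have hvB : volume.real (below K (-u) (-t)) = d * volume.real K := by
    rw [measureReal_congr hae]
    have := measureReal_sdiff_add_inter (μ := volume) (s := K) hAm hKfin
    rw [inter_eq_self_of_subset_right hAK, ht] at this
    linarith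
  have hIB : ∫ x in below K (-u) (-t), x = (∫ x in K, x) - ∫ x in below K u t, x := by
    rw [setIntegral_congr_set hae, setIntegral_sdiff hAm hint hAK]
  obtain ⟨c, hc⟩ := hfl (-u) (by rw [norm_neg]; exact hu) (-t) hvB
  unfold centroidOf at hc ⊢
  rw [hvB] at hc
  rw [ht]
  have hIA : ∫ x in below K u t, x = (∫ x in K, x) - ∫ x in below K (-u) (-t), x := by
    rw [hIB]; abel
  rw [hIA]
  generalize (∫ x in below K (-u) (-t), x) = IB at *
  generalize (∫ x in K, x) = IK at *
  generalize volume.real K = V at *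
  have hdV : d * V ≠ 0 := (mul_pos hd0 hvol).ne'
  have hV : V ≠ 0 := hvol.ne'
  have h1d : (1 - d) ≠ 0 := by linarith
  have hd0' : d ≠ 0 := hd0.ne'
  have e1 : (d * V)⁻¹ • IB = V⁻¹ • IK + c • u := by
    rw [smul_neg] at hc
    rw [sub_eq_iff_eq_add] at hc
    rw [hc]; abel
  have e2 : IB = (d * V) • (V⁻¹ • IK + c • u) := by
    rw [← e1, smul_smul, mul_inv_cancel₀ hdV, one_smul]
  refine ⟨d * c / (1 - d), ?_⟩
  rw [e2]
  match_scalars
  · field_simp
    ring
  · field_simp

lemma LMIN (K : Set E3) (hK : IsCompact K) (hconv : Convex ℝ K) (hint : (interior K).Nonempty)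
    (u : E3) (hu : ‖u‖ = 1) (y : E3) (hy : y ∈ K) (ε : ℝ) (hε : 0 < ε) :
    ∃ η : ℝ, 0 < η ∧ ∀ d t : ℝ, d < η → volume.real (below K u t) = d * volume.real K →
      t < ⟪y, u⟫ + ε := by
  have hKtop : volume K ≠ ⊤ := hK.measure_lt_top.ne
  have hbtop : ∀ t, volume (below K u t) ≠ ⊤ := fun t =>
    ne_top_of_le_ne_top hKtop (measure_mono inter_subset_left)
  have hKpos : 0 < volume.real K := by
    rw [measureReal_def]
    refine ENNReal.toReal_pos ?_ hKtop
    exact (lt_of_lt_of_le (isOpen_interior.measure_pos volume hint)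
      (measure_mono interior_subset)).ne'
  have hcl : y ∈ closure (interior K) := by
    rw [hconv.closure_interior_eq_closure_of_nonempty_interior hint]
    exact subset_closure hy
  have hopen : IsOpen {x : E3 | ⟪x, u⟫ < ⟪y, u⟫ + ε} :=
    isOpen_lt (by fun_prop) continuous_const
  obtain ⟨z, hz1, hz2⟩ := mem_closure_iff.1 hcl _ hopen (by
    show ⟪y, u⟫ < ⟪y, u⟫ + ε
    linarith)
  have hVpos : 0 < volume.real (below K u (⟪y, u⟫ + ε)) := by
    rw [measureReal_def]
    refine ENNReal.toReal_pos ?_ (hbtop _)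
    have hO : IsOpen (interior K ∩ {x : E3 | ⟪x, u⟫ < ⟪y, u⟫ + ε}) := isOpen_interior.inter hopen
    have h1 := hO.measure_pos volume ⟨z, hz2, hz1⟩
    have h2 : interior K ∩ {x : E3 | ⟪x, u⟫ < ⟪y, u⟫ + ε} ⊆ below K u (⟪y, u⟫ + ε) :=
      fun x hx => ⟨interior_subset hx.1, (show ⟪x, u⟫ ≤ ⟪y, u⟫ + ε from
        le_of_lt (show ⟪x, u⟫ < ⟪y, u⟫ + ε from hx.2))⟩
    exact (lt_of_lt_of_le h1 (measure_mono h2)).ne'
  refine ⟨volume.real (below K u (⟪y, u⟫ + ε)) / volume.real K, div_pos hVpos hKpos, ?_⟩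
  intro d t hd ht
  by_contra hcon
  push Not at hcon
  have hmono : volume.real (below K u (⟪y, u⟫ + ε)) ≤ volume.real (below K u t) := by
    refine measureReal_mono ?_ (hbtop t)
    exact fun x hx => ⟨hx.1, le_trans hx.2 hcon⟩
  rw [ht] at hmono
  rw [lt_div_iff₀ hKpos] at hd
  linarith

lemma below_compact (K : Set E3) (hK : IsCompact K) (u : E3) (t : ℝ) :
    IsCompact (below K u t) := by
  unfold below
  apply hK.inter_right
  exact isClosed_le (by fun_prop) continuous_const

lemma EZERO (K : Set E3) (hK : IsCompact K) (hconv : Convex ℝ K) (hint : (interior K).Nonempty)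
    (h0 : ∫ x in K, x = 0) (hacc : AccPt (0:ℝ) (𝓟 (floatSet K)))
    (u v : E3) (hu : ‖u‖ = 1) (hv : ‖v‖ = 1) (s : ℝ) (hs : ∀ x ∈ K, s ≤ ⟪x, v⟫)
    (y : E3) (hy : y ∈ K) : s ≤ ⟪y, u⟫ := by
  have hvol : 0 < volume.real K := by
    rw [Measure.real, ENNReal.toReal_pos_iff]
    exact ⟨MeasureTheory.Measure.measure_pos_of_nonempty_interior _ hint, hK.measure_lt_top⟩
  refine le_of_forall_pos_le_add (fun ε hε => ?_)
  obtain ⟨η, hη, hmin⟩ := LMIN K hK hconv hint u hu y hy ε hε
  rw [accPt_iff_frequently] at hacc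
  have hev : ∀ᶠ d : ℝ in 𝓝 0, d < η := Iio_mem_nhds hη
  obtain ⟨d, ⟨_, hdF⟩, hdη⟩ := (hacc.and_eventually hev).exists
  obtain ⟨hd01, hdE⟩ := hdF
  obtain ⟨t, ht⟩ := LEV K hK v hv d hd01
  obtain ⟨t', ht'⟩ := LEV K hK u hu d hd01
  obtain ⟨m, hm⟩ := FC K hK hvol h0 d hd01 hdE
  have m1 := hm v hv t ht
  have m2 := hm u hu t' ht'
  have hdv : 0 < d * volume.real K := mul_pos hd01.1 hvol
  have c1 := below_compact K hK v t
  have c2 := below_compact K hK u t'
  have i1 : IntegrableOn (fun x : E3 => ⟪x, v⟫) (below K v t) volume :=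
    ContinuousOn.integrableOn_compact c1 (by fun_prop)
  have i2 : IntegrableOn (fun x : E3 => ⟪x, u⟫) (below K u t') volume :=
    ContinuousOn.integrableOn_compact c2 (by fun_prop)
  have g1 : s * (d * volume.real K) ≤ m := by
    rw [← m1, ← ht]
    have := setIntegral_mono_on (μ := volume) (f := fun _ : E3 => s) (g := fun x : E3 => ⟪x, v⟫)
      (s := below K v t)
      (integrableOn_const c1.measure_lt_top.ne) i1 c1.measurableSet
      (fun x hx => hs x hx.1)
    rw [setIntegral_const, smul_eq_mul, mul_comm] at this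
    exact this
  have g2 : m ≤ t' * (d * volume.real K) := by
    rw [← m2, ← ht']
    have := setIntegral_mono_on (μ := volume) (g := fun _ : E3 => t') (f := fun x : E3 => ⟪x, u⟫)
      (s := below K u t') i2
      (integrableOn_const c2.measure_lt_top.ne) c2.measurableSet
      (fun x hx => hx.2)
    rw [setIntegral_const, smul_eq_mul, mul_comm (volume.real _)] at this
    exact this
  have g3 : s ≤ t' := le_of_mul_le_mul_right (g1.trans g2) hdv
  exact g3.trans (hmin d t' hdη ht').le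

/-- centroid at the origin -/
theorem MAIN0 (K : Set E3) (hK : IsCompact K) (hconv : Convex ℝ K) (hint : (interior K).Nonempty)
    (h0 : ∫ x in K, x = 0)
    (hinf : {δ : ℝ | δ ∈ Ioo (0:ℝ) 1 ∧ AccPt δ (𝓟 (floatSet K))}.Infinite) :
    ∃ r : ℝ, 0 < r ∧ K = Metric.closedBall (0:E3) r := by
  classical
  have hvol : 0 < volume.real K := by
    have h1 : 0 < volume (interior K) := isOpen_interior.measure_pos volume hint
    have h2 : 0 < volume K := h1.trans_le (measure_mono interior_subset)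
    exact ENNReal.toReal_pos h2.ne' hK.measure_lt_top.ne
  obtain ⟨v, R, hv, hR, hB⟩ := SUPP K hK hconv (hint.mono interior_subset)
  set A : Set ℝ := {δ : ℝ | δ ∈ Ioo (0:ℝ) 1 ∧ AccPt δ (𝓟 (floatSet K))} with hA
  -- the level function
  choose! lev hlev using fun (δ : ℝ) (hδ : δ ∈ A) => LEV K hK v hv δ hδ.1
  have hall : ∀ δ ∈ A, ∀ u : E3, ‖u‖ = 1 →
      volume.real (below K u (lev δ)) = δ * volume.real K := by
    intro δ hδ u hu
    obtain ⟨t, ht⟩ := LEV K hK u hu δ hδ.1
    have := LCONST K hK hconv hint h0 δ hδ.1 hδ.2 u v hu hv t (lev δ) ht (hlev δ hδ)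
    rw [← this]; exact ht
  have hin : ∀ δ ∈ A, lev δ ∈ Ioo (-R) R := fun δ hδ =>
    TAUI K hK hvol v R hv hR δ (lev δ) hδ.1 (hall δ hδ)
  have hinj : InjOn lev A := by
    intro a ha b hb hab
    have h1 := hlev a ha
    have h2 := hlev b hb
    rw [hab, h2] at h1
    exact (mul_right_cancel₀ hvol.ne' h1).symm
  have hTinf : (lev '' A).Infinite := hinf.image hinj
  obtain ⟨δ0, hδ0⟩ := hinf.nonempty
  have hRpos : 0 < R := by
    have := hin δ0 hδ0
    linarith [this.1, this.2]
  have hcore := CORE K hK R hRpos (Metric.ball_subset_closedBall.trans hB) (lev '' A) hTinf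
    (by rintro _ ⟨δ, hδ, rfl⟩; exact Ioo_subset_Icc_self (hin δ hδ))
    (by
      rintro _ ⟨δ, hδ, rfl⟩
      refine ⟨δ * volume.real K, fun u hu => ?_⟩
      have hun : ‖(‖u‖⁻¹ • u)‖ = 1 := by
        rw [norm_smul, norm_inv, norm_norm, inv_mul_cancel₀ (norm_ne_zero_iff.mpr hu)]
      rw [← hall δ hδ _ hun]
      congr 1
      ext x
      have hu' : 0 < ‖u‖ := norm_pos_iff.mpr hu
      simp only [below, mem_inter_iff, mem_setOf_eq, inner_smul_right]
      rw [inv_mul_le_iff₀ hu', mul_comm])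
    R ⟨by linarith, le_rfl⟩
  exact ⟨R, hRpos, FINB K hK hconv hint v R hv hR hB hcore⟩

lemma TRSET (K : Set E3) (hK : IsCompact K) (hconv : Convex ℝ K) (hint : (interior K).Nonempty) :
    ∃ (g : E3) (K' : Set E3), IsCompact K' ∧ Convex ℝ K' ∧ (interior K').Nonempty ∧
      ∫ x in K', x = 0 ∧ floatSet K ⊆ floatSet K' ∧
      ∀ r : ℝ, K' = Metric.closedBall (0:E3) r → K = Metric.closedBall g r := by
  have hvol : 0 < volume.real K := by
    have h1 : 0 < volume (interior K) := isOpen_interior.measure_pos volume hint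
    have h2 : 0 < volume K := h1.trans_le (measure_mono interior_subset)
    exact ENNReal.toReal_pos h2.ne' hK.measure_lt_top.ne
  set g : E3 := centroidOf K with hg
  set K' : Set E3 := (fun x => x - g) '' K with hK'
  have hcont : Continuous (fun x : E3 => x - g) := continuous_id.sub continuous_const
  have hK'c : IsCompact K' := hK.image hcont
  have hK'e : K' = (Homeomorph.subRight g) '' K := rfl
  have hconv' : Convex ℝ K' := by
    have := hconv.translate (-g)
    have he : K' = (fun x => -g + x) '' K := by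
      rw [hK']
      exact image_congr fun x _ => by abel
    rw [he]; exact this
  have hint' : (interior K').Nonempty := by
    rw [hK'e, ← Homeomorph.image_interior]
    exact hint.image _
  have h0' : ∫ x in K', x = 0 := H0 K hK hvol
  have hsub : floatSet K ⊆ floatSet K' := fun d hd => ⟨hd.1, TRANS K hK g d hvol hd.1 hd.2⟩
  refine ⟨g, K', hK'c, hconv', hint', h0', hsub, fun r hKr => ?_⟩
  ext x
  have : x ∈ K ↔ x - g ∈ K' := by
    constructor
    · intro hx; exact ⟨x, hx, rfl⟩
    · rintro ⟨y, hy, hyx⟩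
      have : y = x := sub_left_injective hyx
      exact this ▸ hy
  rw [this, hKr]
  simp [Metric.mem_closedBall, dist_eq_norm]

theorem MAIN (K : Set E3) (hK : IsCompact K) (hconv : Convex ℝ K) (hint : (interior K).Nonempty)
    (hinf : {δ : ℝ | δ ∈ Ioo (0:ℝ) 1 ∧ AccPt δ (𝓟 (floatSet K))}.Infinite) :
    ∃ (a : E3) (r : ℝ), 0 < r ∧ K = Metric.closedBall a r := by
  obtain ⟨g, K', hK'c, hconv', hint', h0', hsub, hball⟩ := TRSET K hK hconv hint
  have hinf' : {δ : ℝ | δ ∈ Ioo (0:ℝ) 1 ∧ AccPt δ (𝓟 (floatSet K'))}.Infinite :=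
    hinf.mono fun δ hδ => ⟨hδ.1, hδ.2.mono (principal_mono.mpr hsub)⟩
  obtain ⟨r, hr, hKr⟩ := MAIN0 K' hK'c hconv' hint' h0' hinf'
  exact ⟨g, r, hr, hball r hKr⟩

/-- accumulation at density zero, centroid at the origin -/
theorem MAINZ0 (K : Set E3) (hK : IsCompact K) (hconv : Convex ℝ K) (hint : (interior K).Nonempty)
    (h0 : ∫ x in K, x = 0) (hacc : AccPt (0:ℝ) (𝓟 (floatSet K))) :
    ∃ r : ℝ, 0 < r ∧ K = Metric.closedBall (0:E3) r := by
  obtain ⟨v, R, hv, hR, hB⟩ := SUPP K hK hconv (hint.mono interior_subset)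
  have hv' : ‖(-v)‖ = 1 := by rw [norm_neg]; exact hv
  have hlow : ∀ x ∈ K, -R ≤ ⟪x, -v⟫ := fun x hx => by
    rw [inner_neg_right]; linarith [hR x hx]
  have hsub : K ⊆ Metric.closedBall (0:E3) R := by
    intro y hy
    rw [mem_closedBall_zero_iff]
    rcases eq_or_ne y 0 with rfl | hy0
    · have := EZERO K hK hconv hint h0 hacc v (-v) hv hv' (-R) hlow 0 hy
      rw [inner_zero_left] at this
      rw [norm_zero]; linarith
    · have hn : 0 < ‖y‖ := norm_pos_iff.mpr hy0
      have hun : ‖(-(‖y‖⁻¹ • y))‖ = 1 := by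
        rw [norm_neg, norm_smul, norm_inv, norm_norm, inv_mul_cancel₀ hn.ne']
      have := EZERO K hK hconv hint h0 hacc _ (-v) hun hv' (-R) hlow y hy
      rw [inner_neg_right, inner_smul_right, real_inner_self_eq_norm_sq] at this
      have h2 : ‖y‖⁻¹ * ‖y‖ ^ 2 = ‖y‖ := by field_simp
      rw [h2] at this; linarith
  have hKe : K = Metric.closedBall (0:E3) R := hsub.antisymm hB
  refine ⟨R, ?_, hKe⟩
  by_contra hR0
  push Not at hR0
  have hint2 : (interior (Metric.closedBall (0:E3) R)).Nonempty := hKe ▸ hint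
  rcases hR0.lt_or_eq with h | h
  · rw [Metric.closedBall_eq_empty.mpr h] at hint2; simp at hint2
  · rw [h, Metric.closedBall_zero, interior_singleton] at hint2; simp at hint2

theorem MAINZ (K : Set E3) (hK : IsCompact K) (hconv : Convex ℝ K) (hint : (interior K).Nonempty)
    (hacc : AccPt (0:ℝ) (𝓟 (floatSet K))) :
    ∃ (a : E3) (r : ℝ), 0 < r ∧ K = Metric.closedBall a r := by
  obtain ⟨g, K', hK'c, hconv', hint', h0', hsub, hball⟩ := TRSET K hK hconv hint
  obtain ⟨r, hr, hKr⟩ := MAINZ0 K' hK'c hconv' hint' h0' (hacc.mono (principal_mono.mpr hsub))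
  exact ⟨g, r, hr, hball r hKr⟩

/-- A convex body in space that is not a ball floats in every orientation at only countably many
densities; these densities stay away from `0` and `1` and have only finitely many accumulation
points. -/
theorem result0 (K : Set E3) (hK : IsCompact K) (hconv : Convex ℝ K) (hint : (interior K).Nonempty)
    (hball : ¬ ∃ (a : E3) (r : ℝ), 0 < r ∧ K = Metric.closedBall a r) :
    (floatSet K).Countable ∧ {δ : ℝ | AccPt δ (𝓟 (floatSet K))}.Finite ∧
      ∃ ε : ℝ, 0 < ε ∧ floatSet K ⊆ Icc ε (1 - ε) := by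
  have hvol : 0 < volume.real K := by
    have h1 : 0 < volume (interior K) := isOpen_interior.measure_pos volume hint
    have h2 : 0 < volume K := h1.trans_le (measure_mono interior_subset)
    exact ENNReal.toReal_pos h2.ne' hK.measure_lt_top.ne
  have h2 : {δ : ℝ | δ ∈ Ioo (0:ℝ) 1 ∧ AccPt δ (𝓟 (floatSet K))}.Finite := by
    by_contra h
    exact hball (MAIN K hK hconv hint h)
  have h3 : ¬ AccPt (0:ℝ) (𝓟 (floatSet K)) := fun h => hball (MAINZ K hK hconv hint h)
  obtain ⟨ε, hε, hD⟩ : ∃ ε : ℝ, 0 < ε ∧ ∀ d ∈ floatSet K, ε ≤ d := by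
    rw [accPt_iff_frequently, Filter.not_frequently, Metric.eventually_nhds_iff] at h3
    obtain ⟨ε, hε, h⟩ := h3
    refine ⟨ε, hε, fun d hd => ?_⟩
    by_contra hlt
    push Not at hlt
    refine h (y := d) ?_ ⟨hd.1.1.ne', hd⟩
    rw [Real.dist_eq, sub_zero, abs_of_pos hd.1.1]; exact hlt
  have hD' : floatSet K ⊆ Icc ε (1 - ε) := fun d hd =>
    ⟨hD d hd, by have := hD _ (SYM K hK hvol d hd); linarith⟩
  refine ⟨?_, ?_, ε, hε, hD'⟩
  · by_contra h
    exact UNC (floatSet K) (fun d hd => hd.1) h h2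
  · refine h2.subset fun δ hδ => ⟨?_, hδ⟩
    have hcl : δ ∈ closure (floatSet K) := by
      rw [mem_closure_iff_clusterPt]; exact AccPt.clusterPt hδ
    have := (closure_minimal hD' isClosed_Icc) hcl
    exact ⟨lt_of_lt_of_le hε this.1, lt_of_le_of_lt this.2 (by linarith)⟩

end FB41
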